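import Pool.Agent.Work.MP_8f87b2_end.Red
import Pool.Agent.Work.MP_8f87b2_und.Dir

/-!
# Modular assembly

`HasSys O N W I`: the new cycles `N` can be absorbed, if the cycles of `O` are old, by gadgets with words
in `W` and inner words of the arcs in `I`. `sys_union`, `sys_pairs` (an involution on `N`), `sys_main`.
-/

set_option autoImplicit false

namespace Pool.OddHC

open Finset Equiv Pool.Agent.Work.MP_8f87b2_co

variable {k : ℕ}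

/-- a system of gadgets -/
structure IsSys {Γ : Type} (O N : Set (Cyc k)) (W I : Set (X k)) (gad : Γ → DG k)
    (Fc : Γ → Set (Cyc k)) (rk : Γ → ℕ) : Prop where
  F_iff : ∀ g w, w ∈ (gad g).F ↔ cyc w ∈ Fc g
  sub : ∀ g, ∀ c ∈ Fc g, c ∈ N
  cover : ∀ c ∈ N, ∃ g, c ∈ Fc g
  Fdis : ∀ g h, g ≠ h → ∀ c ∈ Fc g, c ∉ Fc h
  dis : ∀ g h, g ≠ h → ∀ w ∈ (gad g).B, w ∉ (gad h).B
  new : ∀ g, ∀ c ∈ Fc g, ∃ u ∈ (gad g).B, cyc u = c
  old : ∀ g, ∃ u ∈ (gad g).B, cyc u ∉ Fc g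
  B : ∀ g, ∀ w ∈ (gad g).B, cyc w ∈ Fc g ∨ cyc w ∈ O ∨ ∃ h, rk h < rk g ∧ cyc w ∈ Fc h
  BW : ∀ g, ∀ w ∈ (gad g).B, w ∈ W
  path : ∀ g, ∀ a ∈ (gad g).arcs, ∃ n : ℕ, (TT ^ (n + 1)) a.1 = a.2 ∧ a.1 ∈ (gad g).B ∧
    ∀ i < n, (TT ^ (i + 1)) a.1 ∉ (gad g).B ∧ (TT ^ (i + 1)) a.1 ∈ I ∧
      ∀ h, h ≠ g → rk h ≤ rk g → (TT ^ (i + 1)) a.1 ∉ (gad h).B
  abs : ∀ g, (gad g).Abs

/-- there is a system of gadgets -/
def HasSys (O N : Set (Cyc k)) (W I : Set (X k)) : Prop :=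
  ∃ (Γ : Type) (_ : Finite Γ) (gad : Γ → DG k) (Fc : Γ → Set (Cyc k)) (rk : Γ → ℕ),
    IsSys O N W I gad Fc rk

/-- nothing to absorb -/
theorem sys_empty (O : Set (Cyc k)) (W I : Set (X k)) : HasSys O ∅ W I := by
  refine ⟨Empty, inferInstance, Empty.elim, Empty.elim, Empty.elim, ?_⟩
  constructor <;> first | (intro g; exact g.elim) | (intro c hc; exact absurd hc (Set.notMem_empty c))

theorem HasSys.mono {O N : Set (Cyc k)} {W I W' I' : Set (X k)} (h : HasSys O N W I)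
    (hW : W ⊆ W') (hI : I ⊆ I') : HasSys O N W' I' := by
  obtain ⟨Γ, hf, gad, Fc, rk, h⟩ := h
  refine ⟨Γ, hf, gad, Fc, rk, h.F_iff, h.sub, h.cover, h.Fdis, h.dis, h.new, h.old, h.B,
    fun g w hw => hW (h.BW g w hw), ?_, h.abs⟩
  intro g a ha
  obtain ⟨n, h1, h2, h3⟩ := h.path g a ha
  exact ⟨n, h1, h2, fun i hi => ⟨(h3 i hi).1, hI (h3 i hi).2.1, (h3 i hi).2.2⟩⟩

theorem HasSys.mono_old {O O' N : Set (Cyc k)} {W I : Set (X k)} (h : HasSys O N W I)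
    (hO : O ⊆ O') : HasSys O' N W I := by
  obtain ⟨Γ, hf, gad, Fc, rk, h⟩ := h
  refine ⟨Γ, hf, gad, Fc, rk, h.F_iff, h.sub, h.cover, h.Fdis, h.dis, h.new, h.old, ?_,
    h.BW, h.path, h.abs⟩
  intro g w hw
  rcases h.B g w hw with h1 | h1 | h1
  · exact Or.inl h1
  · exact Or.inr (Or.inl (hO h1))
  · exact Or.inr (Or.inr h1)

/-- UNION: first `N₁`, then `N₂` -/
theorem sys_union {O N₁ N₂ : Set (Cyc k)} {W₁ W₂ I₁ I₂ : Set (X k)}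
    (h1 : HasSys O N₁ W₁ I₁) (h2 : HasSys (O ∪ N₁) N₂ W₂ I₂)
    (hN : ∀ c ∈ N₁, c ∉ N₂) (hW : ∀ w ∈ W₁, w ∉ W₂) (hWI : ∀ w ∈ W₁, w ∉ I₂) :
    HasSys O (N₁ ∪ N₂) (W₁ ∪ W₂) (I₁ ∪ I₂) := by
  classical
  obtain ⟨Γ₁, hf1, g1, F1, r1, h1⟩ := h1
  obtain ⟨Γ₂, hf2, g2, F2, r2, h2⟩ := h2
  have := Fintype.ofFinite Γ₁
  have hM : ∀ g : Γ₁, r1 g ≤ univ.sup r1 := fun g => le_sup (f := r1) (mem_univ g)
  refine ⟨Γ₁ ⊕ Γ₂, inferInstance, Sum.elim g1 g2, Sum.elim F1 F2,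
    Sum.elim r1 (fun g => univ.sup r1 + 1 + r2 g), ?_⟩
  constructor
  · rintro (g | g) w
    · exact h1.F_iff g w
    · exact h2.F_iff g w
  · rintro (g | g) c hc
    · exact Or.inl (h1.sub g c hc)
    · exact Or.inr (h2.sub g c hc)
  · rintro c (hc | hc)
    · obtain ⟨g, hg⟩ := h1.cover c hc
      exact ⟨Sum.inl g, hg⟩
    · obtain ⟨g, hg⟩ := h2.cover c hc
      exact ⟨Sum.inr g, hg⟩
  · rintro (g | g) (h | h) hne c hc
    · exact h1.Fdis g h (fun e => hne (by rw [e])) c hc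
    · exact fun hc' => hN c (h1.sub g c hc) (h2.sub h c hc')
    · exact fun hc' => hN c (h1.sub h c hc') (h2.sub g c hc)
    · exact h2.Fdis g h (fun e => hne (by rw [e])) c hc
  · rintro (g | g) (h | h) hne w hw
    · exact h1.dis g h (fun e => hne (by rw [e])) w hw
    · exact fun hw' => hW w (h1.BW g w hw) (h2.BW h w hw')
    · exact fun hw' => hW w (h1.BW h w hw') (h2.BW g w hw)
    · exact h2.dis g h (fun e => hne (by rw [e])) w hw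
  · rintro (g | g) c hc
    · exact h1.new g c hc
    · exact h2.new g c hc
  · rintro (g | g)
    · exact h1.old g
    · exact h2.old g
  · rintro (g | g) w hw
    · rcases h1.B g w hw with h | h | ⟨h, h3, h4⟩
      · exact Or.inl h
      · exact Or.inr (Or.inl h)
      · exact Or.inr (Or.inr ⟨Sum.inl h, h3, h4⟩)
    · rcases h2.B g w hw with h | (h | h) | ⟨h, h3, h4⟩
      · exact Or.inl h
      · exact Or.inr (Or.inl h)
      · obtain ⟨g', hg'⟩ := h1.cover _ h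
        refine Or.inr (Or.inr ⟨Sum.inl g', ?_, hg'⟩)
        change r1 g' < univ.sup r1 + 1 + r2 g
        have := hM g'
        omega
      · refine Or.inr (Or.inr ⟨Sum.inr h, ?_, h4⟩)
        change univ.sup r1 + 1 + r2 h < univ.sup r1 + 1 + r2 g
        omega
  · rintro (g | g) w hw
    · exact Or.inl (h1.BW g w hw)
    · exact Or.inr (h2.BW g w hw)
  · rintro (g | g) a ha
    · obtain ⟨n, e1, e2, e3⟩ := h1.path g a ha
      refine ⟨n, e1, e2, fun i hi => ⟨(e3 i hi).1, Or.inl (e3 i hi).2.1, ?_⟩⟩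
      rintro (h | h) hne hr
      · exact (e3 i hi).2.2 h (fun e => hne (by rw [e])) hr
      · exfalso
        change univ.sup r1 + 1 + r2 h ≤ r1 g at hr
        have := hM g
        omega
    · obtain ⟨n, e1, e2, e3⟩ := h2.path g a ha
      refine ⟨n, e1, e2, fun i hi => ⟨(e3 i hi).1, Or.inr (e3 i hi).2.1, ?_⟩⟩
      rintro (h | h) hne hr
      · intro hw
        exact hWI _ (h1.BW h _ hw) (e3 i hi).2.1
      · refine (e3 i hi).2.2 h (fun e => hne (by rw [e])) ?_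
        change univ.sup r1 + 1 + r2 h ≤ univ.sup r1 + 1 + r2 g at hr
        omega
  · rintro (g | g)
    · exact h1.abs g
    · exact h2.abs g

/-- the gadget of the cycle `p` with partner `q` -/
noncomputable def pDG (B : Finset (X k)) (p q : Cyc k) (arcs : Set (X k × X k)) : DG k :=
  ⟨B, {w | cyc w = p ∨ cyc w = q}, arcs⟩

/-- PAIRS: an involution on the new cycles -/
theorem sys_pairs (O N : Set (Cyc k)) (W I : Set (X k)) (ι : Cyc k → Cyc k)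
    (hι : ∀ p ∈ N, ι (ι p) = p) (hιN : ∀ p ∈ N, ι p ∈ N) (rk : Cyc k → ℕ)
    (hrk : ∀ p ∈ N, rk (ι p) = rk p)
    (B : Cyc k → Finset (X k)) (arcs : Cyc k → Set (X k × X k))
    (hdis : ∀ p ∈ N, ∀ q ∈ N, q ≠ p → q ≠ ι p → ∀ w ∈ B p, w ∉ B q)
    (hnew : ∀ p ∈ N, ∃ u ∈ B p, cyc u = p)
    (hnew' : ∀ p ∈ N, ∃ u ∈ B p, cyc u = ι p)
    (hold : ∀ p ∈ N, ∃ u ∈ B p, cyc u ≠ p ∧ cyc u ≠ ι p)
    (hB : ∀ p ∈ N, ∀ w ∈ B p, cyc w = p ∨ cyc w = ι p ∨ cyc w ∈ O ∨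
      (cyc w ∈ N ∧ rk (cyc w) < rk p))
    (hBW : ∀ p ∈ N, ∀ w ∈ B p, w ∈ W)
    (hpath : ∀ p ∈ N, ∀ a ∈ arcs p, ∃ n : ℕ, (TT ^ (n + 1)) a.1 = a.2 ∧ a.1 ∈ B p ∧
      ∀ i < n, (TT ^ (i + 1)) a.1 ∉ B p ∧ (TT ^ (i + 1)) a.1 ∈ I ∧
        ∀ q ∈ N, q ≠ p → q ≠ ι p → rk q ≤ rk p → (TT ^ (i + 1)) a.1 ∉ B q)
    (hAbs : ∀ p ∈ N, (pDG (B p) p (ι p) (arcs p)).Abs) : HasSys O N W I := by
  classical
  have : Fintype (Cyc k) := Fintype.ofFinite _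
  obtain ⟨o⟩ : Nonempty (Cyc k ≃ Fin (Fintype.card (Cyc k))) := ⟨Fintype.equivFin _⟩
  let Γ : Type := {p : Cyc k // p ∈ N ∧ o p ≤ o (ι p)}
  have hrep : ∀ p ∈ N, ∃ g : Γ, (p = g.1 ∨ p = ι g.1) ∧ rk g.1 = rk p := by
    intro p hp
    rcases le_total (o p) (o (ι p)) with h | h
    · exact ⟨⟨p, hp, h⟩, Or.inl rfl, rfl⟩
    · refine ⟨⟨ι p, hιN p hp, by rw [hι p hp]; exact h⟩, Or.inr (hι p hp).symm, hrk p hp⟩
  have hdiff : ∀ g h : Γ, g ≠ h → h.1 ≠ g.1 ∧ h.1 ≠ ι g.1 := by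
    rintro ⟨p, hp, hp'⟩ ⟨q, hq, hq'⟩ hne
    have h1 : q ≠ p := fun h => hne (Subtype.ext h.symm)
    refine ⟨h1, ?_⟩
    intro h
    change q = ι p at h
    subst h
    rw [hι p hp] at hq'
    apply h1
    exact o.injective (le_antisymm hq' hp')
  refine ⟨Γ, inferInstance, fun g => pDG (B g.1) g.1 (ι g.1) (arcs g.1),
    fun g => {c | c = g.1 ∨ c = ι g.1}, fun g => rk g.1, ?_⟩
  constructor
  · intro g w
    exact Iff.rfl
  · rintro g c (hc | hc)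
    · rw [hc]; exact g.2.1
    · rw [hc]; exact hιN _ g.2.1
  · intro c hc
    obtain ⟨g, hg, _⟩ := hrep c hc
    exact ⟨g, hg⟩
  · intro g h hgh c hc hc'
    obtain ⟨h1, h2⟩ := hdiff g h hgh
    rcases hc with hc | hc <;> rcases hc' with hc' | hc'
    · exact h1 (hc'.symm.trans hc)
    · apply h2
      rw [← hc, hc', hι _ h.2.1]
    · exact h2 (hc'.symm.trans hc)
    · apply h1
      rw [← hι h.1 h.2.1, ← hc', hc, hι _ g.2.1]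
  · intro g h hgh
    exact hdis g.1 g.2.1 h.1 h.2.1 (hdiff g h hgh).1 (hdiff g h hgh).2
  · rintro g c (hc | hc)
    · obtain ⟨u, hu, hu'⟩ := hnew g.1 g.2.1
      exact ⟨u, hu, hu'.trans hc.symm⟩
    · obtain ⟨u, hu, hu'⟩ := hnew' g.1 g.2.1
      exact ⟨u, hu, hu'.trans hc.symm⟩
  · intro g
    obtain ⟨u, hu, h1, h2⟩ := hold g.1 g.2.1
    refine ⟨u, hu, ?_⟩
    rintro (h | h)
    · exact h1 h
    · exact h2 h
  · intro g w hw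
    rcases hB g.1 g.2.1 w hw with h | h | h | ⟨h, h'⟩
    · exact Or.inl (Or.inl h)
    · exact Or.inl (Or.inr h)
    · exact Or.inr (Or.inl h)
    · obtain ⟨g', hg', hr⟩ := hrep (cyc w) h
      exact Or.inr (Or.inr ⟨g', by simp only [hr]; exact h', hg'⟩)
  · intro g
    exact hBW g.1 g.2.1
  · intro g a ha
    obtain ⟨n, h1, h2, h3⟩ := hpath g.1 g.2.1 a ha
    refine ⟨n, h1, h2, fun i hi => ⟨(h3 i hi).1, (h3 i hi).2.1, fun h hne hr => ?_⟩⟩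
    exact (h3 i hi).2.2 h.1 h.2.1 (hdiff g h hne.symm).1 (hdiff g h hne.symm).2 hr
  · intro g
    exact hAbs g.1 g.2.1

/-- SINGLES: every new cycle has its own gadget -/
theorem sys_singles (O N : Set (Cyc k)) (W I : Set (X k)) (rk : Cyc k → ℕ)
    (B : Cyc k → Finset (X k)) (arcs : Cyc k → Set (X k × X k))
    (hdis : ∀ p ∈ N, ∀ q ∈ N, q ≠ p → ∀ w ∈ B p, w ∉ B q)
    (hnew : ∀ p ∈ N, ∃ u ∈ B p, cyc u = p)
    (hold : ∀ p ∈ N, ∃ u ∈ B p, cyc u ≠ p)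
    (hB : ∀ p ∈ N, ∀ w ∈ B p, cyc w = p ∨ cyc w ∈ O ∨ (cyc w ∈ N ∧ rk (cyc w) < rk p))
    (hBW : ∀ p ∈ N, ∀ w ∈ B p, w ∈ W)
    (hpath : ∀ p ∈ N, ∀ a ∈ arcs p, ∃ n : ℕ, (TT ^ (n + 1)) a.1 = a.2 ∧ a.1 ∈ B p ∧
      ∀ i < n, (TT ^ (i + 1)) a.1 ∉ B p ∧ (TT ^ (i + 1)) a.1 ∈ I ∧
        ∀ q ∈ N, q ≠ p → rk q ≤ rk p → (TT ^ (i + 1)) a.1 ∉ B q)
    (hAbs : ∀ p ∈ N, (pDG (B p) p p (arcs p)).Abs) : HasSys O N W I := by
  apply sys_pairs O N W I id (fun _ _ => rfl) (fun _ h => h) rk (fun _ _ => rfl) B arcs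
  · intro p hp q hq hne _
    exact hdis p hp q hq hne
  · exact hnew
  · exact hnew
  · intro p hp
    obtain ⟨u, hu, h⟩ := hold p hp
    exact ⟨u, hu, h, h⟩
  · intro p hp w hw
    rcases hB p hp w hw with h | h | h
    · exact Or.inl h
    · exact Or.inr (Or.inr (Or.inl h))
    · exact Or.inr (Or.inr (Or.inr h))
  · exact hBW
  · intro p hp a ha
    obtain ⟨n, h1, h2, h3⟩ := hpath p hp a ha
    exact ⟨n, h1, h2, fun i hi => ⟨(h3 i hi).1, (h3 i hi).2.1,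
      fun q hq hne _ hr => (h3 i hi).2.2 q hq hne hr⟩⟩
  · exact hAbs

/-- from the form of `dir_main` to a system -/
theorem sys_of_dir {Γ : Type} [Finite Γ] (O N : Set (Cyc k)) (W I : Set (X k)) (gad : Γ → DG k)
    (rk : Γ → ℕ)
    (hdis : ∀ g h, g ≠ h → ∀ w ∈ (gad g).B, w ∉ (gad h).B)
    (hF : ∀ g, ∀ w w', TT.SameCycle w w' → w ∈ (gad g).F → w' ∈ (gad g).F)
    (hFne : ∀ g, ∀ w ∈ (gad g).F, ∃ u ∈ (gad g).B, TT.SameCycle w u)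
    (hold : ∀ g, ∃ u ∈ (gad g).B, u ∉ (gad g).F)
    (hFdis : ∀ g h, g ≠ h → ∀ w ∈ (gad g).F, w ∉ (gad h).F)
    (hN : ∀ w, cyc w ∈ N ↔ ∃ g, w ∈ (gad g).F)
    (hB : ∀ g, ∀ w ∈ (gad g).B, w ∈ (gad g).F ∨ cyc w ∈ O ∨
      ∃ h, rk h < rk g ∧ w ∈ (gad h).F)
    (hBW : ∀ g, ∀ w ∈ (gad g).B, w ∈ W)
    (hpath : ∀ g, ∀ a ∈ (gad g).arcs, ∃ n : ℕ, (TT ^ (n + 1)) a.1 = a.2 ∧ a.1 ∈ (gad g).B ∧
      ∀ i < n, (TT ^ (i + 1)) a.1 ∉ (gad g).B ∧ (TT ^ (i + 1)) a.1 ∈ I ∧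
        ∀ h, h ≠ g → rk h ≤ rk g → (TT ^ (i + 1)) a.1 ∉ (gad h).B)
    (hAbs : ∀ g, (gad g).Abs) : HasSys O N W I := by
  have key : ∀ g w, w ∈ (gad g).F ↔ cyc w ∈ {c : Cyc k | ∃ v, cyc v = c ∧ v ∈ (gad g).F} := by
    intro g w
    constructor
    · intro h; exact ⟨w, rfl, h⟩
    · rintro ⟨v, hv, h⟩
      exact hF g v w (cyc_eq.1 hv) h
  refine ⟨Γ, inferInstance, gad, fun g => {c | ∃ v, cyc v = c ∧ v ∈ (gad g).F}, rk, ?_⟩
  constructor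
  · exact key
  · rintro g c ⟨v, rfl, h⟩
    exact (hN v).2 ⟨g, h⟩
  · intro c hc
    obtain ⟨w, rfl⟩ : ∃ w, cyc w = c := Quotient.exists_rep c
    obtain ⟨g, hg⟩ := (hN w).1 hc
    exact ⟨g, w, rfl, hg⟩
  · rintro g h hgh c ⟨v, rfl, hv⟩ hc'
    exact hFdis g h hgh v hv ((key h v).2 hc')
  · exact hdis
  · rintro g c ⟨v, rfl, hv⟩
    obtain ⟨u, hu, hs⟩ := hFne g v hv
    exact ⟨u, hu, (cyc_eq.2 hs).symm⟩
  · intro g
    obtain ⟨u, hu, hs⟩ := hold g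
    exact ⟨u, hu, fun h => hs ((key g u).2 h)⟩
  · intro g w hw
    rcases hB g w hw with h | h | ⟨h, h1, h2⟩
    · exact Or.inl ((key g w).1 h)
    · exact Or.inr (Or.inl h)
    · exact Or.inr (Or.inr ⟨h, h1, (key h w).1 h2⟩)
  · exact hBW
  · exact hpath
  · exact hAbs

/-- **MAIN** -/
theorem sys_main (hk : 1 ≤ k) (root : X k) {W I : Set (X k)}
    (h : HasSys {cyc root} {cyc root}ᶜ W I) : 2 * k + 1 ∈ compressionSet (oddGraph k) := by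
  classical
  obtain ⟨Γ, hf, gad, Fc, rk, h⟩ := h
  have := Fintype.ofFinite Γ
  apply dir_main hk gad rk root h.dis
  · intro g w w' hs hw
    rw [h.F_iff] at hw ⊢
    rwa [← cyc_eq.2 hs]
  · intro g w hw
    obtain ⟨u, hu, hu'⟩ := h.new g _ ((h.F_iff g w).1 hw)
    exact ⟨u, hu, cyc_eq.1 hu'.symm⟩
  · intro g
    obtain ⟨u, hu, hu'⟩ := h.old g
    exact ⟨u, hu, fun hh => hu' ((h.F_iff g u).1 hh)⟩
  · intro g g' hne w hw hw'
    exact h.Fdis g g' hne _ ((h.F_iff g w).1 hw) ((h.F_iff g' w).1 hw')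
  · intro g hg
    exact h.sub g _ ((h.F_iff g root).1 hg) rfl
  · intro w
    by_cases hw : cyc w = cyc root
    · exact Or.inl (cyc_eq.1 hw.symm)
    · obtain ⟨g, hg⟩ := h.cover (cyc w) hw
      exact Or.inr ⟨g, (h.F_iff g w).2 hg⟩
  · intro g w hw
    rcases h.B g w hw with h1 | h1 | ⟨h', h1, h2⟩
    · exact Or.inl ((h.F_iff g w).2 h1)
    · exact Or.inr (Or.inl (cyc_eq.1 (Eq.symm h1)))
    · exact Or.inr (Or.inr ⟨h', h1, (h.F_iff h' w).2 h2⟩)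
  · intro g s π hbu hg hs a ha
    obtain ⟨n, h1, h2, h3⟩ := h.path g a ha
    refine fr_of_path h.dis hbu hg h2 n h1 (fun i hi => (h3 i hi).1) ?_
    intro i hi h' hh'
    refine (h3 i hi).2.2 h' ?_ (hs h' hh')
    rintro rfl
    exact hg hh'
  · exact h.abs

end Pool.OddHC
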