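import Pool.Agent.Work.MP_8f87b2_end.Mid2
import Pool.Agent.Work.MP_8f87b2_mid.Rank

/-!
# A plan from a grouping function

`grp c` : the group of the new T-cycle `c`, `win F` : the group is a window. `Pp`, `Pw` : plain and window types.
`plan_of_grp` : `PlanOK`; `rank_same` : the window rank from `H1.Lower` if the old window group has one content.
-/

set_option autoImplicit false

namespace Pool.OddHC

open Finset Equiv Pool.Agent.Work.MP_8f87b2_co

variable {k : ℕ}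

/-- plain and window types together: a plain type is used for plain groups only, a window type for windows only -/
def PW {τp τw : Type} (win : Set (Cyc k) → Prop) (Pp : τp → Set (Cyc k) → DG k → Prop)
    (Pw : τw → Set (Cyc k) → DG k → Prop) : τp ⊕ τw → Set (Cyc k) → DG k → Prop
  | .inl t, F, g => ¬ win F ∧ Pp t F g
  | .inr t, F, g => win F ∧ Pw t F g

/-- the plain groups -/
def gpl (N : Set (Cyc k)) (grp : Cyc k → Set (Cyc k)) (win : Set (Cyc k) → Prop) : Set (Set (Cyc k)) :=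
  {F | ∃ c ∈ N, grp c = F ∧ ¬ win F}

/-- the windows -/
def gwi (N : Set (Cyc k)) (grp : Cyc k → Set (Cyc k)) (win : Set (Cyc k) → Prop) : Set (Set (Cyc k)) :=
  {F | ∃ c ∈ N, grp c = F ∧ win F}

variable {τp τw : Type} {O N : Set (Cyc k)} {grp : Cyc k → Set (Cyc k)} {win : Set (Cyc k) → Prop}
  {Pp : τp → Set (Cyc k) → DG k → Prop} {Pw : τw → Set (Cyc k) → DG k → Prop}
  {mn : Set (Cyc k) → Cyc k} {ph : Cyc k → ℕ}

theorem mem_gg {F : Set (Cyc k)} : F ∈ gpl N grp win ∪ gwi N grp win ↔ ∃ c ∈ N, grp c = F := by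
  constructor
  · rintro (⟨c, hc, h, _⟩ | ⟨c, hc, h, _⟩)
    · exact ⟨c, hc, h⟩
    · exact ⟨c, hc, h⟩
  · rintro ⟨c, hc, rfl⟩
    by_cases h : win (grp c)
    · exact Or.inr ⟨c, hc, rfl, h⟩
    · exact Or.inl ⟨c, hc, rfl, h⟩

/-- **A PLAN FROM A GROUPING FUNCTION** -/
theorem plan_of_grp (g1 : ∀ c ∈ N, c ∈ grp c) (g2 : ∀ c ∈ N, ∀ d ∈ grp c, d ∈ N ∧ grp d = grp c)
    (hON : ∀ c ∈ N, ∀ d, htc c < htc d → d ∈ O ∨ d ∈ N)
    (exp : ∀ c ∈ N, ¬ win (grp c) → ∃ t g, Pp t (grp c) g)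
    (exw : ∀ c ∈ N, win (grp c) → ∃ t g, Pw t (grp c) g)
    (hmn : ∀ c ∈ N, win (grp c) → mn (grp c) ∈ grp c)
    (htp : ∀ t F g, Pp t F g → ∀ c ∈ F, ∀ d ∈ F, htc c = htc d)
    (htw : ∀ t F g, Pw t F g → ∀ c ∈ F, ∀ d ∈ F, htc c = htc d)
    (rkp : ∀ t F g, Pp t F g → ∀ w ∈ g.B, cyc w ∈ F ∨ ∀ c ∈ F, htc c < htc (cyc w))
    (rkw : ∀ t, ∀ c ∈ N, win (grp c) → ∀ g, Pw t (grp c) g → ∀ w ∈ g.B, cyc w ∈ grp c ∨
      htc (mn (grp c)) < htc (cyc w) ∨
      (cyc w ∈ N ∧ htc (mn (grp c)) = htc (cyc w) ∧ (¬ win (grp (cyc w)) ∨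
        H1.Lower (contc (mn (grp (cyc w)))) (contc (mn (grp c))) ∨
        (contc (mn (grp (cyc w))) = contc (mn (grp c)) ∧
          ph (mn (grp (cyc w))) < ph (mn (grp c)))))) :
    PlanOK O N (gpl N grp win) (gwi N grp win) (PW win Pp Pw) mn ph := by
  constructor
  · intro F hF
    obtain ⟨c, hc, rfl⟩ := mem_gg.1 hF
    exact ⟨c, g1 c hc⟩
  · intro F hF d hd
    obtain ⟨c, hc, rfl⟩ := mem_gg.1 hF
    exact (g2 c hc d hd).1
  · intro c hc
    exact ⟨grp c, mem_gg.2 ⟨c, hc, rfl⟩, g1 c hc⟩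
  · intro F hF F' hF' d hd hd'
    obtain ⟨c, hc, rfl⟩ := mem_gg.1 hF
    obtain ⟨c', hc', rfl⟩ := mem_gg.1 hF'
    rw [← (g2 c hc d hd).2, ← (g2 c' hc' d hd').2]
  · rintro F ⟨_, _, _, h⟩ ⟨_, _, _, h'⟩
    exact h h'
  · intro F hF
    obtain ⟨c, hc, rfl⟩ := mem_gg.1 hF
    by_cases h : win (grp c)
    · obtain ⟨t, g, hg⟩ := exw c hc h
      exact ⟨.inr t, g, h, hg⟩
    · obtain ⟨t, g, hg⟩ := exp c hc h
      exact ⟨.inl t, g, h, hg⟩
  · rintro F ⟨c, hc, rfl, h⟩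
    obtain ⟨t, g, hg⟩ := exp c hc h
    exact htp t _ g hg
  · rintro F ⟨c, hc, rfl, h⟩
    exact hmn c hc h
  · rintro t F ⟨c, hc, rfl, h⟩ g hg w hw
    rcases t with t | t
    · rcases rkp t _ g hg.2 w hw with h1 | h1
      · exact Or.inl h1
      · right
        rcases hON c hc _ (h1 c (g1 c hc)) with h2 | h2
        · exact Or.inl h2
        · exact Or.inr ⟨h2, h1⟩
    · exact absurd hg.1 h
  · rintro t F ⟨c, hc, rfl, h⟩ g hg w hw
    rcases t with t | t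
    · exact absurd h hg.1
    · have hmc := hmn c hc h
      rcases rkw t c hc h g hg.2 w hw with h1 | h1 | ⟨h1, h2, h3⟩
      · exact Or.inl h1
      · right
        rcases hON _ (g2 c hc _ hmc).1 _ h1 with h2 | h2
        · exact Or.inl h2
        · exact Or.inr (Or.inl ⟨h2, h1⟩)
      · right; right; right
        rcases h3 with h3 | h3
        · exact Or.inl ⟨grp (cyc w), ⟨cyc w, h1, rfl, h3⟩, g1 _ h1, h2⟩
        · by_cases hwin : win (grp (cyc w))
          · refine Or.inr ⟨grp (cyc w), ⟨cyc w, h1, rfl, hwin⟩, g1 _ h1, ?_, h3⟩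
            obtain ⟨t', g', hg'⟩ := exw _ h1 hwin
            rw [h2]
            exact htw t' _ g' hg' _ (hmn _ h1 hwin) _ (g1 _ h1)
          · exact Or.inl ⟨grp (cyc w), ⟨cyc w, h1, rfl, hwin⟩, g1 _ h1, h2⟩
  · rintro F ⟨c, hc, rfl, h⟩ d hd
    obtain ⟨t, g, hg⟩ := exw c hc h
    exact htw t _ g hg d hd _ (hmn c hc h)

/-- the window rank from `H1.Lower`: `cyc w` Lower than the main T-cycle, its group of one content -/
theorem rank_same (g1 : ∀ c ∈ N, c ∈ grp c) (hON : ∀ c ∈ N, ∀ d, htc c ≤ htc d → d ∈ O ∨ d ∈ N)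
    (hmn : ∀ c ∈ N, win (grp c) → mn (grp c) ∈ grp c) {c : Cyc k} {w : X k} (hc : c ∈ N)
    (hO : ∀ d ∈ O, htc c < htc d)
    (hct : ∀ d ∈ N, win (grp d) → contc (mn (grp d)) = contc d)
    (hw : H1.Lower (contc (cyc w)) (contc c)) (hcw : win (grp c)) :
    htc (mn (grp c)) < htc (cyc w) ∨
      (cyc w ∈ N ∧ htc (mn (grp c)) = htc (cyc w) ∧ (¬ win (grp (cyc w)) ∨
        H1.Lower (contc (mn (grp (cyc w)))) (contc (mn (grp c))) ∨
        (contc (mn (grp (cyc w))) = contc (mn (grp c)) ∧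
          ph (mn (grp (cyc w))) < ph (mn (grp c))))) := by
  have e0 := hct c hc hcw
  have e1 : htc (mn (grp c)) = htc c := by
    change (contc _).sup = (contc _).sup
    rw [e0]
  rw [e1, e0]
  rcases hw with h | ⟨h1, h2⟩
  · exact Or.inl h
  · right
    have h3 : htc c = htc (cyc w) := by
      change (contc _).sup = (contc _).sup
      exact h1.symm
    have h4 : cyc w ∈ N := by
      rcases hON c hc (cyc w) h3.le with h5 | h5
      · exact absurd (hO _ h5) (by omega)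
      · exact h5
    refine ⟨h4, h3, ?_⟩
    by_cases hwin : win (grp (cyc w))
    · right; left
      rw [hct _ h4 hwin]
      exact Or.inr ⟨h1, h2⟩
    · exact Or.inl hwin

open Classical in
/-- the grouping function of an involution `ι` and a grouping `gn` of its fixed points -/
noncomputable def grpI (ι : Cyc k → Cyc k) (gn : Cyc k → Set (Cyc k)) (c : Cyc k) : Set (Cyc k) :=
  if ι c = c then gn c else {c, ι c}

theorem grpI_fix {ι : Cyc k → Cyc k} {gn : Cyc k → Set (Cyc k)} {c : Cyc k} (h : ι c = c) :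
    grpI ι gn c = gn c := if_pos h

theorem grpI_mv {ι : Cyc k → Cyc k} {gn : Cyc k → Set (Cyc k)} {c : Cyc k} (h : ι c ≠ c) :
    grpI ι gn c = {c, ι c} := if_neg h

/-- `grpI` is a grouping function of `N` -/
theorem grpI_ok {ι : Cyc k → Cyc k} {gn : Cyc k → Set (Cyc k)} (hι : ∀ c, ι (ι c) = c)
    (hN : ∀ c ∈ N, ι c ∈ N) (hg1 : ∀ c ∈ N, ι c = c → c ∈ gn c)
    (hg2 : ∀ c ∈ N, ι c = c → ∀ d ∈ gn c, d ∈ N ∧ ι d = d ∧ gn d = gn c) :
    (∀ c ∈ N, c ∈ grpI ι gn c) ∧ ∀ c ∈ N, ∀ d ∈ grpI ι gn c, d ∈ N ∧ grpI ι gn d = grpI ι gn c := by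
  constructor
  · intro c hc
    by_cases h : ι c = c
    · rw [grpI_fix h]; exact hg1 c hc h
    · rw [grpI_mv h]; exact Or.inl rfl
  · intro c hc d hd
    by_cases h : ι c = c
    · rw [grpI_fix h] at hd
      obtain ⟨h1, h2, h3⟩ := hg2 c hc h d hd
      exact ⟨h1, by rw [grpI_fix h, grpI_fix h2, h3]⟩
    · rw [grpI_mv h] at hd
      rcases hd with rfl | rfl
      · exact ⟨hc, rfl⟩
      · refine ⟨hN c hc, ?_⟩
        have h' : ι (ι c) ≠ ι c := by rw [hι]; exact fun e => h e.symm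
        rw [grpI_mv h, grpI_mv h', hι, Set.pair_comm]

end Pool.OddHC
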