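import Pool.Agent.Work.MP_8f87b2_h13.Fam
import Pool.Agent.Work.MP_8f87b2_cont.Cont

/-!
# Ends: every cycle of `T` contains a word `R[b]`, `b` the smallest part; inflation of frames

`pc b` = `b` nested pairs; `inf t = C(t, 0)` (bare inflation), `inf1 A` = the inflation of the inside of
a component `(A)`. `ins_app`: `C(AB, e f) = C(A, e) C(B, 0 f)`. `ins_hole`: `n` beads directly behind the
first letter of a component `(s)` of `B1 (s) B` give `inf B1 (()^n inf1 s) inf B`.
`exists_end`: every `z` with smallest part `b` has in its `T`-cycle a word `R[b]`.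
`exists_tall`: the first component of maximal height. `node_word`: the word `R[c]` of the node `(V; a, m)`,
`R = B1 (()^m (())^a s) B`.
-/

set_option autoImplicit false

namespace Pool.OddHC

open Finset BinaryTree Multiset

/-! ### Concatenation -/

theorem app_nil' (P : BinaryTree Unit) : app P .nil = P := by
  induction P with
  | nil => rfl
  | node _ A B _ ih => rw [app, ih]

theorem app_assoc' (P Q R : BinaryTree Unit) : app (app P Q) R = app P (app Q R) := by
  induction P with
  | nil => rfl
  | node _ A B _ ih => rw [app, app, app, ih]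

theorem lv_app (n : ℕ) (t : BinaryTree Unit) : lv n t = app (lv n .nil) t := by
  induction n with
  | zero => rfl
  | succ n ih =>
    rw [lv, lv, ih]
    rfl

theorem lv_add (n m : ℕ) (t : BinaryTree Unit) : lv (n + m) t = lv n (lv m t) := by
  induction n with
  | zero => rw [zero_add, lv]
  | succ n ih => rw [Nat.succ_add, lv, ih, lv]

theorem ins_lv (t : BinaryTree Unit) (n : ℕ) (e : List ℕ) :
    ins t (n :: e) = lv n (ins t (0 :: e)) := by
  induction n with
  | zero => rfl
  | succ n ih => rw [ins_succ, ih, lv]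

/-- `C(AB, e f) = C(A, e) C(B, 0 f)` -/
theorem ins_app (B : BinaryTree Unit) (f : List ℕ) : ∀ (A : BinaryTree Unit) (e : List ℕ),
    e.length = 2 * A.numNodes + 1 → ins (app A B) (e ++ f) = app (ins A e) (ins B (0 :: f)) := by
  intro A
  induction A with
  | nil =>
    intro e he
    obtain ⟨n, rfl⟩ : ∃ n, e = [n] := List.length_eq_one_iff.1 (by simpa using he)
    change ins B (n :: f) = app (lv n .nil) (ins B (0 :: f))
    rw [← lv_app, ins_lv]
  | node _ A₁ A₂ ih1 ih2 =>
    intro e he
    obtain ⟨n, a, c, h1, h2, h3, h4, h5⟩ := split_e he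
    have e0 : ins (app (A₁ △ A₂) B) (e ++ f) = lv n (ins A₁ (bump A₁ a) △ ins (app A₂ B) (c ++ f)) := by
      change ins (A₁ △ app A₂ B) (e ++ f) = _
      rw [ins, h1]
      have g1 : (n :: (a ++ c) ++ f).headD 0 = n := rfl
      have g2 : (n :: (a ++ c) ++ f).tail.take (2 * A₁.numNodes + 1) = a := by
        change (a ++ c ++ f).take _ = a
        rw [List.append_assoc]
        exact List.take_left' h2
      have g3 : (n :: (a ++ c) ++ f).drop (2 * A₁.numNodes + 2) = c ++ f := by
        change (a ++ c ++ f).drop (2 * A₁.numNodes + 1) = _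
        rw [List.append_assoc]
        exact List.drop_left' h2
      rw [g1, g2, g3]
    have e1 : (BinaryTree.node () A₁ A₂) = A₁ △ A₂ := rfl
    rw [e1, e0, ih2 c h3, ins, h4, h5, h1, List.headD_cons, lv_app n, lv_app n (_ △ ins A₂ c),
      app_assoc']
    rfl

/-! ### Bare inflation -/

/-- `C(t, 0)` -/
def inf (t : BinaryTree Unit) : BinaryTree Unit := ins t (List.replicate (2 * t.numNodes + 1) 0)

/-- inflation of the inside of a component -/
def inf1 : BinaryTree Unit → BinaryTree Unit
  | .nil => .nil △ .nil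
  | .node _ A B => inf (A △ B)

theorem inf_nil : inf .nil = .nil := rfl

theorem inf1_eq {A : BinaryTree Unit} (h : A ≠ .nil) : inf1 A = inf A := by
  cases A with
  | nil => exact absurd rfl h
  | node _ A B => rfl

/-- `C(A, n 0 … 0)` in a component -/
theorem ins_bump (A : BinaryTree Unit) (n : ℕ) :
    ins A (bump A (n :: List.replicate (2 * A.numNodes) 0)) = lv n (inf1 A) := by
  cases A with
  | nil =>
    change lv (n + 1) .nil = lv n (.nil △ .nil)
    rw [lv_add]
    rfl
  | node _ A B =>
    change ins (A △ B) (n :: List.replicate (2 * (A △ B).numNodes) 0) = lv n (inf (A △ B))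
    rw [ins_lv]
    rfl

theorem inf_node (A B : BinaryTree Unit) : inf (A △ B) = inf1 A △ inf B := by
  have e1 : (A △ B).numNodes = A.numNodes + B.numNodes + 1 := rfl
  have hlen : (List.replicate (2 * (A △ B).numNodes + 1) 0).length =
      2 * (A △ B).numNodes + 1 := List.length_replicate
  have e2 : List.replicate (2 * (A △ B).numNodes + 1) 0 =
      0 :: (List.replicate (2 * A.numNodes + 1) 0 ++ List.replicate (2 * B.numNodes + 1) 0) := by
    rw [List.replicate_append_replicate, e1, ← List.replicate_succ]
    congr 1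
    ring
  unfold inf
  rw [ins, e2, List.headD_cons, List.tail_cons, List.take_left' List.length_replicate]
  have e3 : List.drop (2 * A.numNodes + 2) (0 :: (List.replicate (2 * A.numNodes + 1) 0 ++
      List.replicate (2 * B.numNodes + 1) 0)) = List.replicate (2 * B.numNodes + 1) 0 := by
    rw [List.drop_succ_cons, List.drop_left' List.length_replicate]
  rw [e3]
  have e4 := ins_bump A 0
  rw [lv] at e4
  rw [List.replicate_succ (n := 2 * A.numNodes), e4, lv]

theorem inf_app (A B : BinaryTree Unit) : inf (app A B) = app (inf A) (inf B) := by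
  induction A with
  | nil => rfl
  | node _ A₁ A₂ _ ih =>
    change inf (A₁ △ app A₂ B) = app (inf (A₁ △ A₂)) (inf B)
    rw [inf_node, inf_node, ih]
    rfl

/-- `n` beads directly behind the first letter of the component `(s)` -/
def holeL (B1 s B : BinaryTree Unit) (n : ℕ) : List ℕ :=
  List.replicate (2 * B1.numNodes + 1) 0 ++
    (n :: (List.replicate (2 * s.numNodes) 0 ++ List.replicate (2 * B.numNodes + 1) 0))

theorem holeL_length (B1 s B : BinaryTree Unit) (n : ℕ) :
    (holeL B1 s B n).length = 2 * (app B1 (s △ B)).numNodes + 1 := by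
  rw [num_app]
  change _ = 2 * (B1.numNodes + (s.numNodes + B.numNodes + 1)) + 1
  unfold holeL
  rw [List.length_append, List.length_cons, List.length_append, List.length_replicate,
    List.length_replicate, List.length_replicate]
  ring

theorem holeL_sum (B1 s B : BinaryTree Unit) (n : ℕ) : (holeL B1 s B n).sum = n := by
  unfold holeL
  rw [List.sum_append, List.sum_cons, List.sum_append, List.sum_replicate, List.sum_replicate,
    List.sum_replicate]
  simp

theorem ins_hole (B1 s B : BinaryTree Unit) (n : ℕ) :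
    ins (app B1 (s △ B)) (holeL B1 s B n) = app (inf B1) (lv n (inf1 s) △ inf B) := by
  unfold holeL
  rw [ins_app _ _ _ _ List.length_replicate]
  congr 1
  rw [ins, List.headD_cons, List.tail_cons]
  have e1 : n :: (List.replicate (2 * s.numNodes) 0 ++ List.replicate (2 * B.numNodes + 1) 0) =
      (n :: List.replicate (2 * s.numNodes) 0) ++ List.replicate (2 * B.numNodes + 1) 0 := rfl
  have hl : (n :: List.replicate (2 * s.numNodes) 0).length = 2 * s.numNodes + 1 := by
    rw [List.length_cons, List.length_replicate]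
  rw [List.drop_succ_cons, e1, List.take_left' hl, List.drop_left' hl, ins_bump, lv]
  rfl

/-- general extras: the last component is nested and bare -/
theorem inf_ne_nil {t : BinaryTree Unit} (h : t ≠ .nil) : inf t ≠ .nil := by
  cases t with
  | nil => exact absurd rfl h
  | node _ A B =>
    have := inf_node A B
    intro h1
    rw [show (BinaryTree.node () A B) = A △ B from rfl, this] at h1
    simp at h1

theorem inf1_ne_nil (t : BinaryTree Unit) : inf1 t ≠ .nil := by
  cases t with
  | nil => simp [inf1]
  | node _ A B => exact inf_ne_nil (by simp)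

/-! ### Nested pairs -/

/-- `[b]`: `b` nested pairs -/
def pc : ℕ → BinaryTree Unit
  | 0 => .nil
  | b + 1 => pc b △ .nil

theorem pc_num (b : ℕ) : (pc b).numNodes = b := by
  induction b with
  | zero => rfl
  | succ b ih =>
    change (pc b).numNodes + 0 + 1 = b + 1
    rw [ih]

theorem cont_pc : ∀ b : ℕ, cont (pc (b + 1)) = {b + 1} := by
  intro b
  induction b with
  | zero =>
    rw [pc, cont_node, pc, cont_nil, raise_zero]
    rfl
  | succ b ih =>
    rw [pc, cont_node, ih, cont_nil, add_zero]
    unfold raise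
    rw [Multiset.sup_singleton, Multiset.erase_singleton]
    rfl

theorem ht_pc (b : ℕ) : ht (pc b) = b := by
  induction b with
  | zero => rfl
  | succ b ih => rw [pc, ht, ih, ht]; simp

theorem inf1_pc (b : ℕ) : inf1 (pc b) = pc (b + 1) := by
  induction b with
  | zero => rfl
  | succ b ih =>
    change inf (pc b △ .nil) = _
    rw [inf_node, ih]
    rfl

theorem inf_pc {b : ℕ} (h : 1 ≤ b) : inf (pc b) = pc (b + 1) := by
  obtain ⟨c, rfl⟩ : ∃ c, b = c + 1 := ⟨b - 1, by omega⟩
  exact inf1_pc (c + 1)

/-! ### Heights -/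

theorem ht_lv (n : ℕ) {t : BinaryTree Unit} (h : t ≠ .nil) : ht (lv n t) = ht t := by
  induction n with
  | zero => rfl
  | succ n ih =>
    rw [lv, ht, ih]
    have := ht_pos h
    change max (ht .nil + 1) (ht t) = ht t
    rw [ht]
    omega

theorem cont_inf (t : BinaryTree Unit) : cont (inf t) = (cont t).map (· + 1) := by
  unfold inf
  rw [cont_ins t _ List.length_replicate, List.sum_replicate]
  simp

theorem ht_inf {t : BinaryTree Unit} (h : t ≠ .nil) : ht (inf t) = ht t + 1 := by
  induction t with
  | nil => exact absurd rfl h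
  | node _ A B ihA ihB =>
    change ht (inf (A △ B)) = ht (A △ B) + 1
    have h1 : ht (inf1 A) = ht A + 1 := by
      cases A with
      | nil => rfl
      | node _ _ _ => exact ihA (by simp)
    rw [inf_node, ht_node, ht_node, h1]
    cases B with
    | nil => rw [inf_nil, ht]; omega
    | node _ _ _ => rw [ihB (by simp)]; omega

theorem ht_inf1 (t : BinaryTree Unit) : ht (inf1 t) = ht t + 1 := by
  cases t with
  | nil => rfl
  | node _ _ _ => exact ht_inf (by simp)

theorem ht_inf_le (t : BinaryTree Unit) : ht (inf t) ≤ ht t + 1 := by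
  cases t with
  | nil => rw [inf_nil]; exact Nat.zero_le _
  | node _ _ _ => rw [ht_inf (by simp)]

/-- the first component of maximal height -/
theorem exists_tall {t : BinaryTree Unit} (h : t ≠ .nil) :
    ∃ B1 s B : BinaryTree Unit, t = app B1 (s △ B) ∧ ht s + 1 = ht t ∧ ht B1 < ht t := by
  induction t with
  | nil => exact absurd rfl h
  | node _ A B _ ihB =>
    by_cases h1 : ht B ≤ ht A + 1
    · refine ⟨.nil, A, B, rfl, ?_, ?_⟩
      · change ht A + 1 = ht (A △ B)
        rw [ht_node]
        omega
      · change ht .nil < ht (A △ B)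
        rw [ht_node, ht]
        omega
    · have hB : B ≠ .nil := by
        rintro rfl
        rw [ht] at h1
        omega
      obtain ⟨B1, s, B', h2, h3, h4⟩ := ihB hB
      refine ⟨A △ B1, s, B', by rw [h2]; rfl, ?_, ?_⟩
      · change ht s + 1 = ht (A △ B)
        rw [ht_node]
        omega
      · change ht (A △ B1) < ht (A △ B)
        rw [ht_node, ht_node]
        omega

/-! ### The end of a word in a cycle -/

variable {j k : ℕ}

theorem lf_zero (n : ℕ) : lf (fun _ : ZMod n => 0) = List.replicate n 0 := by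
  unfold lf
  rw [List.map_const', List.length_range]

/-- the bare inflation of a cycle -/
theorem same_inf {u u' : X j} (hs : (TT : Equiv.Perm (X j)).SameCycle u u') {z w : X k}
    (hz : z.1 = inf u.1) (hw : w.1 = inf u'.1) : (TT : Equiv.Perm (X k)).SameCycle z w := by
  obtain ⟨i, hi⟩ := sameCycle_nat hs
  have hk : j + pkn u.1 = k := by
    have h1 := (ins_num u.1 (List.replicate (2 * u.1.numNodes + 1) 0) List.length_replicate).1
    rw [List.sum_replicate, X_num, smul_zero, add_zero] at h1
    have h2 := X_num z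
    rw [hz] at h2
    unfold inf at h2
    rw [X_num] at h2
    omega
  have h0 : j + pkn u.1 + ∑ _x : ZMod (2 * j + 1), 0 = k := by
    rw [Finset.sum_const_zero, add_zero, hk]
  have hz' : z = phi u (fun _ => 0) h0 := by
    apply Subtype.ext
    rw [hz]
    change inf u.1 = ins u.1 (lf _)
    rw [lf_zero]
    unfold inf
    rw [X_num]
  refine ⟨(i : ℤ), ?_⟩
  rw [zpow_natCast, hz', pow_phi]
  apply Subtype.ext
  rw [hw]
  change ins ((TT ^ i) u).1 (lf _) = inf u'.1
  rw [hi, lf_zero]
  unfold inf
  rw [X_num]

/-- **every cycle of `T` has a word `R[b]`, `b` its smallest part** -/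
theorem exists_end : ∀ (b : ℕ) {k : ℕ} (z : X k), b + 1 ∈ cont z.1 →
    (∀ x ∈ cont z.1, b + 1 ≤ x) →
    ∃ (w : X k) (R : BinaryTree Unit), (TT : Equiv.Perm (X k)).SameCycle z w ∧
      w.1 = app R (pc (b + 1)) := by
  intro b
  induction b with
  | zero =>
    intro k z h1 _
    obtain ⟨j, u, e, he, hw, _, _⟩ := red_ex z
    have hs : 1 ≤ e.sum := by
      rw [← count_one_ins u.1 e (by rw [X_num]; exact he), ← hw]
      exact Multiset.count_pos.2 h1
    rcases Nat.eq_zero_or_pos j with rfl | hj
    · have hu : u.1 = .nil := by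
        have := X_num u
        cases h : u.1 with
        | nil => rfl
        | node _ A B =>
          rw [h] at this
          change A.numNodes + B.numNodes + 1 = 0 at this
          omega
      obtain ⟨n, rfl⟩ : ∃ n, e = [n] := List.length_eq_one_iff.1 (by simpa using he)
      rw [hu] at hw
      obtain ⟨n, rfl⟩ : ∃ n', n = n' + 1 := ⟨n - 1, by simp at hs; omega⟩
      refine ⟨z, lv n .nil, Equiv.Perm.SameCycle.refl _ _, ?_⟩
      rw [hw]
      change lv (n + 1) .nil = app (lv n .nil) (.nil △ .nil)
      rw [lv_add, lv_app n]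
      rfl
    · obtain ⟨a, rfl⟩ := exists_lf he
      rw [lf_sum] at hs
      obtain ⟨y, hy⟩ : ∃ y, 1 ≤ a y := by
        by_contra hcon
        push Not at hcon
        have : ∑ x, a x = 0 := Finset.sum_eq_zero fun x _ => by have := hcon x; omega
        omega
      obtain ⟨i, hi⟩ := exists_sp hj u (y + 1)
      have h0 : j + pkn u.1 + ∑ x, a x = k := by
        have h2 := (ins_num u.1 (lf a) (by rw [X_num]; exact he)).1
        rw [← hw, X_num, X_num, lf_sum] at h2
        exact h2.symm
      have hz : z = phi u a h0 := Subtype.ext hw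
      let f : ZMod (2 * j + 1) → ℕ := fun x => a (x + sp u i) - if x = -1 then 1 else 0
      refine ⟨(TT ^ i) z, ins ((TT ^ i) u).1 (lf f), ⟨(i : ℤ), by rw [zpow_natCast]⟩, ?_⟩
      rw [hz, pow_phi]
      change ins ((TT ^ i) u).1 (lf _) = _
      change _ = app (ins ((TT ^ i) u).1 (lf f)) (.nil △ .nil)
      rw [← ins_back]
      congr 2
      funext x
      simp only [f]
      by_cases hx : x = -1
      · subst hx
        rw [if_pos rfl, hi]
        have : (-1 : ZMod (2 * j + 1)) + (y + 1) = y := by ring
        rw [this]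
        omega
      · rw [if_neg hx]
        rfl
  | succ b ih =>
    intro k z h1 h2
    obtain ⟨j, u, e, he, hw, _, _⟩ := red_ex z
    have he' : e.length = 2 * u.1.numNodes + 1 := by rw [X_num]; exact he
    have hs : e.sum = 0 := by
      rw [← count_one_ins u.1 e he', ← hw, Multiset.count_eq_zero]
      intro h
      have := h2 1 h
      omega
    have he0 : e = List.replicate (2 * u.1.numNodes + 1) 0 := by
      rw [List.eq_replicate_iff]
      refine ⟨he', fun x hx => ?_⟩
      have := List.single_le_sum (by simp) x hx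
      omega
    have hz : z.1 = inf u.1 := by rw [hw, he0]; rfl
    have hc : cont z.1 = (cont u.1).map (· + 1) := by rw [hz, cont_inf]
    obtain ⟨w', R', hs', hw'⟩ := ih u (by
        rw [hc, Multiset.mem_map] at h1
        obtain ⟨x, hx, hx1⟩ := h1
        rwa [show x = b + 1 by omega] at hx)
      (by
        intro x hx
        have := h2 (x + 1) (by rw [hc]; exact Multiset.mem_map_of_mem _ hx)
        omega)
    have hnum : (inf w'.1).numNodes = k := by
      have g1 := cont_same hs'
      have g2 := cont_sum (inf w'.1)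
      rw [cont_inf, ← g1, ← hc, cont_sum, X_num] at g2
      exact g2.symm
    refine ⟨⟨inf w'.1, mem_treesOfNumNodesEq.2 hnum⟩, inf R', same_inf hs' hz rfl, ?_⟩
    change inf w'.1 = _
    rw [hw', inf_app, inf_pc (by omega)]

/-! ### The word of a node -/

/-- `a` components `(())` in front -/
def lv2 : ℕ → BinaryTree Unit → BinaryTree Unit
  | 0, t => t
  | n + 1, t => (.nil △ .nil) △ lv2 n t

theorem inf_lv (n : ℕ) (t : BinaryTree Unit) : inf (lv n t) = lv2 n (inf t) := by
  induction n with
  | zero => rfl
  | succ n ih => rw [lv, inf_node, ih, lv2]; rfl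

theorem lv_ne_nil {n : ℕ} {t : BinaryTree Unit} (h : t ≠ .nil) : lv n t ≠ .nil := by
  cases n with
  | zero => exact h
  | succ n => rw [lv]; simp

theorem cont_lv2 (n : ℕ) (t : BinaryTree Unit) : cont (lv2 n t) = replicate n 2 + cont t := by
  induction n with
  | zero => rw [lv2, replicate_zero, zero_add]
  | succ n ih =>
    rw [lv2, cont_node, ih, cont_node, cont_nil, raise_zero, add_zero,
      Multiset.replicate_succ, ← Multiset.singleton_add, add_assoc]
    rfl

theorem inf1_inf1 (s : BinaryTree Unit) : inf (inf1 s) = inf1 (inf1 s) :=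
  (inf1_eq (inf1_ne_nil s)).symm

/-- `R0 = B1 (s) B` with `(s)` the first component of maximal height -/
structure Tall (R0 B1 s B : BinaryTree Unit) : Prop where
  eq : R0 = app B1 (s △ B)
  top : ht s + 1 = ht R0
  low : ht B1 < ht R0

theorem Tall.inf {R0 B1 s B : BinaryTree Unit} (h : Tall R0 B1 s B) :
    Tall (OddHC.inf R0) (OddHC.inf B1) (inf1 s) (OddHC.inf B) := by
  have h0 : R0 ≠ .nil := by
    rintro rfl
    have := h.top
    rw [ht] at this
    omega
  refine ⟨?_, ?_, ?_⟩
  · rw [h.eq, inf_app, inf_node]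
  · rw [ht_inf1, ht_inf h0, h.top]
  · rw [ht_inf h0]
    exact (ht_inf_le B1).trans_lt (by have := h.low; omega)

/-- **the word of the node `(V; a, m)`**, `z` any word of `V`: `V` has at least two parts, the smallest
is `c + 1`. The word `R[c + 3]`, `R = B1 (()^m (())^a s) B`, lies over `V` with `a` beads, then `m` beads. -/
theorem node_word {j2 j1 k : ℕ} (z : X j2) {c a m : ℕ} (hc : c + 1 ∈ cont z.1)
    (hmin : ∀ x ∈ cont z.1, c + 1 ≤ x) (h2 : 2 ≤ pkn z.1) (e1 : j2 + pkn z.1 + a = j1)
    (e0 : j1 + (pkn z.1 + a) + m = k) :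
    ∃ (R0 B1 s B : BinaryTree Unit) (w2 : X j2) (w1 : X j1) (w : X k) (f e : List ℕ),
      Tall R0 B1 s B ∧
      cont R0 = ((cont z.1).erase (c + 1)).map (· + 2) ∧
      (TT : Equiv.Perm (X j2)).SameCycle z w2 ∧
      f.length = 2 * j2 + 1 ∧ f.sum = a ∧ w1.1 = ins w2.1 f ∧
      e.length = 2 * j1 + 1 ∧ e.sum = m ∧ w.1 = ins w1.1 e ∧
      w.1 = app (app B1 (lv m (lv2 a s) △ B)) (pc (c + 3)) := by
  obtain ⟨w2, r, hs, hw⟩ := exists_end c z hc hmin
  have hcr : cont r = (cont z.1).erase (c + 1) := by
    rw [cont_same hs, hw, cont_app, cont_pc, add_comm, Multiset.singleton_add,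
      Multiset.erase_cons_head]
  have hr : r ≠ .nil := by
    rintro rfl
    have h3 := congrArg Multiset.card hcr
    rw [cont_nil, Multiset.card_zero, Multiset.card_erase_of_mem hc, cont_card] at h3
    change 0 = pkn z.1 - 1 at h3
    omega
  obtain ⟨C1, t, C, h3, h4, h5⟩ := exists_tall hr
  have hw' : w2.1 = app C1 (t △ app C (pc (c + 1))) := by
    rw [hw, h3, app_assoc']
    rfl
  have hp2 : pkn w2.1 = pkn z.1 := by rw [← cont_card, ← cont_same hs, cont_card]
  obtain ⟨f, hf⟩ : ∃ f, f = holeL C1 t (app C (pc (c + 1))) a := ⟨_, rfl⟩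
  have hf1 : f.length = 2 * w2.1.numNodes + 1 := by rw [hf, holeL_length, ← hw']
  have hf2 : f.sum = a := by rw [hf, holeL_sum]
  have g1 := ins_num w2.1 f hf1
  rw [hf2, X_num, hp2] at g1
  obtain ⟨w1, hw1⟩ : ∃ w1 : X j1, w1.1 = ins w2.1 f :=
    ⟨⟨_, mem_treesOfNumNodesEq.2 (g1.1.trans e1)⟩, rfl⟩
  have hw1' : w1.1 = app (inf C1) (lv a (inf1 t) △ app (inf C) (pc (c + 2))) := by
    rw [hw1, hf, hw', ins_hole, inf_app, inf_pc (by omega)]
  obtain ⟨e, he⟩ : ∃ e, e = holeL (inf C1) (lv a (inf1 t)) (app (inf C) (pc (c + 2))) m := ⟨_, rfl⟩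
  have he1 : e.length = 2 * w1.1.numNodes + 1 := by rw [he, holeL_length, ← hw1']
  have he2 : e.sum = m := by rw [he, holeL_sum]
  have g2 := ins_num w1.1 e he1
  rw [he2, X_num] at g2
  have g3 : pkn w1.1 = pkn z.1 + a := by rw [hw1]; exact g1.2
  rw [g3] at g2
  obtain ⟨w, hw0⟩ : ∃ w : X k, w.1 = ins w1.1 e :=
    ⟨⟨_, mem_treesOfNumNodesEq.2 (g2.1.trans e0)⟩, rfl⟩
  have hT : Tall r C1 t C := ⟨h3, h4, h5⟩
  refine ⟨inf (inf r), inf (inf C1), inf1 (inf1 t), inf (inf C), w2, w1, w, f, e, hT.inf.inf, ?_,
    hs, by rw [hf1, X_num], hf2, hw1, by rw [he1, X_num], he2, hw0, ?_⟩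
  · rw [cont_inf, cont_inf, hcr, Multiset.map_map]
    rfl
  · rw [hw0, he, hw1', ins_hole, inf_app, inf_pc (by omega),
      inf1_eq (lv_ne_nil (inf1_ne_nil t)), inf_lv, inf1_inf1, app_assoc']
    rfl

end Pool.OddHC
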