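import Pool.Agent.Work.MP_8f87b2_end.End

/-!
# The word of a node with three light levels

`node_word3`: `z` in `W`, `t`, `a`, `m` beads: `B1 (()^m (())^a ((()))^t s) B [c + 4]`.
-/

set_option autoImplicit false

namespace Pool.OddHC

open Finset BinaryTree Multiset

/-- `a` components `((()))` in front -/
def lv3 : ℕ → BinaryTree Unit → BinaryTree Unit
  | 0, t => t
  | n + 1, t => ((.nil △ .nil) △ .nil) △ lv3 n t

theorem inf_lv2 (n : ℕ) (t : BinaryTree Unit) : inf (lv2 n t) = lv3 n (inf t) := by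
  induction n with
  | zero => rfl
  | succ n ih =>
    rw [lv2, inf_node, ih, lv3]
    rfl

theorem lv2_ne_nil {n : ℕ} {t : BinaryTree Unit} (h : t ≠ .nil) : lv2 n t ≠ .nil := by
  cases n with
  | zero => exact h
  | succ n => rw [lv2]; simp

theorem lv3_ne_nil {n : ℕ} {t : BinaryTree Unit} (h : t ≠ .nil) : lv3 n t ≠ .nil := by
  cases n with
  | zero => exact h
  | succ n => rw [lv3]; simp

theorem cont_lv3 (n : ℕ) (t : BinaryTree Unit) : cont (lv3 n t) = replicate n 3 + cont t := by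
  induction n with
  | zero => rw [lv3, replicate_zero, zero_add]
  | succ n ih =>
    have h3 : raise (cont ((.nil △ .nil) △ .nil)) = {3} := by
      have h1 : cont (((.nil △ .nil) △ .nil : BinaryTree Unit)) = {2} := cont_pc 1
      rw [h1]
      unfold raise
      rw [Multiset.sup_singleton, Multiset.erase_singleton]
      rfl
    rw [lv3, cont_node, ih, h3, Multiset.replicate_succ, ← Multiset.singleton_add, add_assoc]

theorem ht_lv2 (n : ℕ) {t : BinaryTree Unit} (h : 2 ≤ ht t) : ht (lv2 n t) = ht t := by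
  induction n with
  | zero => rfl
  | succ n ih =>
    rw [lv2]
    change max (ht (.nil △ .nil) + 1) (ht (lv2 n t)) = ht t
    rw [ih]
    have : ht (.nil △ .nil) = 1 := rfl
    omega

theorem ht_lv3 (n : ℕ) {t : BinaryTree Unit} (h : 3 ≤ ht t) : ht (lv3 n t) = ht t := by
  induction n with
  | zero => rfl
  | succ n ih =>
    rw [lv3]
    change max (ht ((.nil △ .nil) △ .nil) + 1) (ht (lv3 n t)) = ht t
    rw [ih]
    have : ht ((.nil △ .nil) △ .nil) = 2 := rfl
    omega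

/-- **the word of the node `(W; t, a, m)`**, `z` any word of `W`: `W` has at least two parts, the smallest
is `c + 1`. The word `R[c + 4]`, `R = B1 (()^m (())^a ((()))^t s) B`, lies over `W` with `t`, `a`, `m` beads. -/
theorem node_word3 {j3 j2 j1 k : ℕ} (z : X j3) {c t a m : ℕ} (hc : c + 1 ∈ cont z.1)
    (hmin : ∀ x ∈ cont z.1, c + 1 ≤ x) (h2 : 2 ≤ pkn z.1) (e2 : j3 + pkn z.1 + t = j2)
    (e1 : j2 + (pkn z.1 + t) + a = j1) (e0 : j1 + (pkn z.1 + t + a) + m = k) :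
    ∃ (R0 B1 s B : BinaryTree Unit) (w3 : X j3) (w2 : X j2) (w1 : X j1) (w : X k)
      (g f e : List ℕ), Tall R0 B1 s B ∧
      cont R0 = ((cont z.1).erase (c + 1)).map (· + 3) ∧
      (TT : Equiv.Perm (X j3)).SameCycle z w3 ∧
      g.length = 2 * j3 + 1 ∧ g.sum = t ∧ w2.1 = ins w3.1 g ∧
      f.length = 2 * j2 + 1 ∧ f.sum = a ∧ w1.1 = ins w2.1 f ∧
      e.length = 2 * j1 + 1 ∧ e.sum = m ∧ w.1 = ins w1.1 e ∧
      w.1 = app (app B1 (lv m (lv2 a (lv3 t s)) △ B)) (pc (c + 4)) := by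
  obtain ⟨w3, r, hs, hw⟩ := exists_end c z hc hmin
  have hcr : cont r = (cont z.1).erase (c + 1) := by
    rw [cont_same hs, hw, cont_app, cont_pc, add_comm, Multiset.singleton_add,
      Multiset.erase_cons_head]
  have hr : r ≠ .nil := by
    rintro rfl
    have h3 := congrArg Multiset.card hcr
    rw [cont_nil, Multiset.card_zero, Multiset.card_erase_of_mem hc, cont_card] at h3
    change 0 = pkn z.1 - 1 at h3
    omega
  obtain ⟨C1, s0, C, h3, h4, h5⟩ := exists_tall hr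
  have hw' : w3.1 = app C1 (s0 △ app C (pc (c + 1))) := by
    rw [hw, h3, app_assoc']
    rfl
  have hp3 : pkn w3.1 = pkn z.1 := by rw [← cont_card, ← cont_same hs, cont_card]
  -- first inflation
  obtain ⟨g, hg⟩ : ∃ g, g = holeL C1 s0 (app C (pc (c + 1))) t := ⟨_, rfl⟩
  have hg1 : g.length = 2 * w3.1.numNodes + 1 := by rw [hg, holeL_length, ← hw']
  have hg2 : g.sum = t := by rw [hg, holeL_sum]
  have n3 := ins_num w3.1 g hg1
  rw [hg2, X_num, hp3] at n3
  obtain ⟨w2, hw2⟩ : ∃ w2 : X j2, w2.1 = ins w3.1 g :=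
    ⟨⟨_, mem_treesOfNumNodesEq.2 (n3.1.trans e2)⟩, rfl⟩
  have hw2' : w2.1 = app (inf C1) (lv t (inf1 s0) △ app (inf C) (pc (c + 2))) := by
    rw [hw2, hg, hw', ins_hole, inf_app, inf_pc (by omega)]
  -- second inflation
  obtain ⟨f, hf⟩ : ∃ f, f = holeL (inf C1) (lv t (inf1 s0)) (app (inf C) (pc (c + 2))) a := ⟨_, rfl⟩
  have hf1 : f.length = 2 * w2.1.numNodes + 1 := by rw [hf, holeL_length, ← hw2']
  have hf2 : f.sum = a := by rw [hf, holeL_sum]
  have n2 := ins_num w2.1 f hf1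
  have p2 : pkn w2.1 = pkn z.1 + t := by rw [hw2]; exact n3.2
  rw [hf2, X_num, p2] at n2
  obtain ⟨w1, hw1⟩ : ∃ w1 : X j1, w1.1 = ins w2.1 f :=
    ⟨⟨_, mem_treesOfNumNodesEq.2 (n2.1.trans e1)⟩, rfl⟩
  have hw1' : w1.1 = app (inf (inf C1)) (lv a (lv2 t (inf1 (inf1 s0))) △
      app (inf (inf C)) (pc (c + 3))) := by
    rw [hw1, hf, hw2', ins_hole, inf_app, inf_pc (by omega),
      inf1_eq (lv_ne_nil (inf1_ne_nil s0)), inf_lv, inf1_inf1]
  -- third inflation
  obtain ⟨e, he⟩ : ∃ e, e = holeL (inf (inf C1)) (lv a (lv2 t (inf1 (inf1 s0))))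
    (app (inf (inf C)) (pc (c + 3))) m := ⟨_, rfl⟩
  have he1 : e.length = 2 * w1.1.numNodes + 1 := by rw [he, holeL_length, ← hw1']
  have he2 : e.sum = m := by rw [he, holeL_sum]
  have n1 := ins_num w1.1 e he1
  have p1 : pkn w1.1 = pkn z.1 + t + a := by rw [hw1]; exact n2.2
  rw [he2, X_num, p1] at n1
  obtain ⟨w, hw0⟩ : ∃ w : X k, w.1 = ins w1.1 e :=
    ⟨⟨_, mem_treesOfNumNodesEq.2 (n1.1.trans e0)⟩, rfl⟩
  have hT : Tall r C1 s0 C := ⟨h3, h4, h5⟩
  refine ⟨inf (inf (inf r)), inf (inf (inf C1)), inf1 (inf1 (inf1 s0)), inf (inf (inf C)), w3, w2,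
    w1, w, g, f, e, hT.inf.inf.inf, ?_, hs, by rw [hg1, X_num], hg2, hw2, by rw [hf1, X_num], hf2,
    hw1, by rw [he1, X_num], he2, hw0, ?_⟩
  · rw [cont_inf, cont_inf, cont_inf, hcr, Multiset.map_map, Multiset.map_map]
    rfl
  · have hne : lv a (lv2 t (inf1 (inf1 s0))) ≠ .nil := lv_ne_nil (lv2_ne_nil (inf1_ne_nil _))
    rw [hw0, he, hw1', ins_hole, inf_app, inf_pc (by omega), inf1_eq hne, inf_lv, inf_lv2,
      inf1_inf1, app_assoc']
    rfl

end Pool.OddHC
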