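import Pool.Agent.Work.MP_8f87b2_end.Mid2
import Pool.Agent.Work.MP_8f87b2_h3.Ends2

/-!
# Removal sets given by words

`remOK_one`: one prescribed leftover, `remOK_py`: pile and near pile (even family), `remOK_ypy`: pile and both near piles
(odd family), `remOK_cls`: any removal set from the classes. All by words over a fixed `u : X j`.
-/

set_option autoImplicit false

namespace Pool.OddHC

open Finset BinaryTree Multiset Pool.OddHop

variable {i j k m : ℕ}

/-- parity of the classes -/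
theorem quot_odd (j m : ℕ) {g : ℕ} (hg : g ∣ 2 * j + 1) :
    Odd (Nat.card (Quotient (msSetoid m hg))) ↔ oddF j m := by
  unfold oddF
  rw [Nat.odd_iff, Nat.odd_iff, card_classes_mod_two ⟨j, rfl⟩ hg]

/-- a word with the beads `a` -/
theorem word_phi {u : X j} {w : X k} {a : ZMod (2 * j + 1) → ℕ} (hw : w.1 = ins u.1 (lf a)) :
    j + pkn u.1 + ∑ z, a z = k := by
  have h1 := (ins_num u.1 (lf a) (by rw [lf_length, X_num])).1
  rw [← hw, X_num, X_num, lf_sum] at h1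
  exact h1.symm

/-- the leftover is a given word -/
theorem remOK_one {u : X j} {w : X k} {e : List ℕ} (he : e.length = 2 * j + 1)
    (hw : w.1 = ins u.1 e) (hod : oddF j e.sum) (h2 : e.sum = 2 → IsTwo (cyc w)) :
    RemOK ⟨j, cyc u⟩ {cyc w} := by
  have hc : (contc (cyc w)).count 1 = e.sum := by
    rw [contc_cyc, hw, count_one_ins _ _ (by rw [he, X_num])]
  refine (remOK_lo ⟨j, cyc u⟩ (cyc w) (Rd_ins he hw) (fun h _ => h2 (by rw [← hc, h]))).congr ?_
  intro p _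
  rw [hc]
  exact ⟨fun h => h.1, fun h => ⟨h, hod⟩⟩

/-- removal sets from the classes of the beads -/
theorem remOK_cls (hj : 1 ≤ j) (u : X j) (m : ℕ) (hk : j + pkn u.1 + m = k)
    (D' : Ms (2 * j + 1) m → Prop) (D : Set (Cyc k))
    (hD : ∀ a : Ms (2 * j + 1) m, D' a → ∃ w : X k, w.1 = ins u.1 (lf a.1) ∧ cyc w ∈ D)
    (hD2 : ∀ p ∈ D, ∃ (w : X k) (a : Ms (2 * j + 1) m), D' a ∧ w.1 = ins u.1 (lf a.1) ∧ cyc w = p)
    (H : ∀ (g : ℕ) (hg : g ∣ 2 * j + 1), ∃ ι : Quotient (msSetoid m hg) → Quotient (msSetoid m hg),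
      (∀ q, ι (ι q) = q) ∧ (∀ q, ι q = q ∨ HopQ hg q (ι q)) ∧
      ∀ q, ι q = q ↔ ∃ a, D' a ∧ q = Quotient.mk (msSetoid m hg) a) :
    RemOK ⟨j, cyc u⟩ D := by
  refine (RemOK.of_classes hj u m hk D' H).congr fun p _ => ?_
  constructor
  · rintro ⟨a, ha, rfl⟩
    obtain ⟨w, hw, hwD⟩ := hD a ha
    have e : phi u a.1 (by rw [a.2]; exact hk) = w := Subtype.ext hw.symm
    rw [e]
    exact hwD
  · intro hp
    obtain ⟨w, a, ha, hw, hwp⟩ := hD2 p hp
    refine ⟨a, ha, ?_⟩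
    rw [← hwp]
    congr 1
    exact Subtype.ext hw

/-- pile and near pile, even family -/
theorem remOK_py (hj : 1 ≤ j) {u : X j} (hm : 3 ≤ m) {x y : ZMod (2 * j + 1)}
    (hy : y = x + 1 ∨ y = x - 1) {p q : X k}
    (hp : p.1 = ins u.1 (lf fun z => if z = x then m else 0))
    (hq : q.1 = ins u.1 (lf fun z => (if z = x then m - 1 else 0) + if z = y then 1 else 0))
    (hev : ¬ oddF j m) : RemOK ⟨j, cyc u⟩ {cyc p, cyc q} := by
  have hk : j + pkn u.1 + m = k := by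
    have h0 := word_phi hp
    have h1 : ∑ z : ZMod (2 * j + 1), (if z = x then m else 0) = m := (pileMs m x).2
    rwa [h1] at h0
  refine remOK_cls hj u m hk (fun a => a = pileMs m x ∨ a = nearMs (by omega) x y) _ ?_ ?_ ?_
  · rintro a (rfl | rfl)
    · exact ⟨p, hp, Or.inl rfl⟩
    · exact ⟨q, hq, Or.inr rfl⟩
  · rintro r (rfl | rfl)
    · exact ⟨p, pileMs m x, Or.inl rfl, hp, rfl⟩
    · exact ⟨q, nearMs (by omega) x y, Or.inr rfl, hq, rfl⟩
  · intro g hg
    obtain ⟨ι, h1, h2, h3⟩ := near_py (n := 2 * j + 1) (m := m) ⟨j, rfl⟩ (by omega) hg hm x y hy (by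
      rw [← Nat.not_odd_iff_even, quot_odd]
      exact hev)
    refine ⟨ι, h1, h2, fun q => ?_⟩
    rw [h3]
    constructor
    · rintro (h | h)
      · exact ⟨_, Or.inl rfl, h⟩
      · exact ⟨_, Or.inr rfl, h⟩
    · rintro ⟨a, rfl | rfl, h⟩
      · exact Or.inl h
      · exact Or.inr h

/-- pile and both near piles, odd family -/
theorem remOK_ypy (hj : 1 ≤ j) {u : X j} (hm : 3 ≤ m) {x : ZMod (2 * j + 1)} {p q q' : X k}
    (hp : p.1 = ins u.1 (lf fun z => if z = x then m else 0))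
    (hq : q.1 = ins u.1 (lf fun z => (if z = x then m - 1 else 0) + if z = x + 1 then 1 else 0))
    (hq' : q'.1 = ins u.1 (lf fun z => (if z = x then m - 1 else 0) + if z = x - 1 then 1 else 0))
    (hod : oddF j m) : RemOK ⟨j, cyc u⟩ {cyc p, cyc q, cyc q'} := by
  have hk : j + pkn u.1 + m = k := by
    have h0 := word_phi hp
    have h1 : ∑ z : ZMod (2 * j + 1), (if z = x then m else 0) = m := (pileMs m x).2
    rwa [h1] at h0
  refine remOK_cls hj u m hk (fun a => a = pileMs m x ∨ a = nearMs (by omega) x (x + 1) ∨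
    a = nearMs (by omega) x (x - 1)) _ ?_ ?_ ?_
  · rintro a (rfl | rfl | rfl)
    · exact ⟨p, hp, Or.inl rfl⟩
    · exact ⟨q, hq, Or.inr (Or.inl rfl)⟩
    · exact ⟨q', hq', Or.inr (Or.inr rfl)⟩
  · rintro r (rfl | rfl | rfl)
    · exact ⟨p, pileMs m x, Or.inl rfl, hp, rfl⟩
    · exact ⟨q, nearMs (by omega) x (x + 1), Or.inr (Or.inl rfl), hq, rfl⟩
    · exact ⟨q', nearMs (by omega) x (x - 1), Or.inr (Or.inr rfl), hq', rfl⟩
  · intro g hg
    obtain ⟨ι, h1, h2, h3⟩ := near_ypy (n := 2 * j + 1) (m := m) ⟨j, rfl⟩ (by omega) hg hm x (by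
      rw [quot_odd]
      exact hod)
    refine ⟨ι, h1, h2, fun q => ?_⟩
    rw [h3]
    constructor
    · rintro (h | h | h)
      · exact ⟨_, Or.inl rfl, h⟩
      · exact ⟨_, Or.inr (Or.inl rfl), h⟩
      · exact ⟨_, Or.inr (Or.inr rfl), h⟩
    · rintro ⟨a, rfl | rfl | rfl, h⟩
      · exact Or.inl h
      · exact Or.inr (Or.inl h)
      · exact Or.inr (Or.inr h)

/-- the family as the set of the classes of the beads, with all matchings -/
theorem family_rem (hj : 1 ≤ j) (u0 : X j) (m : ℕ) (h : j + pkn u0.1 + m = k) :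
    ∃ (g : ℕ) (hg : g ∣ 2 * j + 1) (F : Quotient (msSetoid m hg) → Cyc k),
      Function.Injective F ∧
      (∀ a : Ms (2 * j + 1) m, ∀ w : X k, w.1 = ins u0.1 (lf a.1) →
        F (Quotient.mk _ a) = cyc w) ∧
      (∀ q, Rd (F q) = ⟨j, cyc u0⟩) ∧ (∀ p, Rd p = ⟨j, cyc u0⟩ → ∃ q, F q = p) ∧
      (∀ q q', HopQ hg q q' → HopC (F q) (F q')) ∧
      ∀ (A : Cyc k → Cyc k → Prop) (ι : Quotient (msSetoid m hg) → Quotient (msSetoid m hg)),
        (∀ q, ι (ι q) = q) → (∀ q, ι q = q ∨ A (F q) (F (ι q))) →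
        RemA A ⟨j, cyc u0⟩ {p | ∃ q, F q = p ∧ ι q = q} := by
  classical
  obtain ⟨g, hg, F, hinj, hF, -, hsurj⟩ := family hj u0 m h
  have hRF : ∀ q, Rd (F q) = ⟨j, cyc u0⟩ := by
    intro q
    obtain ⟨a, rfl⟩ := Quotient.exists_rep q
    rw [hF]
    exact Rd_ins (e := lf a.1) (lf_length a.1) rfl
  have hFs : ∀ p : Cyc k, Rd p = ⟨j, cyc u0⟩ → ∃ q, F q = p := by
    intro p hp
    obtain ⟨i, e, w, hw, he, hwe, h1, h2⟩ := Rd_fibre u0 hp
    obtain ⟨q, hq⟩ := hsurj i e he (by omega) w hwe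
    exact ⟨q, hq.trans hw⟩
  refine ⟨g, hg, F, hinj, ?_, hRF, hFs, ?_, ?_⟩
  · intro a w hw
    rw [hF]
    congr 1
    exact Subtype.ext hw.symm
  · rintro q q' ⟨a, a', rfl, rfl, hop⟩
    exact ⟨j, hj, u0, a.1, a'.1, by rw [a.2]; exact h, by rw [a'.2]; exact h, hop,
      (hF a).symm, (hF a').symm⟩
  · intro A ι h1 h2
    choose G hG using hFs
    have hGF : ∀ q (h : Rd (F q) = ⟨j, cyc u0⟩), G (F q) h = q := fun q h => hinj (hG _ h)
    refine ⟨fun p => if h : Rd p = ⟨j, cyc u0⟩ then F (ι (G p h)) else p, fun p hp => ?_⟩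
    simp only [dif_pos hp, hRF, dif_pos, hGF, h1]
    refine ⟨trivial, hG p hp, ?_, ?_⟩
    · rcases h2 (G p hp) with h3 | h3
      · left
        rw [h3, hG]
      · right
        rwa [hG] at h3
    · constructor
      · intro h3
        exact ⟨G p hp, hG p hp, hinj (h3.trans (hG p hp).symm)⟩
      · rintro ⟨q, rfl, h3⟩
        rw [hGF, h3]

/-- even family, `m ≥ 3`: a guest `t` (any other member) and one of pile, near piles -/
theorem remOK_t (hj : 1 ≤ j) {u : X j} (hm : 3 ≤ m) {x : ZMod (2 * j + 1)} {p q q' : X k}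
    (hp : p.1 = ins u.1 (lf fun z => if z = x then m else 0))
    (hq : q.1 = ins u.1 (lf fun z => (if z = x then m - 1 else 0) + if z = x + 1 then 1 else 0))
    (hq' : q'.1 = ins u.1 (lf fun z => (if z = x then m - 1 else 0) + if z = x - 1 then 1 else 0))
    (hev : ¬ oddF j m) {t : Cyc k} (ht : Rd t = ⟨j, cyc u⟩) (htp : t ≠ cyc p) :
    ∃ z : Cyc k, (z = cyc p ∨ z = cyc q ∨ z = cyc q') ∧ z ≠ t ∧ RemOK ⟨j, cyc u⟩ {t, z} := by
  have hk : j + pkn u.1 + m = k := by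
    have h0 := word_phi hp
    have h1 : ∑ z : ZMod (2 * j + 1), (if z = x then m else 0) = m := (pileMs m x).2
    rwa [h1] at h0
  obtain ⟨g, hg, F, hinj, hF, hR, hs, hH, hA⟩ := family_rem hj u m hk
  obtain ⟨t', ht'⟩ := hs t ht
  have e1 : F (Quotient.mk _ (pileMs m x)) = cyc p := hF _ _ hp
  have e2 : F (Quotient.mk _ (nearMs (by omega) x (x + 1))) = cyc q := hF _ _ hq
  have e3 : F (Quotient.mk _ (nearMs (by omega) x (x - 1))) = cyc q' := hF _ _ hq'
  obtain ⟨z, hz, hzt, ι, h1, h2, h3⟩ := near_t (n := 2 * j + 1) (m := m) ⟨j, rfl⟩ (by omega) hg hm x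
    t' (by rintro rfl; exact htp (ht'.symm.trans e1)) (by
      rw [← Nat.not_odd_iff_even, quot_odd]
      exact hev)
  refine ⟨F z, ?_, ?_, ?_⟩
  · rcases hz with rfl | rfl | rfl
    · exact Or.inl e1
    · exact Or.inr (Or.inl e2)
    · exact Or.inr (Or.inr e3)
  · rw [← ht']
    exact fun h => hzt (hinj h)
  · refine RemOK.congr (hA HopC ι h1 fun q => (h2 q).imp id (hH q (ι q))) fun r _ => ?_
    constructor
    · rintro ⟨q, rfl, hq⟩
      rcases (h3 q).1 hq with rfl | rfl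
      · exact Or.inl ht'
      · exact Or.inr rfl
    · rintro (rfl | rfl)
      · exact ⟨t', ht', (h3 t').2 (Or.inl rfl)⟩
      · exact ⟨z, rfl, (h3 z).2 (Or.inr rfl)⟩

/-- odd family, `m ≥ 3`: a guest `t`, the pile and one of the near piles -/
theorem remOK_tp (hj : 1 ≤ j) {u : X j} (hm : 3 ≤ m) {x : ZMod (2 * j + 1)} {p q q' : X k}
    (hp : p.1 = ins u.1 (lf fun z => if z = x then m else 0))
    (hq : q.1 = ins u.1 (lf fun z => (if z = x then m - 1 else 0) + if z = x + 1 then 1 else 0))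
    (hq' : q'.1 = ins u.1 (lf fun z => (if z = x then m - 1 else 0) + if z = x - 1 then 1 else 0))
    (hod : oddF j m) {t : Cyc k} (ht : Rd t = ⟨j, cyc u⟩) (htp : t ≠ cyc p) :
    ∃ z : Cyc k, (z = cyc q ∨ z = cyc q') ∧ z ≠ t ∧ RemOK ⟨j, cyc u⟩ {t, cyc p, z} := by
  have hk : j + pkn u.1 + m = k := by
    have h0 := word_phi hp
    have h1 : ∑ z : ZMod (2 * j + 1), (if z = x then m else 0) = m := (pileMs m x).2
    rwa [h1] at h0
  obtain ⟨g, hg, F, hinj, hF, hR, hs, hH, hA⟩ := family_rem hj u m hk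
  obtain ⟨t', ht'⟩ := hs t ht
  have e1 : F (Quotient.mk _ (pileMs m x)) = cyc p := hF _ _ hp
  have e2 : F (Quotient.mk _ (nearMs (by omega) x (x + 1))) = cyc q := hF _ _ hq
  have e3 : F (Quotient.mk _ (nearMs (by omega) x (x - 1))) = cyc q' := hF _ _ hq'
  obtain ⟨z, hz, hzt, ι, h1, h2, h3⟩ := near_tp (n := 2 * j + 1) (m := m) ⟨j, rfl⟩ (by omega) hg hm x
    t' (by rintro rfl; exact htp (ht'.symm.trans e1)) (by
      rw [quot_odd]
      exact hod)
  refine ⟨F z, ?_, ?_, ?_⟩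
  · rcases hz with rfl | rfl
    · exact Or.inl e2
    · exact Or.inr e3
  · rw [← ht']
    exact fun h => hzt (hinj h)
  · refine RemOK.congr (hA HopC ι h1 fun q => (h2 q).imp id (hH q (ι q))) fun r _ => ?_
    constructor
    · rintro ⟨q, rfl, hq⟩
      rcases (h3 q).1 hq with rfl | rfl | rfl
      · exact Or.inl ht'
      · exact Or.inr (Or.inl e1)
      · exact Or.inr (Or.inr rfl)
    · rintro (rfl | rfl | rfl)
      · exact ⟨t', ht', (h3 t').2 (Or.inl rfl)⟩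
      · exact ⟨_, e1, (h3 _).2 (Or.inr (Or.inl rfl))⟩
      · exact ⟨z, rfl, (h3 z).2 (Or.inr (Or.inr rfl))⟩

end Pool.OddHC
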