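import Pool.Agent.Work.MP_8f87b2_end.Sys
import Pool.Agent.Work.MP_8f87b2_und.Eng

/-!
# Plain triples as gadgets; layers

`tri_abs`: `a = P(Q)R`, `b = Q(R)P`, `c = R(P)Q` in three different cycles: the gadget absorbs the cycles of
`b`, `c`. `e_abs`: the E-triple `(R)`, `R()`, `()R`. `sys_layers`: union over the heights.
-/

set_option autoImplicit false

namespace Pool.OddHC

open Finset BinaryTree Equiv Pool.Agent.Work.MP_8f87b2_co

variable {k : ℕ}

theorem pDG_swap (B : Finset (X k)) (p q : Cyc k) (arcs : Set (X k × X k)) :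
    pDG B p q arcs = pDG B q p arcs := by
  unfold pDG
  congr 1
  ext w
  exact or_comm

theorem triDG_eq (a b c : X k) : triDG a b c = pDG {a, b, c} (cyc b) (cyc c) ∅ := by
  unfold triDG pDG
  congr 1
  ext w
  constructor
  · rintro (h | h)
    · exact Or.inl (cyc_eq.2 h.symm)
    · exact Or.inr (cyc_eq.2 h.symm)
  · rintro (h | h)
    · exact Or.inl (cyc_eq.1 h.symm)
    · exact Or.inr (cyc_eq.1 h.symm)

/-- THE PLAIN TRIPLE: the cycles of `Q(R)P` and `R(P)Q` are new -/
theorem tri_abs {P Q R : BinaryTree Unit} {a b c : X k} (ha : a.1 = w1 P Q R)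
    (hb : b.1 = w1 Q R P) (hc : c.1 = w1 R P Q) (hab : cyc a ≠ cyc b) (hac : cyc a ≠ cyc c)
    (hbc : cyc b ≠ cyc c) : (pDG {a, b, c} (cyc b) (cyc c) ∅).Abs := by
  have e1 : P.numNodes + Q.numNodes + R.numNodes + 1 = k := by
    rw [← w1_num, ← ha, X_num]
  have e2 : Q.numNodes + R.numNodes + P.numNodes + 1 = k := by omega
  have e3 : R.numNodes + P.numNodes + Q.numNodes + 1 = k := by omega
  rw [← triDG_eq]
  refine triDG_abs (fun h => hab (cyc_eq.2 h)) (fun h => hac (cyc_eq.2 h))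
    (fun h => hbc (cyc_eq.2 h)) ?_
  exact triple_legal e1 e2 e3 (Subtype.ext ha) (Subtype.ext hb) (Subtype.ext hc)
    (fun h => hab (by rw [h])) (fun h => hac (by rw [h])) (fun h => hbc (by rw [h]))

/-- the E-triple -/
theorem e_abs {R : BinaryTree Unit} (hR : R ≠ .nil) {a b c : X k} (ha : a.1 = R △ .nil)
    (hb : b.1 = app R (.nil △ .nil)) (hc : c.1 = .nil △ R) (hbc : cyc b ≠ cyc c) :
    (pDG {a, b, c} (cyc b) (cyc c) ∅).Abs := by
  have h0 : ∀ x : X k, ht x.1 = htc (cyc x) := fun x => (htc_cyc x).symm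
  have h1 := ht_pos hR
  have e1 : ht a.1 = ht R + 1 := by rw [ha, ht_node, ht]; omega
  have e2 : ht b.1 = ht R := by rw [hb, ht_app, ht_node, ht]; omega
  have e3 : ht c.1 = ht R := by rw [hc, ht_node, ht]; omega
  refine tri_abs (P := .nil) (Q := R) (R := .nil) ha hb hc ?_ ?_ hbc
  · intro h
    rw [h0, h, ← h0] at e1
    omega
  · intro h
    rw [h0, h, ← h0] at e1
    omega

/-- the words of the E-triple -/
theorem e_words {R : BinaryTree Unit} (hR : R.numNodes + 1 = k) :
    ∃ a b c : X k, a.1 = R △ .nil ∧ b.1 = app R (.nil △ .nil) ∧ c.1 = .nil △ R := by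
  refine ⟨⟨_, mem_treesOfNumNodesEq.2 ?_⟩, ⟨_, mem_treesOfNumNodesEq.2 ?_⟩,
    ⟨_, mem_treesOfNumNodesEq.2 ?_⟩, rfl, rfl, rfl⟩
  · change R.numNodes + 0 + 1 = k
    omega
  · rw [num_app]
    exact hR
  · change 0 + R.numNodes + 1 = k
    omega

/-- LAYERS by height -/
theorem sys_layers (O : Set (Cyc k)) (W I : ℕ → Set (X k)) (a : ℕ) : ∀ b : ℕ, a ≤ b →
    (∀ h, a ≤ h → h < b → HasSys (O ∪ {c | h < htc c ∧ htc c < b}) {c | htc c = h} (W h) (I h)) →
    (∀ h h', a ≤ h → h < h' → h' < b → ∀ w ∈ W h', w ∉ W h ∧ w ∉ I h) →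
    HasSys O {c | a ≤ htc c ∧ htc c < b} {w | ∃ h, a ≤ h ∧ h < b ∧ w ∈ W h}
      {w | ∃ h, a ≤ h ∧ h < b ∧ w ∈ I h} := by
  intro b hab hsys hdis
  -- downward induction on the lowest layer
  have key : ∀ n : ℕ, ∀ l, l + n = b → a ≤ l →
      HasSys O {c | l ≤ htc c ∧ htc c < b} {w | ∃ h, l ≤ h ∧ h < b ∧ w ∈ W h}
        {w | ∃ h, l ≤ h ∧ h < b ∧ w ∈ I h} := by
    intro n
    induction n with
    | zero =>
      intro l hl _
      have : {c : Cyc k | l ≤ htc c ∧ htc c < b} = ∅ := by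
        ext c
        simp only [Set.mem_setOf_eq, Set.mem_empty_iff_false, iff_false, not_and, not_lt]
        intro h
        omega
      rw [this]
      exact sys_empty _ _ _
    | succ n ih =>
      intro l hl hal
      have h1 := ih (l + 1) (by omega) (by omega)
      have h2 := hsys l hal (by omega)
      have e1 : O ∪ {c | l < htc c ∧ htc c < b} = O ∪ {c : Cyc k | l + 1 ≤ htc c ∧ htc c < b} := rfl
      rw [e1] at h2
      have h3 := sys_union h1 h2 (by
          rintro c ⟨hc, _⟩ hc'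
          change htc c = l at hc'
          omega) (by
          rintro w ⟨h, hh, hb, hw⟩
          exact (hdis l h hal (by omega) hb w hw).1) (by
          rintro w ⟨h, hh, hb, hw⟩
          exact (hdis l h hal (by omega) hb w hw).2)
      have e2 : {c : Cyc k | l + 1 ≤ htc c ∧ htc c < b} ∪ {c | htc c = l} =
          {c | l ≤ htc c ∧ htc c < b} := by
        ext c
        simp only [Set.mem_union, Set.mem_setOf_eq]
        omega
      rw [e2] at h3
      refine h3.mono ?_ ?_
      · rintro w (⟨h, hh, hb, hw⟩ | hw)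
        · exact ⟨h, by omega, hb, hw⟩
        · exact ⟨l, le_rfl, by omega, hw⟩
      · rintro w (⟨h, hh, hb, hw⟩ | hw)
        · exact ⟨h, by omega, hb, hw⟩
        · exact ⟨l, le_rfl, by omega, hw⟩
  exact key (b - a) a (by omega) le_rfl

end Pool.OddHC
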