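import Pool.Agent.Work.MP_8f87b2_end.Inv1
import Pool.Agent.Work.MP_8f87b2_end.End
import Pool.Agent.Work.MP_8f87b2_end.Trip

/-!
# The words over a hop pair of reduced cycles (level 2)

`U ∋ ()R'`, `U₂ ∋ R'()`. With `R = C(R', g)`:
`()^p (()^(q+1)) R = C(()R', p q g)`, `R (()^(p+1)) ()^q = C(R'(), g p q)`. `lw_words`: the three words of the
L-triple `()^p (()^q) R`, `()^q (R) ()^p`, `R (()^p) ()^q` and their reduced cycles, for every phase.
-/

set_option autoImplicit false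

namespace Pool.OddHC

open Finset BinaryTree Multiset

variable {j k : ℕ}

/-- `()^n` -/
def lp (n : ℕ) : BinaryTree Unit := lv n .nil

theorem lp_num (n : ℕ) : (lp n).numNodes = n := by
  unfold lp
  rw [lv_num]
  rfl

theorem ins_leafcomp (R' : BinaryTree Unit) (p q : ℕ) (g : List ℕ) :
    ins (.nil △ R') (p :: q :: g) = lv p (lp (q + 1) △ ins R' g) := rfl

theorem ins_comp_leaf (R' : BinaryTree Unit) (p q : ℕ) (g : List ℕ)
    (hg : g.length = 2 * R'.numNodes + 1) :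
    ins (app R' (.nil △ .nil)) (g ++ [p, q]) = app (ins R' g) (lp (p + 1) △ lp q) := by
  rw [ins_app _ _ _ _ hg]
  rfl

/-- `()^p (()^(q+1)) R` as the word `P(Q)R` -/
theorem lw_front (R' : BinaryTree Unit) (p q : ℕ) (g : List ℕ) :
    ins (.nil △ R') (p :: q :: g) = w1 (lp p) (lp (q + 1)) (ins R' g) := by
  rw [ins_leafcomp, lv_app, w1]
  rfl

/-- `R (()^(p+1)) ()^q` as the word `R(P)Q` -/
theorem lw_back (R' : BinaryTree Unit) (p q : ℕ) (g : List ℕ)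
    (hg : g.length = 2 * R'.numNodes + 1) :
    ins (app R' (.nil △ .nil)) (g ++ [p, q]) = w1 (ins R' g) (lp (p + 1)) (lp q) := by
  rw [ins_comp_leaf _ _ _ _ hg, w1]

/-- the words of a hop of `Cyc j`, one level lower, in all phases: `v = ()R'`, `v' = R'()` -/
theorem HopC.cores {U U₂ : Cyc j} (h : HopC U U₂) : ∃ (R' : BinaryTree Unit) (v v' : X j),
    R' ≠ .nil ∧ v.1 = .nil △ R' ∧ v'.1 = app R' (.nil △ .nil) ∧
      ((cyc v = U₂ ∧ cyc v' = U) ∨ (cyc v = U ∧ cyc v' = U₂)) := by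
  obtain ⟨i, u0, f, x, hi, hk, -, -, ⟨l, hl⟩, hw⟩ := h.words
  have hlen : (lf (fun z => f (z + (x + 1)))).length = 2 * ((TT ^ l) u0).1.numNodes + 1 := by
    rw [lf_length, X_num]
  have hnum := (ins_num ((TT ^ l) u0).1 (lf (fun z => f (z + (x + 1)))) hlen).1
  rw [lf_sum, sum_shift, X_num, pkn_pow] at hnum
  obtain ⟨R', hR'⟩ : ∃ R', R' = ins ((TT ^ l) u0).1 (lf (fun z => f (z + (x + 1)))) := ⟨_, rfl⟩
  rw [← hR'] at hnum
  have hne : R' ≠ .nil := by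
    rintro h
    rw [h] at hnum
    change 0 = _ at hnum
    omega
  obtain ⟨v, hv⟩ : ∃ v : X j, v.1 = .nil △ R' := ⟨⟨_, mem_treesOfNumNodesEq.2 (by
    change 0 + R'.numNodes + 1 = j
    omega)⟩, rfl⟩
  obtain ⟨v', hv'⟩ : ∃ v' : X j, v'.1 = app R' (.nil △ .nil) := ⟨⟨_, mem_treesOfNumNodesEq.2 (by
    rw [num_app]
    change R'.numNodes + 1 = j
    omega)⟩, rfl⟩
  refine ⟨R', v, v', hne, hv, hv', ?_⟩
  rw [hR'] at hv hv'
  rcases hw with hw | hw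
  · obtain ⟨h1, h2⟩ := hw l hl v v' hv hv'
    exact Or.inl ⟨h1, h2⟩
  · obtain ⟨h1, h2⟩ := hw l hl v v' hv hv'
    exact Or.inr ⟨h1, h2⟩

/-- **THE L-WORDS.** `v = ()R'`, `v' = R'()` of size `j`, `g` the extras in the gaps of `R'`, `p, q ≥ 1`:
host `a = ()^q (R) ()^p`, children `b = R (()^p) ()^q` over `v'` with the extras `g, p-1, q`,
`c = ()^p (()^q) R` over `v` with the extras `p, q-1, g`. -/
theorem lw_words {R' : BinaryTree Unit} {v v' : X j} (hv : v.1 = .nil △ R')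
    (hv' : v'.1 = app R' (.nil △ .nil)) {g : List ℕ} (hg : g.length = 2 * R'.numNodes + 1)
    {p q : ℕ} (hp : 1 ≤ p) (hq : 1 ≤ q) (hk : j + pkn v.1 + (p + (q - 1) + g.sum) = k) :
    ∃ a b c : X k, a.1 = w1 (lp q) (ins R' g) (lp p) ∧ b.1 = w1 (ins R' g) (lp p) (lp q) ∧
      c.1 = w1 (lp p) (lp q) (ins R' g) ∧
      b.1 = ins v'.1 (g ++ [p - 1, q]) ∧ c.1 = ins v.1 (p :: (q - 1) :: g) ∧
      Rd (cyc b) = ⟨j, cyc v'⟩ ∧ Rd (cyc c) = ⟨j, cyc v⟩ ∧
      (contc (cyc b)).count 1 = p + (q - 1) + g.sum ∧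
      (contc (cyc c)).count 1 = p + (q - 1) + g.sum := by
  obtain ⟨p, rfl⟩ : ∃ p', p = p' + 1 := ⟨p - 1, by omega⟩
  obtain ⟨q, rfl⟩ : ∃ q', q = q' + 1 := ⟨q - 1, by omega⟩
  rw [Nat.add_sub_cancel, Nat.add_sub_cancel] at *
  have hj : R'.numNodes + 1 = j := by
    have := X_num v
    rw [hv] at this
    change 0 + R'.numNodes + 1 = j at this
    omega
  have hc1 : ((p + 1) :: q :: g).length = 2 * v.1.numNodes + 1 := by
    rw [List.length_cons, List.length_cons, hg, X_num]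
    omega
  have hb1 : (g ++ [p, q + 1]).length = 2 * v'.1.numNodes + 1 := by
    rw [List.length_append, hg, X_num]
    simp
    omega
  have hcs : ((p + 1) :: q :: g).sum = p + 1 + q + g.sum := by
    rw [List.sum_cons, List.sum_cons]
    ring
  have hbs : (g ++ [p, q + 1]).sum = p + 1 + q + g.sum := by
    rw [List.sum_append]
    simp
    ring
  have hcn := (ins_num v.1 _ hc1).1
  rw [hcs, X_num, hk, hv, lw_front] at hcn
  have hn := hcn
  rw [w1_num] at hn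
  obtain ⟨c, hc⟩ : ∃ c : X k, c.1 = w1 (lp (p + 1)) (lp (q + 1)) (ins R' g) :=
    ⟨⟨_, mem_treesOfNumNodesEq.2 hcn⟩, rfl⟩
  obtain ⟨b, hb⟩ : ∃ b : X k, b.1 = w1 (ins R' g) (lp (p + 1)) (lp (q + 1)) :=
    ⟨⟨w1 (ins R' g) (lp (p + 1)) (lp (q + 1)), mem_treesOfNumNodesEq.2
      ((w1_num _ _ _).trans (by omega))⟩, rfl⟩
  obtain ⟨a, ha⟩ : ∃ a : X k, a.1 = w1 (lp (q + 1)) (ins R' g) (lp (p + 1)) :=
    ⟨⟨w1 (lp (q + 1)) (ins R' g) (lp (p + 1)), mem_treesOfNumNodesEq.2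
      ((w1_num _ _ _).trans (by omega))⟩, rfl⟩
  have hb2 : b.1 = ins v'.1 (g ++ [p, q + 1]) := by rw [hb, hv', lw_back _ _ _ _ hg]
  have hc2 : c.1 = ins v.1 ((p + 1) :: q :: g) := by rw [hc, hv, lw_front]
  refine ⟨a, b, c, ha, hb, hc, hb2, hc2, Rd_ins (by rw [hb1, X_num]) hb2,
    Rd_ins (by rw [hc1, X_num]) hc2, ?_, ?_⟩
  · rw [contc_cyc, hb2, count_one_ins _ _ hb1, hbs]
  · rw [contc_cyc, hc2, count_one_ins _ _ hc1, hcs]

/-- the L-triple absorbs the two children -/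
theorem lw_abs {R : BinaryTree Unit} {p q : ℕ} {a b c : X k} (ha : a.1 = w1 (lp q) R (lp p))
    (hb : b.1 = w1 R (lp p) (lp q)) (hc : c.1 = w1 (lp p) (lp q) R)
    (hab : cyc a ≠ cyc b) (hac : cyc a ≠ cyc c) (hbc : cyc b ≠ cyc c) :
    (pDG {a, b, c} (cyc b) (cyc c) ∅).Abs := tri_abs ha hb hc hab hac hbc

end Pool.OddHC
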