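import Pool.Agent.Work.MP_8f87b2_end.Inv1

/-!
# Removal sets

`RemOK d D`: the family over the reduced cycle `d` without the set `D` is perfectly matched by hops.
`exists_iD`: for any choice `D d` of removable sets one involution `i1` with `i1 p = p ↔ p ∈ D (Rd p)`.
`RemOK.of_classes`: transport from the classes of beads on the ring. `glueD`: level 2.
-/

set_option autoImplicit false

namespace Pool.OddHC

open Finset BinaryTree Multiset Pool.OddHop

variable {j k : ℕ}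

/-- the set `D` of cycles of the family `d` can be left out: the rest is perfectly matched by hops -/
def RemOK (d : RD) (D : Set (Cyc k)) : Prop :=
  ∃ ι : Cyc k → Cyc k, ∀ p, Rd p = d → Rd (ι p) = d ∧ ι (ι p) = p ∧ (ι p = p ∨ HopC p (ι p)) ∧
    (ι p = p ↔ p ∈ D)

theorem RemOK.congr {d : RD} {D D' : Set (Cyc k)} (h : RemOK d D)
    (hD : ∀ p, Rd p = d → (p ∈ D ↔ p ∈ D')) : RemOK d D' := by
  obtain ⟨ι, hι⟩ := h
  refine ⟨ι, fun p hp => ?_⟩
  obtain ⟨h1, h2, h3, h4⟩ := hι p hp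
  exact ⟨h1, h2, h3, by rw [h4, hD p hp]⟩

/-- all cycles of the family are left out -/
theorem remOK_all (d : RD) (D : Set (Cyc k)) (h : ∀ p, Rd p = d → p ∈ D) : RemOK d D :=
  ⟨id, fun p hp => ⟨hp, rfl, Or.inl rfl, ⟨fun _ => h p hp, fun _ => rfl⟩⟩⟩

/-- the prescribed leftover -/
theorem remOK_lo (d : RD) (lo : Cyc k) (hlo : Rd lo = d)
    (h2 : (contc lo).count 1 = 2 → oddF d.1 2 → IsTwo lo) :
    RemOK d {p : Cyc k | p = lo ∧ oddF d.1 ((contc lo).count 1)} :=
  fib_inv d lo hlo h2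

/-- a family of even size: nothing is left out -/
theorem remOK_even (d : RD) (m : ℕ) (hm : ∀ p : Cyc k, Rd p = d → (contc p).count 1 = m)
    (h2 : ¬ oddF d.1 m) : RemOK d (∅ : Set (Cyc k)) := by
  by_cases hd : ∃ p : Cyc k, Rd p = d
  · obtain ⟨p, hp⟩ := hd
    have h3 := hm p hp
    refine (remOK_lo d p hp (fun h4 h5 => ?_)).congr fun q _ => ?_
    · rw [h3] at h4
      rw [h4] at h2
      exact absurd h5 h2
    · rw [h3]
      constructor
      · rintro ⟨_, h⟩
        exact h2 h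
      · intro h
        exact absurd h (Set.notMem_empty _)
  · exact ⟨id, fun p hp => absurd ⟨p, hp⟩ hd⟩

/-- the beads of the cycles `p` of the family of `u0` as classes: `D' a` for the bead vectors -/
theorem RemOK.of_classes (hj : 1 ≤ j) (u0 : X j) (m : ℕ) (h : j + pkn u0.1 + m = k)
    (D' : Ms (2 * j + 1) m → Prop)
    (H : ∀ (g : ℕ) (hg : g ∣ 2 * j + 1), ∃ ι : Quotient (msSetoid m hg) → Quotient (msSetoid m hg),
      (∀ q, ι (ι q) = q) ∧ (∀ q, ι q = q ∨ HopQ hg q (ι q)) ∧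
      ∀ q, ι q = q ↔ ∃ a, D' a ∧ q = Quotient.mk (msSetoid m hg) a) :
    RemOK ⟨j, cyc u0⟩ {p : Cyc k | ∃ a, D' a ∧ p = cyc (phi u0 a.1 (by rw [a.2]; exact h))} := by
  classical
  obtain ⟨g, hg, F, hinj, hF, -, hsurj⟩ := family hj u0 m h
  obtain ⟨ι, hι1, hι2, hι3⟩ := H g hg
  have hRF : ∀ q, Rd (F q) = ⟨j, cyc u0⟩ := by
    intro q
    obtain ⟨a, rfl⟩ := Quotient.exists_rep q
    rw [hF]
    exact Rd_ins (e := lf a.1) (lf_length a.1) rfl
  have hFs : ∀ p : Cyc k, Rd p = ⟨j, cyc u0⟩ → ∃ q, F q = p := by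
    intro p hp
    obtain ⟨i, e, w, hw, he, hwe, h1, h2⟩ := Rd_fibre u0 hp
    obtain ⟨q, hq⟩ := hsurj i e he (by omega) w hwe
    exact ⟨q, hq.trans hw⟩
  have hHop : ∀ q q', HopQ hg q q' → HopC (F q) (F q') := by
    rintro q q' ⟨a, a', rfl, rfl, hop⟩
    exact ⟨j, hj, u0, a.1, a'.1, by rw [a.2]; exact h, by rw [a'.2]; exact h, hop,
      (hF a).symm, (hF a').symm⟩
  choose G hG using hFs
  refine ⟨fun p => if h : Rd p = ⟨j, cyc u0⟩ then F (ι (G p h)) else p, fun p hp => ?_⟩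
  have hGF : ∀ q (h : Rd (F q) = ⟨j, cyc u0⟩), G (F q) h = q := fun q h => hinj (hG _ h)
  simp only [dif_pos hp, hRF, dif_pos, hGF, hι1]
  refine ⟨trivial, hG p hp, ?_, ?_⟩
  · rcases hι2 (G p hp) with h | h
    · left
      rw [h, hG]
    · right
      have := hHop _ _ h
      rwa [hG] at this
  · constructor
    · intro h5
      have h6 : ι (G p hp) = G p hp := hinj (h5.trans (hG p hp).symm)
      obtain ⟨a, ha, hq⟩ := (hι3 _).1 h6
      refine ⟨a, ha, ?_⟩
      rw [← hF, ← hq, hG]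
    · rintro ⟨a, ha, hpa⟩
      have h6 : G p hp = Quotient.mk _ a := hinj (by rw [hG, hF, hpa])
      have h7 := (hι3 (G p hp)).2 ⟨a, ha, h6⟩
      rw [h7, hG]

/-- **THE INVOLUTION WITH PRESCRIBED REMOVAL SETS** -/
theorem exists_iD (D : RD → Set (Cyc k)) (hD : ∀ d, RemOK d (D d)) :
    ∃ i1 : Cyc k → Cyc k, (∀ p, i1 (i1 p) = p) ∧ (∀ p, Rd (i1 p) = Rd p) ∧
      (∀ p, i1 p = p ∨ HopC p (i1 p)) ∧ ∀ p, i1 p = p ↔ p ∈ D (Rd p) := by
  choose I hI using hD
  refine ⟨fun p => I (Rd p) p, ?_, ?_, ?_, ?_⟩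
  · intro p
    obtain ⟨h1, h2, _, _⟩ := hI (Rd p) p rfl
    simp only [h1]
    exact h2
  · intro p
    exact (hI (Rd p) p rfl).1
  · intro p
    exact (hI (Rd p) p rfl).2.2.1
  · intro p
    exact (hI (Rd p) p rfl).2.2.2

/-- **LEVEL 2**: `i2` an involution of the reduced cycles (hops inside the level-2 families). Over a
moved reduced cycle the removal set is at most one leftover `lo`, over a fixed one (a node) it is any
removable set `D d`. The leftovers over `d` and `i2 d` are paired. -/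
theorem exists_iotaD (i2 : ∀ j, Cyc j → Cyc j) (h2 : ∀ j p, i2 j (i2 j p) = p)
    (hc2 : ∀ j p, contc (i2 j p) = contc p) {lo : Cyc k → Cyc k} (hlo : LoOK lo)
    (D : RD → Set (Cyc k)) (hD : ∀ d : RD, i2 d.1 d.2 = d.2 → RemOK d (D d)) :
    ∃ (i1 ι : Cyc k → Cyc k), (∀ p, i1 (i1 p) = p) ∧ (∀ p, Rd (i1 p) = Rd p) ∧
      (∀ p, i1 p = p ∨ HopC p (i1 p)) ∧
      (∀ p, i2 _ (Rd p).2 ≠ (Rd p).2 → (i1 p = p ↔ p = lo p ∧ oddF (Rd p).1 ((contc p).count 1))) ∧
      (∀ p, i2 _ (Rd p).2 = (Rd p).2 → (i1 p = p ↔ p ∈ D (Rd p))) ∧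
      (∀ p, ι (ι p) = p) ∧ (∀ p, contc (ι p) = contc p) ∧ (∀ p, i1 p ≠ p → ι p = i1 p) ∧
      (∀ p, i1 p = p → i1 (ι p) = ι p ∧ Rd (ι p) = ⟨(Rd p).1, i2 _ (Rd p).2⟩) ∧
      ∀ p, ι p = p ↔ i1 p = p ∧ i2 _ (Rd p).2 = (Rd p).2 := by
  classical
  -- the removal sets
  let D' : RD → Set (Cyc k) := fun d => if i2 d.1 d.2 = d.2 then D d else
    {p : Cyc k | p = lo p ∧ oddF d.1 ((contc p).count 1)}
  have hD' : ∀ d : RD, RemOK d (D' d) := by
    intro d
    by_cases h : i2 d.1 d.2 = d.2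
    · change RemOK d (if i2 d.1 d.2 = d.2 then D d else _)
      rw [if_pos h]
      exact hD d h
    · change RemOK d (if i2 d.1 d.2 = d.2 then D d else _)
      rw [if_neg h]
      by_cases hd : ∃ p : Cyc k, Rd p = d
      · obtain ⟨p, hp⟩ := hd
        have hp' : Rd (lo p) = d := (hlo.rd p).trans hp
        refine (remOK_lo d (lo p) hp' (fun h3 h4 => hlo.two p h3 (by rw [hp]; exact h4))).congr
          fun q hq => ?_
        have e1 : lo q = lo p := hlo.fam _ _ (hq.trans hp.symm)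
        have e2 : (contc (lo p)).count 1 = (contc q).count 1 := Rd_count (hp'.trans hq.symm)
        rw [← e1] at e2 ⊢
        change _ ∧ _ ↔ _ ∧ _
        rw [e2]
      · exact ⟨id, fun p hp => absurd ⟨p, hp⟩ hd⟩
  obtain ⟨i1, g1, g2, g3, g4⟩ := exists_iD D' hD'
  have g5 : ∀ p, i2 _ (Rd p).2 ≠ (Rd p).2 →
      (i1 p = p ↔ p = lo p ∧ oddF (Rd p).1 ((contc p).count 1)) := by
    intro p hp
    rw [g4]
    change p ∈ (if i2 (Rd p).1 (Rd p).2 = (Rd p).2 then D (Rd p) else _) ↔ _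
    rw [if_neg hp]
    rfl
  have g6 : ∀ p, i2 _ (Rd p).2 = (Rd p).2 → (i1 p = p ↔ p ∈ D (Rd p)) := by
    intro p hp
    rw [g4]
    change p ∈ (if i2 (Rd p).1 (Rd p).2 = (Rd p).2 then D (Rd p) else _) ↔ _
    rw [if_pos hp]
  -- the partner of a leftover
  have hmv : ∀ d : RD, i2 d.1 d.2 ≠ d.2 → i2 d.1 (i2 d.1 d.2) ≠ i2 d.1 d.2 := by
    intro d h h'
    rw [h2] at h'
    exact h h'.symm
  have hex : ∀ p, i1 p = p → i2 _ (Rd p).2 ≠ (Rd p).2 →
      ∃ q, i1 q = q ∧ Rd q = ⟨(Rd p).1, i2 _ (Rd p).2⟩ := by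
    intro x hx hx0
    obtain ⟨hx1, hx2⟩ := (g5 x hx0).1 hx
    obtain ⟨j, u, e, w, hw, he, hwe, hR, e1, e2, e3, e4⟩ := exists_over x
    rw [hR] at hx2 hx0 ⊢
    have hpk : pkc (i2 j (cyc u)) = pkn u.1 := by
      unfold pkc
      rw [hc2, contc_cyc, cont_card]
    obtain ⟨p, hp1, hp2⟩ := exists_Rd (k := k) (i2 j (cyc u)) e.sum (by rw [hpk]; omega)
    refine ⟨lo p, ?_, ?_⟩
    · rw [g5]
      · refine ⟨hlo.fam _ _ (hlo.rd p).symm, ?_⟩
        rw [hlo.rd, Rd_count (hlo.rd p), hp2, hp1, e3]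
        exact hx2
      · rw [hlo.rd, hp1]
        exact hmv ⟨j, cyc u⟩ hx0
    · rw [hlo.rd, hp1]
  have huniq : ∀ p q, i1 p = p → i1 q = q → Rd p = Rd q → i2 _ (Rd p).2 ≠ (Rd p).2 → p = q := by
    intro p q hp hq hpq h
    have h' : i2 _ (Rd q).2 ≠ (Rd q).2 := by rw [← hpq]; exact h
    rw [((g5 p h).1 hp).1, ((g5 q h').1 hq).1, hlo.fam _ _ hpq]
  choose y hy1 hy2 using hex
  let i : Cyc k → Cyc k := fun x =>
    if h : i1 x = x then (if h' : i2 _ (Rd x).2 = (Rd x).2 then x else y x h h') else i1 x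
  have e1 : ∀ x, i1 x ≠ x → i x = i1 x := fun x h => dif_neg h
  have e2 : ∀ x (h : i1 x = x) (h' : i2 _ (Rd x).2 = (Rd x).2), i x = x := by
    intro x h h'
    change (if h : i1 x = x then _ else _) = _
    rw [dif_pos h, dif_pos h']
  have e3 : ∀ x (h : i1 x = x) (h' : i2 _ (Rd x).2 ≠ (Rd x).2), i x = y x h h' := by
    intro x h h'
    change (if h : i1 x = x then _ else _) = _
    rw [dif_pos h, dif_neg h']
  refine ⟨i1, i, g1, g2, g3, g5, g6, ?_, ?_, e1, ?_, ?_⟩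
  · intro x
    by_cases h : i1 x = x
    · by_cases h' : i2 _ (Rd x).2 = (Rd x).2
      · rw [e2 x h h', e2 x h h']
      · rw [e3 x h h']
        have h3 := hy2 x h h'
        have h4 : i2 _ (Rd (y x h h')).2 ≠ (Rd (y x h h')).2 := by
          rw [h3]
          exact hmv (Rd x) h'
        rw [e3 _ (hy1 x h h') h4]
        apply huniq _ _ (hy1 _ _ _) h
        · rw [hy2, h3]
          change (⟨(Rd x).1, i2 _ (i2 _ (Rd x).2)⟩ : RD) = _
          rw [h2]
        · rw [hy2]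
          exact hmv _ h4
    · have h3 : i1 (i1 x) ≠ i1 x := by
        rw [g1]
        exact fun h4 => h h4.symm
      rw [e1 x h, e1 _ h3, g1]
  · intro x
    by_cases h : i1 x = x
    · by_cases h' : i2 _ (Rd x).2 = (Rd x).2
      · rw [e2 x h h']
      · rw [e3 x h h']
        -- the content is determined by the reduction
        obtain ⟨q, hq⟩ : ∃ q, q = y x h h' := ⟨_, rfl⟩
        have h3 := hy2 x h h'
        rw [← hq] at h3 ⊢
        have key : ∀ (p q : Cyc k), (Rd p).1 = (Rd q).1 → contc (Rd p).2 = contc (Rd q).2 →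
            contc p = contc q := by
          intro p q hpq hc
          obtain ⟨j, u, e, w, hw, he, hwe, hR, a1, a2, a3, a4⟩ := exists_over p
          obtain ⟨j', u', e', w', hw', he', hwe', hR', a1', a2', a3', a4'⟩ := exists_over q
          rw [hR, hR'] at hpq hc
          change j = j' at hpq
          subst hpq
          change cont u.1 = cont u'.1 at hc
          have h7 : pkn u.1 = pkn u'.1 := by rw [← cont_card, hc, cont_card]
          have h8 : e.sum = e'.sum := by omega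
          rw [a4, a4', hc, h8]
        apply key
        · rw [h3]
        · rw [h3]
          exact hc2 _ _
    · rw [e1 x h]
      exact Rd_contc (g2 x)
  · intro x h
    by_cases h' : i2 _ (Rd x).2 = (Rd x).2
    · rw [e2 x h h']
      refine ⟨h, ?_⟩
      rw [h']
    · rw [e3 x h h']
      exact ⟨hy1 x h h', hy2 x h h'⟩
  · intro x
    by_cases h : i1 x = x
    · by_cases h' : i2 _ (Rd x).2 = (Rd x).2
      · rw [e2 x h h']
        exact ⟨fun _ => ⟨h, h'⟩, fun _ => rfl⟩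
      · constructor
        · intro h3
          rw [e3 x h h'] at h3
          have h4 := hy2 x h h'
          rw [h3] at h4
          refine ⟨h, ?_⟩
          have h5 : (⟨(Rd x).1, (Rd x).2⟩ : RD) = ⟨(Rd x).1, i2 _ (Rd x).2⟩ := h4
          exact (eq_of_heq (Sigma.mk.inj_iff.1 h5).2).symm
        · rintro ⟨_, h3⟩
          exact absurd h3 h'
    · rw [e1 x h]
      constructor
      · intro h3
        exact absurd h3 h
      · rintro ⟨h3, _⟩
        exact absurd h3 h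

end Pool.OddHC
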