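import Pool.Agent.Work.MP_8f87b2_end.Inv3
import Pool.Agent.Work.MP_8f87b2_end.Rem
import Pool.Agent.Work.MP_8f87b2_end.LW
import Pool.Agent.Work.MP_8f87b2_end.End3

/-!
# GAMMA: two light levels if there is a part `2`, three light levels if there is none

`exists_I2G`: the involution `I` on the reduced cycles: `i1` if there is a part `1`, else over `i1` of the
reduction. `Rd_unique`, `EData.infU`: the words `(())R₁`, `R₁(())` of a level-3 pair of reduced cycles.
`l3_words`: the words `S(()^p (()^q))`-type of the pair in `Cyc k`. `exists_lo`, `exists_sym`: choice.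
-/

set_option autoImplicit false

namespace Pool.OddHC

open Finset BinaryTree Multiset Pool.OddHop

variable {i j k : ℕ}

/-- the unique cycle without a part `1` over a reduced cycle -/
theorem Rd_unique {p q : Cyc k} (h : Rd p = Rd q) (h0 : (contc p).count 1 = 0) : p = q := by
  obtain ⟨j, u, e, w, hw, he, hwe, hR, h1, h2, h3, _⟩ := exists_over p
  obtain ⟨i, e', w', hw', he', hwe', h1', h2'⟩ := Rd_fibre u (h.symm.trans hR)
  have hc := Rd_count h
  have z1 : e = List.replicate (2 * u.1.numNodes + 1) 0 := by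
    rw [List.eq_replicate_iff]
    refine ⟨by rw [he, X_num], fun x hx => ?_⟩
    have := List.single_le_sum (by simp) x hx
    omega
  have z2 : e' = List.replicate (2 * ((TT ^ i) u).1.numNodes + 1) 0 := by
    rw [List.eq_replicate_iff]
    refine ⟨by rw [he', X_num], fun x hx => ?_⟩
    have := List.single_le_sum (by simp) x hx
    omega
  have e1 : w.1 = inf u.1 := by rw [hwe, z1]; rfl
  have e2 : w'.1 = inf ((TT ^ i) u).1 := by rw [hwe', z2]; rfl
  have e3 : (TT ^ i) w = w' := Subtype.ext (by rw [inf_pow u e1, e2])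
  rw [← hw, ← hw', ← e3]
  exact cyc_eq.2 ⟨(i : ℤ), by rw [zpow_natCast]⟩

/-- **THE INVOLUTION OF THE REDUCED CYCLES** (GAMMA) -/
theorem exists_I2G {lo : ∀ k, Cyc k → Cyc k} (hlo : ∀ k, LoOK (lo k)) :
    ∃ (i1 I : ∀ j, Cyc j → Cyc j), I1OK lo i1 ∧ (∀ j (p : Cyc j), I j (I j p) = p) ∧
      (∀ j (p : Cyc j), contc (I j p) = contc p) ∧
      (∀ j (p : Cyc j), (contc p).count 1 ≠ 0 → I j p = i1 j p) ∧
      ∀ j (p : Cyc j), (contc p).count 1 = 0 → Rd (I j p) = ⟨(Rd p).1, i1 _ (Rd p).2⟩ ∧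
        (I j p = p ↔ i1 _ (Rd p).2 = (Rd p).2) := by
  classical
  obtain ⟨i1, h⟩ := exists_I1 hlo
  obtain ⟨i2, a1, a2, a3, a4, a5⟩ := glue_step h i1 h.inv (fun j p => Rd_contc (h.rd j p))
  have hfix : ∀ j (p : Cyc j), (contc p).count 1 = 0 → i1 j p = p := by
    intro j p hp
    exact (Rd_unique (h.rd j p).symm hp).symm
  have hc1 : ∀ j (p : Cyc j), (contc (i1 j p)).count 1 = (contc p).count 1 := fun j p =>
    Rd_count (h.rd j p)
  refine ⟨i1, fun j p => if (contc p).count 1 = 0 then i2 j p else i1 j p, h, ?_, ?_, ?_, ?_⟩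
  · intro j p
    by_cases hp : (contc p).count 1 = 0
    · simp only [if_pos hp, a2]
      exact a1 j p
    · simp only [if_neg hp, hc1]
      exact h.inv j p
  · intro j p
    by_cases hp : (contc p).count 1 = 0
    · simp only [if_pos hp]
      exact a2 j p
    · simp only [if_neg hp]
      exact Rd_contc (h.rd j p)
  · intro j p hp
    simp only [if_neg hp]
  · intro j p hp
    simp only [if_pos hp]
    refine ⟨(a4 j p (hfix j p hp)).2, ?_⟩
    rw [a5]
    exact ⟨fun h => h.2, fun h => ⟨hfix j p hp, h⟩⟩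

/-! ### Level 3: the words of the reduced cycles -/

theorem inf_app_leaf (R : BinaryTree Unit) : inf (app R (.nil △ .nil)) =
    app (inf R) ((.nil △ .nil) △ .nil) := by
  rw [inf_app]
  rfl

theorem inf_leaf_node (R : BinaryTree Unit) : inf (.nil △ R) = (.nil △ .nil) △ inf R := by
  rw [inf_node]
  rfl

/-- the words `(())R₁`, `R₁(())`, `R₁ = C(R, 0)`, of two cycles without a part `1` over a hop pair -/
theorem EData.infU {V V₂ : Cyc j} {r : X i} {f : ZMod (2 * i + 1) → ℕ} (h : EData V V₂ i r f)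
    {U U₂ : Cyc k} (hU : Rd U = ⟨j, V⟩) (hU₂ : Rd U₂ = ⟨j, V₂⟩) (h0 : (contc U).count 1 = 0)
    (h0' : (contc U₂).count 1 = 0) : ∃ u u' : X k,
      u.1 = (.nil △ .nil) △ inf (ins r.1 (lf f)) ∧
      u'.1 = app (inf (ins r.1 (lf f))) ((.nil △ .nil) △ .nil) ∧
      ins r.1 (lf f) ≠ .nil ∧ (ins r.1 (lf f)).numNodes + 1 = j ∧
      ((cyc u = U ∧ cyc u' = U₂) ∨ (cyc u = U₂ ∧ cyc u' = U)) := by
  obtain ⟨R, hR⟩ : ∃ R, R = ins r.1 (lf f) := ⟨_, rfl⟩
  have hw := h.words
  rw [← hR] at hw ⊢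
  have hnum : R.numNodes + 1 = j := by
    have h1 := (ins_num r.1 (lf f) (by rw [lf_length, X_num])).1
    rw [← hR, lf_sum, X_num] at h1
    have := h.size
    omega
  have hRn : R ≠ .nil := by
    rintro h0
    rw [h0] at hnum
    have h1 := h.size
    have h2 := h.hj
    change 0 + 1 = j at hnum
    omega
  obtain ⟨v, hv⟩ : ∃ v : X j, v.1 = .nil △ R := ⟨⟨_, mem_treesOfNumNodesEq.2 (by
    change 0 + R.numNodes + 1 = j
    omega)⟩, rfl⟩
  obtain ⟨v', hv'⟩ : ∃ v' : X j, v'.1 = app R (.nil △ .nil) := ⟨⟨_, mem_treesOfNumNodesEq.2 (by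
    rw [num_app]
    change R.numNodes + 1 = j
    omega)⟩, rfl⟩
  -- the size of the inflation
  have hsz : ∀ (v : X j) (U : Cyc k), Rd U = ⟨j, cyc v⟩ → (contc U).count 1 = 0 →
      ∃ u : X k, u.1 = inf v.1 ∧ cyc u = U := by
    intro v U hU hc
    obtain ⟨i, e, w, hw, he, hwe, h1, h2⟩ := Rd_fibre v hU
    have hk : j + pkn v.1 = k := by omega
    have hn := (ins_num v.1 (List.replicate (2 * v.1.numNodes + 1) 0) (List.length_replicate)).1
    rw [List.sum_replicate, smul_zero, X_num, hk] at hn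
    obtain ⟨u, hu⟩ : ∃ u : X k, u.1 = inf v.1 :=
      ⟨⟨inf v.1, mem_treesOfNumNodesEq.2 (by unfold inf; rw [X_num]; exact hn)⟩, rfl⟩
    refine ⟨u, hu, ?_⟩
    have hRu : Rd (cyc u) = ⟨j, cyc v⟩ := by
      refine Rd_ins (e := List.replicate (2 * v.1.numNodes + 1) 0) ?_ hu
      rw [List.length_replicate, X_num]
    exact (Rd_unique (hU.trans hRu.symm) hc).symm
  rcases hw with hw | hw
  · obtain ⟨e1, e2⟩ := hw v v' hv hv'
    obtain ⟨u, hu, hu'⟩ := hsz v U (by rw [hU, e1]) h0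
    obtain ⟨u', hu1, hu1'⟩ := hsz v' U₂ (by rw [hU₂, e2]) h0'
    refine ⟨u, u', ?_, ?_, hRn, hnum, Or.inl ⟨hu', hu1'⟩⟩
    · rw [hu, hv, inf_leaf_node]
    · rw [hu1, hv', inf_app_leaf]
  · obtain ⟨e1, e2⟩ := hw v v' hv hv'
    obtain ⟨u, hu, hu'⟩ := hsz v U₂ (by rw [hU₂, e1]) h0'
    obtain ⟨u', hu1, hu1'⟩ := hsz v' U (by rw [hU, e2]) h0
    refine ⟨u, u', ?_, ?_, hRn, hnum, Or.inr ⟨hu', hu1'⟩⟩
    · rw [hu, hv, inf_leaf_node]
    · rw [hu1, hv', inf_app_leaf]

/-- extras at the front: `()^p (()^a (()^(b+1)) ()^c) C(R₁, g)` -/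
theorem ins_front2 (R₁ : BinaryTree Unit) (p a b c : ℕ) (g : List ℕ) :
    ins ((.nil △ .nil) △ R₁) (p :: a :: b :: c :: g) =
      lv p (lv a (lp (b + 1) △ lp c) △ ins R₁ g) := rfl

/-- extras at the back: `C(R₁, g) (()^a (()^(b+1)) ()^c) ()^d` -/
theorem ins_back2 (R₁ : BinaryTree Unit) (a b c d : ℕ) (g : List ℕ)
    (hg : g.length = 2 * R₁.numNodes + 1) :
    ins (app R₁ ((.nil △ .nil) △ .nil)) (g ++ [a, b, c, d]) =
      app (ins R₁ g) (lv a (lp (b + 1) △ lp c) △ lp d) := by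
  rw [ins_app _ _ _ _ hg]
  rfl

/-- `n` zeros, `m`, `n` zeros -/
def midL (n m : ℕ) : List ℕ := List.replicate n 0 ++ m :: List.replicate n 0

theorem midL_length (n m : ℕ) : (midL n m).length = 2 * n + 1 := by
  unfold midL
  rw [List.length_append, List.length_cons, List.length_replicate]
  ring

theorem midL_sum (n m : ℕ) : (midL n m).sum = m := by
  unfold midL
  rw [List.sum_append, List.sum_cons]
  simp

theorem lf_getD {n : ℕ} [NeZero n] (a : ZMod n → ℕ) (z : ZMod n) : (lf a).getD z.val 0 = a z := by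
  have h1 : z.val < (lf a).length := by rw [lf_length]; exact ZMod.val_lt z
  rw [List.getD_eq_getElem _ _ h1, lf_getElem, ZMod.natCast_zmod_val]

/-- two beads at the distance `j`, `j` even, in list form -/
theorem isTwo_of_list {u : X j} {w : X k} {e : List ℕ} (he : e.length = 2 * j + 1)
    (hw : w.1 = ins u.1 e) (x y : ℕ) (hx : x < 2 * j + 1) (hy : y < 2 * j + 1)
    (hd : y = x + j ∨ y + j = x + (2 * j + 1)) (hj : j % 2 = 0)
    (h : ∀ z, z < 2 * j + 1 → e.getD z 0 = (if z = x then 1 else 0) + if z = y then 1 else 0) :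
    IsTwo (cyc w) := by
  obtain ⟨a, rfl⟩ := exists_lf he
  have ha : ∀ z, a z = (if z.val = x then 1 else 0) + if z.val = y then 1 else 0 := by
    intro z
    rw [← h z.val (ZMod.val_lt z), lf_getD]
  have hc : ∀ (z : ZMod (2 * j + 1)) (x : ℕ), x < 2 * j + 1 → (z.val = x ↔ z = (x : ZMod (2 * j + 1))) := by
    intro z x hx
    constructor
    · intro h
      rw [← h, ZMod.natCast_zmod_val]
    · rintro rfl
      exact ZMod.val_natCast_of_lt hx
  rcases hd with hd1 | hd1
  · refine ⟨j, u, x, j, w, le_rfl, hj, rfl, ?_⟩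
    rw [hw]
    congr 2
    funext z
    rw [ha]
    simp only [hc z x hx, hc z y hy]
    rw [hd1, Nat.cast_add]
  · refine ⟨j, u, y, j, w, le_rfl, hj, rfl, ?_⟩
    rw [hw]
    congr 2
    funext z
    rw [ha]
    simp only [hc z x hx, hc z y hy]
    have h1 : ((y + j : ℕ) : ZMod (2 * j + 1)) = ((x + (2 * j + 1) : ℕ) : ZMod (2 * j + 1)) := by
      rw [hd1]
    have h2 : ((2 * j + 1 : ℕ) : ZMod (2 * j + 1)) = 0 := ZMod.natCast_self _
    rw [Nat.cast_add, Nat.cast_add, h2, add_zero] at h1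
    rw [h1, add_comm]

theorem midL_getD (n m z : ℕ) : (midL n m).getD z 0 = if z = n then m else 0 := by
  unfold midL
  rcases lt_trichotomy z n with h | h | h
  · rw [List.getD_append _ _ _ _ (by simpa using h)]
    rw [List.getD_replicate _ h, if_neg (by omega)]
  · subst h
    rw [List.getD_append_right _ _ _ _ (by simp)]
    simp
  · rw [List.getD_append_right _ _ _ _ (by simp; omega), List.length_replicate, if_neg (by omega)]
    obtain ⟨t, ht⟩ : ∃ t, z - n = t + 1 := ⟨z - n - 1, by omega⟩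
    rw [ht, List.getD_cons_succ]
    by_cases h2 : t < n
    · rw [List.getD_replicate _ h2]
    · rw [List.getD_eq_default]
      simpa using h2

/-- the number of the classes of two beads is odd iff `j` is even -/
theorem oddF_two_even (h : oddF j 2) : j % 2 = 0 := by
  have h1 : Nat.card (Ms (2 * j + 1) 2) = (2 * j + 1) * (j + 1) := by
    have e1 : Nat.card (Ms (2 * j + 1) 2) = Nat.card (Sym (ZMod (2 * j + 1)) 2) :=
      (Nat.card_congr (Sym.equivNatSumOfFintype (ZMod (2 * j + 1)) 2)).symm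
    rw [e1, Nat.card_eq_fintype_card, Sym.card_sym_eq_choose, ZMod.card, Nat.choose_two_right]
    have e2 : (2 * j + 1 + 2 - 1) * (2 * j + 1 + 2 - 1 - 1) = 2 * ((2 * j + 1) * (j + 1)) := by
      have e3 : 2 * j + 1 + 2 - 1 = 2 * (j + 1) := by omega
      have e4 : 2 * (j + 1) - 1 = 2 * j + 1 := by omega
      rw [e3, e4]
      ring
    rw [e2, Nat.mul_div_cancel_left _ (by norm_num)]
  unfold oddF at h
  rw [h1, Nat.odd_mul] at h
  obtain ⟨c, hc⟩ := h.2
  omega

/-! ### Choice of the leftovers -/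

theorem exists_lo (C : RD → Set (Cyc k)) (hC : ∀ d, (∃ p : Cyc k, Rd p = d) → ∃ q ∈ C d, Rd q = d ∧
    ((contc q).count 1 = 2 → oddF d.1 2 → IsTwo q)) :
    ∃ lo : Cyc k → Cyc k, LoOK lo ∧ ∀ p, lo p ∈ C (Rd p) := by
  classical
  have h : ∀ d : RD, ∃ r : Option (Cyc k), ∀ p : Cyc k, Rd p = d → ∃ q, r = some q ∧ q ∈ C d ∧
      Rd q = d ∧ ((contc q).count 1 = 2 → oddF d.1 2 → IsTwo q) := by
    intro d
    by_cases hd : ∃ p : Cyc k, Rd p = d
    · obtain ⟨q, h1, h2, h3⟩ := hC d hd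
      exact ⟨some q, fun p _ => ⟨q, rfl, h1, h2, h3⟩⟩
    · exact ⟨none, fun p hp => absurd ⟨p, hp⟩ hd⟩
  choose r hr using h
  have hr' : ∀ p : Cyc k, ∃ q, r (Rd p) = some q ∧ q ∈ C (Rd p) ∧ Rd q = Rd p ∧
      ((contc q).count 1 = 2 → oddF (Rd p).1 2 → IsTwo q) := fun p => hr (Rd p) p rfl
  choose lo h1 h2 h3 h4 using hr'
  refine ⟨lo, ⟨h3, ?_, h4⟩, h2⟩
  intro p q hpq
  have e1 := h1 p
  rw [hpq, h1 q] at e1
  exact (Option.some.inj e1).symm

/-- symmetric choice of the data of the pairs of an involution -/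
theorem exists_sym {C D : Type*} [Nonempty D] (I : C → C) (hI : ∀ p, I (I p) = p)
    (Q : D → C → C → Prop) (h : ∀ p, I p ≠ p → ∃ x, Q x p (I p) ∨ Q x (I p) p) :
    ∃ F : C → D, (∀ p, F (I p) = F p) ∧ ∀ p, I p ≠ p → Q (F p) p (I p) ∨ Q (F p) (I p) p := by
  classical
  let S : Setoid C :=
    { r := fun p q => q = p ∨ q = I p
      iseqv := by
        refine ⟨fun p => Or.inl rfl, ?_, ?_⟩
        · rintro p q (rfl | rfl)
          · exact Or.inl rfl
          · exact Or.inr (hI p).symm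
        · rintro p q r (rfl | rfl) (rfl | rfl)
          · exact Or.inl rfl
          · exact Or.inr rfl
          · exact Or.inr rfl
          · exact Or.inl (hI p) }
  let rep : C → C := fun p => (Quotient.mk S p).out
  have h1 : ∀ p, rep (I p) = rep p := by
    intro p
    change (Quotient.mk S (I p)).out = (Quotient.mk S p).out
    congr 1
    exact Quotient.sound (Or.inr (hI p).symm)
  have h2 : ∀ p, p = rep p ∨ p = I (rep p) := fun p => Quotient.mk_out (s := S) p
  obtain ⟨F0, hF0⟩ : ∃ F0 : C → D, ∀ p, I p ≠ p → Q (F0 p) p (I p) ∨ Q (F0 p) (I p) p := by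
    refine ⟨fun p => if h' : I p ≠ p then (h p h').choose else Classical.arbitrary D, fun p hp => ?_⟩
    simp only [dif_pos hp]
    exact (h p hp).choose_spec
  refine ⟨fun p => F0 (rep p), fun p => by simp only [h1], ?_⟩
  intro p hp
  obtain ⟨q, hq⟩ : ∃ q, q = rep p := ⟨_, rfl⟩
  have h3 := h2 p
  change Q (F0 (rep p)) p (I p) ∨ Q (F0 (rep p)) (I p) p
  rw [← hq] at h3 ⊢
  rcases h3 with rfl | rfl
  · exact hF0 p hp
  · have h4 : I q ≠ q := by
      intro h5
      rw [h5] at hp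
      exact hp h5
    rw [hI]
    exact (hF0 q h4).symm

end Pool.OddHC
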