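import Pool.Agent.Work.MP_8f87b2_end.Red
import Pool.Agent.Work.MP_8f87b2_h26.C2
import Pool.Agent.Work.MP_8f87b2_h26.Two

/-!
# The E-involution on the cycles of `T`

`exists_i1`: an involution `i1` of `Cyc k` which keeps the reduced cycle, every nontrivial pair is a hop
(`HopC`), the fixed points are exactly the prescribed leftovers `lo` of the families of odd size.
`HopC.words`: every phase of a hop gives the two words `()R`, `R()`.
-/

set_option autoImplicit false

namespace Pool.OddHC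

open Finset BinaryTree Multiset Pool.OddHop

variable {j k : ℕ}

/-! ### Hops of cycles -/

/-- the cycles `p`, `q` are hop neighbours over a common reduced cycle -/
def HopC (p q : Cyc k) : Prop :=
  ∃ (j : ℕ) (_ : 1 ≤ j) (u0 : X j) (a a' : ZMod (2 * j + 1) → ℕ)
    (h : j + pkn u0.1 + ∑ x, a x = k) (h' : j + pkn u0.1 + ∑ x, a' x = k),
    Hop a a' ∧ cyc (phi u0 a h) = p ∧ cyc (phi u0 a' h') = q

/-- every phase `i` of a hop: the words `()R`, `R()`, `R = C((TT ^ i) u0, f (· + x + 1))` -/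
theorem star_hop_any (u0 : X j) (f : ZMod (2 * j + 1) → ℕ) (x : ZMod (2 * j + 1))
    (h1 : j + pkn u0.1 + ∑ z, (f z + if z = x then 1 else 0) = k)
    (h2 : j + pkn u0.1 + ∑ z, (f z + if z = x + 1 then 1 else 0) = k) {i : ℕ}
    (hi : sp u0 i = x + 1) {w w' : X k}
    (hw : w.1 = .nil △ ins ((TT ^ i) u0).1 (lf (fun z => f (z + (x + 1)))))
    (hw' : w'.1 = app (ins ((TT ^ i) u0).1 (lf (fun z => f (z + (x + 1))))) (.nil △ .nil)) :
    cyc w = cyc (phi u0 (fun z => f z + if z = x + 1 then 1 else 0) h2) ∧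
      cyc w' = cyc (phi u0 (fun z => f z + if z = x then 1 else 0) h1) := by
  constructor
  · have e : (TT ^ i) (phi u0 (fun z => f z + if z = x + 1 then 1 else 0) h2) = w := by
      apply Subtype.ext
      rw [pow_phi, hw]
      change ins ((TT ^ i) u0).1 (lf _) = _
      rw [← ins_front]
      congr 2
      funext z
      simp only [hi, add_eq_right]
    rw [← e]
    exact (cyc_eq.2 ⟨(i : ℤ), by rw [zpow_natCast]⟩).symm
  · have e : (TT ^ i) (phi u0 (fun z => f z + if z = x then 1 else 0) h1) = w' := by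
      apply Subtype.ext
      rw [pow_phi, hw']
      change ins ((TT ^ i) u0).1 (lf _) = _
      rw [← ins_back]
      congr 2
      funext z
      simp only [hi]
      have : z + (x + 1) = x ↔ z = -1 := by
        constructor
        · intro h; linear_combination h
        · rintro rfl; ring
      simp only [this]
    rw [← e]
    exact (cyc_eq.2 ⟨(i : ℤ), by rw [zpow_natCast]⟩).symm

/-- transport of a word over `(TT ^ i) u0` to `u0` -/
theorem cyc_transport (u0 : X j) (i : ℕ) (b : ZMod (2 * j + 1) → ℕ) {w : X k}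
    (hw : w.1 = ins ((TT ^ i) u0).1 (lf b))
    (h : j + pkn u0.1 + ∑ x, b (x - sp u0 i) = k) :
    cyc w = cyc (phi u0 (fun x => b (x - sp u0 i)) h) := by
  have e : (TT ^ i) (phi u0 (fun x => b (x - sp u0 i)) h) = w := by
    apply Subtype.ext
    rw [pow_phi, hw]
    change ins ((TT ^ i) u0).1 (lf _) = _
    congr 2
    funext x
    rw [add_sub_cancel_right]
  rw [← e]
  exact (cyc_eq.2 ⟨(i : ℤ), by rw [zpow_natCast]⟩).symm

/-- every cycle over `cyc u0` is `cyc (phi u0 a)` -/
theorem exists_phi (u0 : X j) {p : Cyc k} (hp : Rd p = ⟨j, cyc u0⟩) :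
    ∃ (a : ZMod (2 * j + 1) → ℕ) (h : j + pkn u0.1 + ∑ x, a x = k), cyc (phi u0 a h) = p ∧
      ∑ x, a x = (contc p).count 1 := by
  obtain ⟨i, e, w, hw, he, hwe, h1, h2⟩ := Rd_fibre u0 hp
  obtain ⟨b, rfl⟩ := exists_lf he
  rw [lf_sum] at h1 h2
  have hs : ∑ x, b (x - sp u0 i) = ∑ x, b x := by
    have := sum_shift b (-sp u0 i)
    simpa only [sub_eq_add_neg] using this
  refine ⟨fun x => b (x - sp u0 i), by rw [hs]; exact h1, ?_, by rw [hs]; exact h2⟩
  rw [← cyc_transport u0 i b hwe, hw]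

theorem ne_add_one (hj : 1 ≤ j) (t : ZMod (2 * j + 1)) : t + 1 ≠ t := by
  intro ht
  have h0 : (1 : ZMod (2 * j + 1)) = 0 := by simpa using ht
  have h1 := congrArg ZMod.val h0
  have : Fact (1 < 2 * j + 1) := ⟨by omega⟩
  rw [ZMod.val_one, ZMod.val_zero] at h1
  omega

/-- a hop as a common part and a place -/
theorem hop_form (hj : 1 ≤ j) {a a' : ZMod (2 * j + 1) → ℕ} (hop : Hop a a') :
    ∃ (f : ZMod (2 * j + 1) → ℕ) (x : ZMod (2 * j + 1)),
      (a = (fun z => f z + if z = x then 1 else 0) ∧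
        a' = fun z => f z + if z = x + 1 then 1 else 0) ∨
      (a' = (fun z => f z + if z = x then 1 else 0) ∧
        a = fun z => f z + if z = x + 1 then 1 else 0) := by
  have key : ∀ (a a' : ZMod (2 * j + 1) → ℕ) (x : ZMod (2 * j + 1)),
      (∀ z, a z + (if x + 1 = z then 1 else 0) = a' z + (if x = z then 1 else 0)) →
      ∃ f : ZMod (2 * j + 1) → ℕ, a = (fun z => f z + if z = x then 1 else 0) ∧
        a' = fun z => f z + if z = x + 1 then 1 else 0 := by
    intro a a' x hz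
    have hne := ne_add_one hj x
    refine ⟨fun z => a z - if z = x then 1 else 0, ?_, ?_⟩
    · funext z
      have := hz z
      by_cases h1 : z = x
      · subst h1
        simp only [if_true, if_neg hne] at this ⊢
        omega
      · simp only [if_neg h1]
        omega
    · funext z
      have := hz z
      by_cases h1 : z = x
      · subst h1
        simp only [if_true, if_neg hne, if_neg hne.symm] at this ⊢
        omega
      · by_cases h2 : z = x + 1
        · subst h2
          simp only [if_true, if_neg hne, if_neg hne.symm] at this ⊢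
          omega
        · have h1' : ¬ x = z := fun h => h1 h.symm
          have h2' : ¬ x + 1 = z := fun h => h2 h.symm
          simp only [if_neg h1, if_neg h2, if_neg h1', if_neg h2'] at this ⊢
          omega
  obtain ⟨x, y, hxy, hz⟩ := hop
  rcases hxy with rfl | rfl
  · obtain ⟨f, h1, h2⟩ := key a a' x hz
    exact ⟨f, x, Or.inl ⟨h1, h2⟩⟩
  · obtain ⟨f, h1, h2⟩ := key a' a y (fun z => (hz z).symm)
    exact ⟨f, y, Or.inr ⟨h1, h2⟩⟩

/-- the words of a hop pair, all phases -/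
theorem HopC.words {p q : Cyc k} (h : HopC p q) :
    ∃ (j : ℕ) (u0 : X j) (f : ZMod (2 * j + 1) → ℕ) (x : ZMod (2 * j + 1)),
      1 ≤ j ∧ j + pkn u0.1 + (∑ z, f z + 1) = k ∧ Rd p = ⟨j, cyc u0⟩ ∧ Rd q = ⟨j, cyc u0⟩ ∧
      (∃ i, sp u0 i = x + 1) ∧
      ((∀ i, sp u0 i = x + 1 → ∀ w w' : X k,
        w.1 = .nil △ ins ((TT ^ i) u0).1 (lf (fun z => f (z + (x + 1)))) →
        w'.1 = app (ins ((TT ^ i) u0).1 (lf (fun z => f (z + (x + 1))))) (.nil △ .nil) →
        cyc w = q ∧ cyc w' = p) ∨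
      (∀ i, sp u0 i = x + 1 → ∀ w w' : X k,
        w.1 = .nil △ ins ((TT ^ i) u0).1 (lf (fun z => f (z + (x + 1)))) →
        w'.1 = app (ins ((TT ^ i) u0).1 (lf (fun z => f (z + (x + 1))))) (.nil △ .nil) →
        cyc w = p ∧ cyc w' = q)) := by
  obtain ⟨j, hj, u0, a, a', h1, h2, hop, rfl, rfl⟩ := h
  obtain ⟨f, x, hfx⟩ := hop_form hj hop
  have hR1 : Rd (cyc (phi u0 a h1)) = ⟨j, cyc u0⟩ := Rd_ins (e := lf a) (lf_length a) rfl
  have hR2 : Rd (cyc (phi u0 a' h2)) = ⟨j, cyc u0⟩ := Rd_ins (e := lf a') (lf_length a') rfl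
  have hs : ∀ y : ZMod (2 * j + 1), ∑ z, (f z + if z = y then 1 else 0) = ∑ z, f z + 1 := by
    intro y
    rw [sum_add_distrib, Finset.sum_ite_eq' univ y (fun _ => 1), if_pos (mem_univ _)]
  refine ⟨j, u0, f, x, hj, ?_, hR1, hR2, exists_sp hj u0 (x + 1), ?_⟩
  · rcases hfx with ⟨rfl, _⟩ | ⟨_, rfl⟩
    · rw [hs] at h1; exact h1
    · rw [hs] at h1; exact h1
  · rcases hfx with ⟨rfl, rfl⟩ | ⟨rfl, rfl⟩
    · left
      intro i hi w w' hw hw'
      exact star_hop_any u0 f x h1 h2 hi hw hw'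
    · right
      intro i hi w w' hw hw'
      exact star_hop_any u0 f x h2 h1 hi hw hw'

/-! ### The involution -/

/-- the family of `m` beads on `2 j + 1` gaps has odd size -/
def oddF (j m : ℕ) : Prop := Odd (Nat.card (Ms (2 * j + 1) m))

/-- all beads in one gap -/
def IsPile (p : Cyc k) : Prop := ∃ (j : ℕ) (u : X j) (x : ZMod (2 * j + 1)) (m : ℕ) (w : X k),
  cyc w = p ∧ w.1 = ins u.1 (lf (fun z => if z = x then m else 0))

/-- two beads at an even distance `d ≤ j` (`d = 0`: pile, `d = j` for even `j`: antipodal) -/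
def IsTwo (p : Cyc k) : Prop := ∃ (j : ℕ) (u : X j) (x : ZMod (2 * j + 1)) (d : ℕ) (w : X k),
  d ≤ j ∧ d % 2 = 0 ∧ cyc w = p ∧
    w.1 = ins u.1 (lf (fun z => (if z = x then 1 else 0) + if z = x + (d : ZMod (2 * j + 1)) then 1 else 0))

theorem IsPile.two {p : Cyc k} (h : IsPile p) (h2 : (contc p).count 1 = 2) : IsTwo p := by
  obtain ⟨j, u, x, m, w, hw, hwx⟩ := h
  have hm : m = 2 := by
    rw [← hw, contc_cyc, hwx, count_one_ins _ _ (by rw [lf_length, X_num]), lf_sum,
      Finset.sum_ite_eq' univ x (fun _ => m), if_pos (mem_univ _)] at h2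
    exact h2
  refine ⟨j, u, x, 0, w, Nat.zero_le _, rfl, hw, ?_⟩
  rw [hwx, hm]
  congr 2
  funext z
  rw [Nat.cast_zero, add_zero]
  by_cases h : z = x
  · simp [h]
  · simp [h]

theorem oddF_zero (j : ℕ) : oddF j 0 := by
  unfold oddF
  have : Nat.card (Ms (2 * j + 1) 0) = 1 := by
    rw [Nat.card_eq_one_iff_unique]
    refine ⟨⟨fun a b => ?_⟩, ⟨⟨fun _ => 0, by simp⟩⟩⟩
    have key : ∀ a : Ms (2 * j + 1) 0, ∀ x, a.1 x = 0 := by
      intro a x
      have h1 := a.2
      rw [Finset.sum_eq_zero_iff] at h1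
      exact h1 x (mem_univ x)
    apply Subtype.ext
    funext x
    rw [key, key]
  rw [this]
  exact odd_one

theorem oddF_ring_one (m : ℕ) : oddF 0 m := by
  unfold oddF
  have : Nat.card (Ms (2 * 0 + 1) m) = 1 := by
    rw [Nat.card_eq_one_iff_unique]
    refine ⟨⟨fun a b => ?_⟩, ⟨⟨fun _ => m, by simp⟩⟩⟩
    apply Subtype.ext
    funext x
    have h1 := a.2
    have h2 := b.2
    have hx : ∀ y : ZMod (2 * 0 + 1), y = x := fun y => Subsingleton.elim (α := Fin 1) y x
    rw [Fintype.sum_eq_single x (fun y hy => absurd (hx y) hy)] at h1 h2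
    rw [h1, h2]
  rw [this]
  exact odd_one

/-- an involution with at most one fixed point -/
theorem inv_parity {α : Type*} [Finite α] (ι : α → α) (h : ∀ x, ι (ι x) = x) (x0 : α) (c : Prop)
    (hc : ∀ x, ι x = x ↔ x = x0 ∧ c) : c ↔ Odd (Nat.card α) := by
  classical
  have := Fintype.ofFinite α
  let f0 : Function.End α := ι
  have hf : f0 ^ 2 ^ 1 = 1 := by
    rw [pow_one, pow_two]
    funext x
    exact h x
  have h1 := Equiv.Perm.card_fixedPoints_modEq (p := 2) (n := 1) hf
  rw [Nat.card_eq_fintype_card, Nat.odd_iff]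
  by_cases hcc : c
  · have h2 : Fintype.card (Function.fixedPoints f0) = 1 := by
      rw [Fintype.card_eq_one_iff]
      refine ⟨⟨x0, (hc x0).2 ⟨rfl, hcc⟩⟩, ?_⟩
      rintro ⟨y, hy⟩
      exact Subtype.ext ((hc y).1 hy).1
    rw [h2] at h1
    exact ⟨fun _ => h1, fun _ => hcc⟩
  · have h2 : Fintype.card (Function.fixedPoints f0) = 0 := by
      rw [Fintype.card_eq_zero_iff]
      exact ⟨fun ⟨y, hy⟩ => hcc ((hc y).1 hy).2⟩
    rw [h2] at h1
    constructor
    · intro h3; exact absurd h3 hcc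
    · intro h3
      have h4 : Fintype.card α % 2 = 0 := h1
      omega

/-- one family -/
theorem fib_inv (d : RD) (lo : Cyc k) (hlo : Rd lo = d)
    (hpile : (contc lo).count 1 = 2 → oddF d.1 2 → IsTwo lo) :
    ∃ ι : Cyc k → Cyc k, ∀ p, Rd p = d → Rd (ι p) = d ∧ ι (ι p) = p ∧ (ι p = p ∨ HopC p (ι p)) ∧
      (ι p = p ↔ p = lo ∧ oddF d.1 ((contc lo).count 1)) := by
  obtain ⟨j, U⟩ := d
  obtain ⟨u0, rfl⟩ : ∃ u0 : X j, cyc u0 = U := Quotient.exists_rep U
  obtain ⟨m, hm⟩ : ∃ m, m = (contc lo).count 1 := ⟨_, rfl⟩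
  rw [← hm] at hpile ⊢
  have hcount : ∀ p : Cyc k, Rd p = ⟨j, cyc u0⟩ → (contc p).count 1 = m := by
    intro p hp
    rw [hm]
    exact Rd_count (hp.trans hlo.symm)
  obtain ⟨i0, e0, w0, hw0, he0, hwe0, hk0, hm0⟩ := Rd_fibre u0 hlo
  have hk : j + pkn u0.1 + m = k := by rw [hm, ← hm0]; exact hk0
  rcases Nat.eq_zero_or_pos j with rfl | hj
  · -- one word
    refine ⟨id, fun p hp => ⟨hp, rfl, Or.inl rfl, ?_⟩⟩
    have hone : ∀ p q : Cyc k, Rd p = ⟨0, cyc u0⟩ → Rd q = ⟨0, cyc u0⟩ → p = q := by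
      intro p q hp hq
      obtain ⟨i, e, w, hw, he, hwe, h1, h2⟩ := Rd_fibre u0 hp
      obtain ⟨i', e', w', hw', he', hwe', h1', h2'⟩ := Rd_fibre u0 hq
      rw [← hw, ← hw']
      congr 1
      apply Subtype.ext
      rw [hwe, hwe']
      have e1 : ∀ v : X 0, v.1 = .nil := by
        intro v
        have := X_num v
        cases h : v.1 with
        | nil => rfl
        | node _ A B =>
          rw [h] at this
          change A.numNodes + B.numNodes + 1 = 0 at this
          omega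
      rw [e1, e1]
      obtain ⟨n, rfl⟩ : ∃ n, e = [n] := List.length_eq_one_iff.1 (by simpa using he)
      obtain ⟨n', rfl⟩ : ∃ n, e' = [n] := List.length_eq_one_iff.1 (by simpa using he')
      simp only [List.sum_cons, List.sum_nil] at h1 h1'
      rw [show n = n' by omega]
    constructor
    · intro _
      exact ⟨hone p lo hp hlo, oddF_ring_one m⟩
    · intro _
      rfl
  · obtain ⟨g, hg, F, hinj, hF, -, hsurj⟩ := family hj u0 m hk
    have hodd : Odd (2 * j + 1) := ⟨j, rfl⟩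
    have hRF : ∀ q, Rd (F q) = ⟨j, cyc u0⟩ := by
      intro q
      obtain ⟨a, rfl⟩ := Quotient.exists_rep q
      rw [hF]
      exact Rd_ins (e := lf a.1) (lf_length a.1) rfl
    have hFs : ∀ p : Cyc k, Rd p = ⟨j, cyc u0⟩ → ∃ q, F q = p := by
      intro p hp
      obtain ⟨i, e, w, hw, he, hwe, h1, h2⟩ := Rd_fibre u0 hp
      obtain ⟨q, hq⟩ := hsurj i e he (by rw [h2, hcount p hp]) w hwe
      exact ⟨q, hq.trans hw⟩
    have hHop : ∀ q q', HopQ hg q q' → HopC (F q) (F q') := by
      rintro q q' ⟨a, a', rfl, rfl, hop⟩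
      exact ⟨j, hj, u0, a.1, a'.1, by rw [a.2]; exact hk, by rw [a'.2]; exact hk, hop,
        (hF a).symm, (hF a').symm⟩
    obtain ⟨q0, hq0⟩ := hFs lo hlo
    have hpar : Odd (Nat.card (Quotient (msSetoid m hg))) ↔ oddF j m := by
      unfold oddF
      rw [Nat.odd_iff, Nat.odd_iff, card_classes_mod_two hodd hg]
    -- the matching of the classes
    obtain ⟨ι, hι1, hι2, hι3⟩ : ∃ ι : Quotient (msSetoid m hg) → Quotient (msSetoid m hg),
        (∀ q, ι (ι q) = q) ∧ (∀ q, ι q = q ∨ HopQ hg q (ι q)) ∧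
        ∀ q, ι q = q ↔ q = q0 ∧ Odd (Nat.card (Quotient (msSetoid m hg))) := by
      by_cases hm2 : m = 2
      · subst hm2
        by_cases hod : oddF j 2
        · obtain ⟨j', u, x, d0, w, hd0, hd2, hw, hwx⟩ := hpile rfl hod
          -- transport to `u0`
          have hR : Rd lo = ⟨j', cyc u⟩ := by
            rw [← hw]
            exact Rd_ins (lf_length _) hwx
          rw [hlo] at hR
          obtain ⟨rfl, hc⟩ := Sigma.mk.inj_iff.1 hR
          obtain ⟨i, hi⟩ := sameCycle_nat (cyc_eq.1 (eq_of_heq hc))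
          obtain ⟨x0, hx0⟩ : ∃ x0, x0 = x + sp u0 i := ⟨_, rfl⟩
          have hq : q0 = P hg x0 d0 := by
            apply hinj
            rw [hq0]
            unfold P
            rw [hF, ← hw]
            have hlen : j + pkn u0.1 + ∑ z, (two x0 (x0 + (d0 : ℕ))).1 z = k := by
              rw [(two x0 (x0 + (d0 : ℕ))).2]
              exact hk
            have e : (TT ^ i) (phi u0 (two x0 (x0 + (d0 : ℕ))).1 hlen) = w := by
              apply Subtype.ext
              rw [pow_phi, hwx]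
              change ins ((TT ^ i) u0).1 (lf _) = _
              rw [hi]
              congr 2
              funext z
              have h3 : ∀ y : ZMod (2 * j + 1),
                  (two x0 (x0 + ((d0 : ℕ) : ZMod (2 * j + 1)))).1 y =
                    (if y = x0 then 1 else 0) + if y = x0 + (d0 : ZMod (2 * j + 1)) then 1 else 0 := by
                intro y
                change (Pi.single x0 1 + Pi.single (x0 + (d0 : ZMod (2 * j + 1))) 1 :
                  ZMod (2 * j + 1) → ℕ) y = _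
                rw [Pi.add_apply]
                congr 1
                · by_cases h4 : y = x0
                  · subst h4; simp
                  · simp [h4]
                · by_cases h4 : y = x0 + (d0 : ZMod (2 * j + 1))
                  · subst h4; simp
                  · simp [h4]
              have h5 : z + sp u0 i = x + sp u0 i ↔ z = x := add_left_inj _
              have h6 : z + sp u0 i = x + sp u0 i + (d0 : ZMod (2 * j + 1)) ↔
                  z = x + (d0 : ZMod (2 * j + 1)) := by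
                rw [add_right_comm, add_left_inj]
              rw [h3, hx0]
              simp only [h5, h6]
            rw [← e]
            exact (cyc_eq.2 ⟨(i : ℤ), by rw [zpow_natCast]⟩).symm
          obtain ⟨ι, h1, h2, h3⟩ := near_two_prescribed hodd hg x0 d0 (by omega) hd2
          refine ⟨ι, h1, h2, fun q => ?_⟩
          rw [h3, hq]
          have : Finite (Quotient (msSetoid 2 hg)) := Finite.of_injective _ hinj
          rw [inv_parity ι h1 _ _ h3]
        · obtain ⟨ι, h1, h2, h3⟩ := near_two_prescribed hodd hg 0 0 (by omega) rfl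
          have : Finite (Quotient (msSetoid 2 hg)) := Finite.of_injective _ hinj
          have h4 : ¬ Odd (Nat.card (Quotient (msSetoid 2 hg))) := fun h => hod (hpar.1 h)
          have h5 := inv_parity ι h1 _ _ h3
          refine ⟨ι, h1, h2, fun q => ?_⟩
          rw [h3, h5]
          exact ⟨fun h => absurd h.2 h4, fun h => absurd h.2 h4⟩
      · by_cases hm0 : m = 0
        · subst hm0
          have hone : ∀ p q : Quotient (msSetoid 0 hg), p = q := by
            intro p q
            obtain ⟨a, rfl⟩ := Quotient.exists_rep p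
            obtain ⟨b, rfl⟩ := Quotient.exists_rep q
            apply Quotient.sound
            have key : ∀ a : Ms (2 * j + 1) 0, ∀ x, a.1 x = 0 := by
              intro a x
              have h1 := a.2
              rw [Finset.sum_eq_zero_iff] at h1
              exact h1 x (mem_univ x)
            exact ⟨0, map_zero _, fun x => by rw [key, key]⟩
          refine ⟨id, fun _ => rfl, fun _ => Or.inl rfl, fun q => ?_⟩
          constructor
          · intro _
            exact ⟨hone _ _, hpar.2 (oddF_zero j)⟩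
          · intro _
            rfl
        · exact near_prescribed hodd hg (by omega) hm2 q0
    -- transport to the cycles
    classical
    choose G hG using hFs
    refine ⟨fun p => if h : Rd p = ⟨j, cyc u0⟩ then F (ι (G p h)) else p, fun p hp => ?_⟩
    have hGF : ∀ q (h : Rd (F q) = ⟨j, cyc u0⟩), G (F q) h = q := fun q h => hinj (hG _ h)
    simp only [dif_pos hp, hRF, dif_pos, hGF, hι1]
    refine ⟨trivial, hG p hp, ?_, ?_⟩
    · rcases hι2 (G p hp) with h | h
      · left
        rw [h, hG]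
      · right
        have := hHop _ _ h
        rwa [hG] at this
    · rw [← hpar]
      constructor
      · intro h
        have h1 : ι (G p hp) = G p hp := hinj (h.trans (hG p hp).symm)
        obtain ⟨h2, h3⟩ := (hι3 _).1 h1
        refine ⟨?_, h3⟩
        rw [← hG p hp, h2, hq0]
      · rintro ⟨h, h3⟩
        have h2 : G p hp = q0 := hinj (by rw [hG, hq0, h])
        rw [(hι3 (G p hp)).2 ⟨h2, h3⟩, hG]

/-- a choice of the leftovers: `lo p` depends only on the family of `p`, and lies in it -/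
structure LoOK (lo : Cyc k → Cyc k) : Prop where
  rd : ∀ p, Rd (lo p) = Rd p
  fam : ∀ p q, Rd p = Rd q → lo p = lo q
  two : ∀ p, (contc (lo p)).count 1 = 2 → oddF (Rd p).1 2 → IsTwo (lo p)

/-- **THE E-INVOLUTION** -/
theorem exists_i1 {lo : Cyc k → Cyc k} (hlo : LoOK lo) :
    ∃ i1 : Cyc k → Cyc k, (∀ p, i1 (i1 p) = p) ∧ (∀ p, Rd (i1 p) = Rd p) ∧
      (∀ p, i1 p = p ∨ HopC p (i1 p)) ∧
      ∀ p, i1 p = p ↔ p = lo p ∧ oddF (Rd p).1 ((contc p).count 1) := by
  classical
  have h : ∀ p : Cyc k, ∃ ι : Cyc k → Cyc k, ∀ q, Rd q = Rd p → Rd (ι q) = Rd p ∧ ι (ι q) = q ∧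
      (ι q = q ∨ HopC q (ι q)) ∧ (ι q = q ↔ q = lo p ∧ oddF (Rd p).1 ((contc (lo p)).count 1)) :=
    fun p => fib_inv (Rd p) (lo p) (hlo.rd p) (hlo.two p)
  choose I hI using h
  -- a representative of each family
  have hrep : ∀ d : RD, ∃ r : Option (Cyc k), ∀ p : Cyc k, Rd p = d → ∃ q, r = some q ∧ Rd q = d := by
    intro d
    by_cases hd : ∃ q : Cyc k, Rd q = d
    · obtain ⟨q, hq⟩ := hd
      exact ⟨some q, fun p _ => ⟨q, rfl, hq⟩⟩
    · exact ⟨none, fun p hp => absurd ⟨p, hp⟩ hd⟩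
  choose r hr using hrep
  have hr' : ∀ p : Cyc k, ∃ q : Cyc k, r (Rd p) = some q ∧ Rd q = Rd p := fun p => hr (Rd p) p rfl
  choose s hs1 hs2 using hr'
  have hss : ∀ p q : Cyc k, Rd p = Rd q → s p = s q := by
    intro p q h
    have h1 := hs1 p
    rw [h, hs1 q] at h1
    exact (Option.some.inj h1).symm
  refine ⟨fun p => I (s p) p, ?_, ?_, ?_, ?_⟩
  · intro p
    obtain ⟨h1, h2, _, _⟩ := hI (s p) p (hs2 p).symm
    have h3 : s (I (s p) p) = s p := hss _ _ (h1.trans (hs2 p))
    simp only [h3]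
    exact h2
  · intro p
    obtain ⟨h1, _, _, _⟩ := hI (s p) p (hs2 p).symm
    exact h1.trans (hs2 p)
  · intro p
    obtain ⟨_, _, h3, _⟩ := hI (s p) p (hs2 p).symm
    exact h3
  · intro p
    obtain ⟨_, _, _, h4⟩ := hI (s p) p (hs2 p).symm
    have h5 : lo (s p) = lo p := hlo.fam _ _ (hs2 p)
    have h6 : (contc (lo p)).count 1 = (contc p).count 1 := Rd_count (hlo.rd p)
    rw [h5, h6, hs2 p] at h4
    exact h4

/-- there is a cycle over every reduced cycle of the right size -/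
theorem exists_Rd (U : Cyc j) (m : ℕ) (h : j + pkc U + m = k) :
    ∃ p : Cyc k, Rd p = ⟨j, U⟩ ∧ (contc p).count 1 = m := by
  obtain ⟨u, rfl⟩ : ∃ u : X j, cyc u = U := Quotient.exists_rep U
  rw [pkc_cyc] at h
  have hs : ∑ z : ZMod (2 * j + 1), (if z = 0 then m else 0) = m := by
    rw [Finset.sum_ite_eq' univ 0 (fun _ => m), if_pos (mem_univ _)]
  refine ⟨cyc (phi u (fun z => if z = 0 then m else 0) (by rw [hs]; exact h)), ?_, ?_⟩
  · exact Rd_ins (lf_length _) rfl
  · rw [contc_cyc]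
    change (cont (ins u.1 (lf _))).count 1 = m
    rw [count_one_ins _ _ (by rw [lf_length, X_num]), lf_sum, hs]

/-- **THE GLOBAL INVOLUTION**: level 1 (E-pairs) and level 2 (pairs of leftovers over an E-pair of the
reduced cycles). -/
theorem exists_iota {lo : ∀ k, Cyc k → Cyc k} (hlo : ∀ k, LoOK (lo k)) (k : ℕ) :
    ∃ (i1 : ∀ j, Cyc j → Cyc j) (ι : Cyc k → Cyc k),
      (∀ j (p : Cyc j), i1 j (i1 j p) = p) ∧ (∀ j (p : Cyc j), Rd (i1 j p) = Rd p) ∧
      (∀ j (p : Cyc j), i1 j p = p ∨ HopC p (i1 j p)) ∧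
      (∀ j (p : Cyc j), i1 j p = p ↔ p = lo j p ∧ oddF (Rd p).1 ((contc p).count 1)) ∧
      (∀ p, ι (ι p) = p) ∧ (∀ p, i1 k p ≠ p → ι p = i1 k p) ∧
      (∀ p, i1 k p = p → i1 k (ι p) = ι p ∧ Rd (ι p) = ⟨(Rd p).1, i1 _ (Rd p).2⟩) ∧
      ∀ p, ι p = p ↔ i1 k p = p ∧ i1 _ (Rd p).2 = (Rd p).2 := by
  have h : ∀ j, ∃ i1 : Cyc j → Cyc j, (∀ p, i1 (i1 p) = p) ∧ (∀ p, Rd (i1 p) = Rd p) ∧
      (∀ p, i1 p = p ∨ HopC p (i1 p)) ∧
      ∀ p, i1 p = p ↔ p = lo j p ∧ oddF (Rd p).1 ((contc p).count 1) := fun j => exists_i1 (hlo j)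
  choose i1 h1 h2 h3 h4 using h
  obtain ⟨ι, g1, g2, g3, g4⟩ := glue_inv (C := Cyc k) (D := RD) Rd (i1 k) (h1 k) (by
      intro x y hx hy hxy
      rw [((h4 k x).1 hx).1, ((h4 k y).1 hy).1, (hlo k).fam _ _ hxy])
    (fun d => ⟨d.1, i1 d.1 d.2⟩) (by
      rintro ⟨j, U⟩
      simp only [h1]) (by
      intro x hx
      obtain ⟨hx1, hx2⟩ := (h4 k x).1 hx
      obtain ⟨j, u, e, w, hw, he, hwe, hR, e1, e2, e3, e4⟩ := exists_over x
      rw [hR] at hx2 ⊢
      have hpk : pkc (i1 j (cyc u)) = pkn u.1 := by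
        have h5 := Rd_contc (h2 j (cyc u))
        unfold pkc
        rw [h5, contc_cyc, cont_card]
      obtain ⟨p, hp1, hp2⟩ := exists_Rd (k := k) (i1 j (cyc u)) e.sum (by rw [hpk]; omega)
      refine ⟨lo k p, ?_, ?_⟩
      · rw [h4]
        refine ⟨(hlo k).fam _ _ ((hlo k).rd p).symm, ?_⟩
        rw [(hlo k).rd, Rd_count ((hlo k).rd p), hp2, hp1, e3]
        exact hx2
      · rw [(hlo k).rd, hp1])
  refine ⟨i1, ι, h1, h2, h3, h4, g1, g2, g3, fun p => ?_⟩
  rw [g4]
  constructor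
  · rintro ⟨e1, e2⟩
    refine ⟨e1, ?_⟩
    have e3 : (⟨(Rd p).1, i1 (Rd p).1 (Rd p).2⟩ : RD) = ⟨(Rd p).1, (Rd p).2⟩ := e2
    exact eq_of_heq (Sigma.mk.inj_iff.1 e3).2
  · rintro ⟨e1, e2⟩
    refine ⟨e1, ?_⟩
    change (⟨(Rd p).1, i1 (Rd p).1 (Rd p).2⟩ : RD) = Rd p
    rw [e2]

end Pool.OddHC
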