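import Pool.Agent.Work.MP_8f87b2_end.Inv1
import Pool.Agent.Work.MP_8f87b2_end.End
import Pool.Agent.Work.MP_8f87b2_end.Trip

/-!
# The phase of the E-pairs

`Indep1`, `Indep2`: the statements of the drift lemma (helper97; typed by helper62, helper13), hypotheses
here. `EData p q j r f`: the hop pair `p, q` is realised over the word `r : X j`. `HopC.edata`: `r` starts
with `()` if it has a part `1`, with `(())` if it has no part `1` but a part `2`.
-/

set_option autoImplicit false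

namespace Pool.OddHC

open Finset BinaryTree Multiset

variable {j k : ℕ}

/-- drift lemma, level 1 -/
def Indep1 : Prop := ∀ {j k : ℕ} (u : X j) (e : List ℕ), e.length = 2 * j + 1 → ∀ w : X k,
  w.1 = ins u.1 e → ∀ (q : ZMod (2 * j + 1)) (p : ZMod (2 * k + 1)), ∃ i, sp u i = q ∧ sp w i = p

/-- drift lemma, level 2 -/
def Indep2 : Prop := ∀ {l j k : ℕ} (v : X l) (e : List ℕ), e.length = 2 * l + 1 → ∀ u : X j,
  u.1 = ins v.1 e → ∀ w : X k, w.1 = inf u.1 → ∀ (q : ZMod (2 * l + 1)) (p : ZMod (2 * k + 1)),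
  ∃ i, sp v i = q ∧ sp w i = p

/-- the pair `p, q` is realised by `()X`, `X()`, `X = C(r, f)` -/
structure EData (p q : Cyc k) (j : ℕ) (r : X j) (f : ZMod (2 * j + 1) → ℕ) : Prop where
  hj : 1 ≤ j
  size : j + pkn r.1 + (∑ z, f z + 1) = k
  rp : Rd p = ⟨j, cyc r⟩
  rq : Rd q = ⟨j, cyc r⟩
  words : (∀ w w' : X k, w.1 = .nil △ ins r.1 (lf f) →
      w'.1 = app (ins r.1 (lf f)) (.nil △ .nil) → cyc w = p ∧ cyc w' = q) ∨
    (∀ w w' : X k, w.1 = .nil △ ins r.1 (lf f) →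
      w'.1 = app (ins r.1 (lf f)) (.nil △ .nil) → cyc w = q ∧ cyc w' = p)

/-- all phases of a hop pair -/
theorem HopC.phases {p q : Cyc k} (h : HopC p q) :
    ∃ (j : ℕ) (u0 : X j) (f : ZMod (2 * j + 1) → ℕ) (x : ZMod (2 * j + 1)),
      Rd p = ⟨j, cyc u0⟩ ∧
      ∀ i, sp u0 i = x → EData p q j ((TT ^ i) u0) (fun z => f (z + x)) := by
  obtain ⟨j, u0, f, x, hj, hk, hp, hq, -, hw⟩ := h.words
  refine ⟨j, u0, f, x + 1, hp, fun i hi => ?_⟩
  have hc : cyc u0 = cyc ((TT ^ i) u0) := cyc_eq.2 ⟨(i : ℤ), by rw [zpow_natCast]⟩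
  refine ⟨hj, ?_, by rw [hp, hc], by rw [hq, hc], ?_⟩
  · rw [pkn_pow, sum_shift]
    exact hk
  · rcases hw with hw | hw
    · exact Or.inr fun w w' h1 h2 => hw i hi w w' h1 h2
    · exact Or.inl fun w w' h1 h2 => hw i hi w w' h1 h2

/-- a word over `(TT ^ i) u` -/
theorem pow_ins (u : X j) {e : List ℕ} (he : e.length = 2 * j + 1) {w : X k}
    (hw : w.1 = ins u.1 e) : ∃ a : ZMod (2 * j + 1) → ℕ, e = lf a ∧
      ∀ i, ((TT ^ i) w).1 = ins ((TT ^ i) u).1 (lf (fun x => a (x + sp u i))) := by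
  obtain ⟨a, rfl⟩ := exists_lf he
  have h0 : j + pkn u.1 + ∑ x, a x = k := by
    have h2 := (ins_num u.1 (lf a) (by rw [X_num]; exact he)).1
    rw [← hw, X_num, X_num, lf_sum] at h2
    exact h2.symm
  have hz : w = phi u a h0 := Subtype.ext hw
  refine ⟨a, rfl, fun i => ?_⟩
  rw [hz, pow_phi]
  rfl

/-- a bead in the first gap -/
theorem ins_bead (t : BinaryTree Unit) {n : ℕ} [NeZero n] {a : ZMod n → ℕ} (h : 1 ≤ a 0) :
    ∃ r', ins t (lf a) = .nil △ r' := by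
  obtain ⟨l, hl, -⟩ := lf_cons a
  obtain ⟨m, hm⟩ : ∃ m, a 0 = m + 1 := ⟨a 0 - 1, by omega⟩
  rw [hl, hm, ins_succ]
  exact ⟨_, rfl⟩

/-- PHASE, level 1, prescribed letter `q` of the reduced word -/
theorem phase1_at (hI : Indep1) {l : ℕ} (u : X l) {e : List ℕ} (he : e.length = 2 * l + 1)
    {w : X j} (hw : w.1 = ins u.1 e) (q : ZMod (2 * l + 1)) (p : ZMod (2 * j + 1)) :
    ∃ i, sp w i = p ∧ sp u i = q ∧ ∃ a : ZMod (2 * l + 1) → ℕ, e = lf a ∧
      ((TT ^ i) w).1 = ins ((TT ^ i) u).1 (lf (fun x => a (x + q))) := by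
  obtain ⟨i, h1, h2⟩ := hI u e he w hw q p
  obtain ⟨a, ha, h3⟩ := pow_ins u he hw
  refine ⟨i, h2, h1, a, ha, ?_⟩
  rw [h3, h1]

/-- PHASE, level 1 -/
theorem exists_phase1 (hI : Indep1) (w : X j) (p : ZMod (2 * j + 1))
    (h : 1 ≤ (cont w.1).count 1) : ∃ i, sp w i = p ∧ ∃ r', ((TT ^ i) w).1 = .nil △ r' := by
  obtain ⟨l, u, e, he, hw, _, _⟩ := red_ex w
  obtain ⟨a, rfl⟩ := exists_lf he
  rw [hw, count_one_ins u.1 _ (by rw [X_num]; exact he), lf_sum] at h
  obtain ⟨y, hy⟩ : ∃ y, 1 ≤ a y := by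
    by_contra hcon
    push Not at hcon
    have : ∑ x, a x = 0 := Finset.sum_eq_zero fun x _ => by have := hcon x; omega
    omega
  obtain ⟨i, h1, h2, a', ha', h3⟩ := phase1_at hI u he hw y p
  have : a = a' := lf_inj ha'
  subst this
  refine ⟨i, h1, ?_⟩
  rw [h3]
  exact ins_bead _ (by simpa using hy)

theorem inf_pow {l : ℕ} (u : X l) {w : X j} (hw : w.1 = inf u.1) (i : ℕ) :
    ((TT ^ i) w).1 = inf ((TT ^ i) u).1 := by
  have he : (List.replicate (2 * u.1.numNodes + 1) 0).length = 2 * l + 1 := by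
    rw [List.length_replicate, X_num]
  obtain ⟨a, ha, h⟩ := pow_ins u he hw
  have ha0 : a = fun _ => 0 := by
    apply lf_inj
    rw [← ha, lf_zero, X_num]
  rw [h, ha0, lf_zero]
  unfold inf
  rw [X_num]

/-- a word without a part `1` is a bare inflation -/
theorem exists_inf (w : X j) (h : (cont w.1).count 1 = 0) :
    ∃ (l : ℕ) (u : X l), w.1 = inf u.1 := by
  obtain ⟨l, u, e, he, hw, _, _⟩ := red_ex w
  have he' : e.length = 2 * u.1.numNodes + 1 := by rw [X_num]; exact he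
  rw [hw, count_one_ins u.1 e he'] at h
  have he0 : e = List.replicate (2 * u.1.numNodes + 1) 0 := by
    rw [List.eq_replicate_iff]
    refine ⟨he', fun x hx => ?_⟩
    have := List.single_le_sum (by simp) x hx
    omega
  exact ⟨l, u, by rw [hw, he0]; rfl⟩

theorem count_two_inf (t : BinaryTree Unit) : (cont (inf t)).count 2 = (cont t).count 1 := by
  rw [cont_inf]
  have h : (2 : ℕ) = (· + 1) 1 := rfl
  rw [h, Multiset.count_map_eq_count' _ _ (add_left_injective 1)]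

/-- PHASE, level 2 -/
theorem exists_phase2 (hI : Indep2) (w : X j) (p : ZMod (2 * j + 1))
    (h0 : (cont w.1).count 1 = 0) (h : 1 ≤ (cont w.1).count 2) :
    ∃ i, sp w i = p ∧ ∃ r', ((TT ^ i) w).1 = (.nil △ .nil) △ r' := by
  obtain ⟨l, u, hwu⟩ := exists_inf w h0
  rw [hwu, count_two_inf] at h
  obtain ⟨n, v, e, he, hu, _, _⟩ := red_ex u
  obtain ⟨a, rfl⟩ := exists_lf he
  rw [hu, count_one_ins v.1 _ (by rw [X_num]; exact he), lf_sum] at h
  obtain ⟨y, hy⟩ : ∃ y, 1 ≤ a y := by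
    by_contra hcon
    push Not at hcon
    have : ∑ x, a x = 0 := Finset.sum_eq_zero fun x _ => by have := hcon x; omega
    omega
  obtain ⟨i, h1, h2⟩ := hI v _ he u hu w hwu y p
  refine ⟨i, h2, ?_⟩
  obtain ⟨a', ha', h3⟩ := pow_ins v he hu
  have : a = a' := lf_inj ha'
  subst this
  have h4 := h3 i
  rw [h1] at h4
  obtain ⟨r', hr'⟩ := ins_bead ((TT ^ i) v).1 (a := fun x => a (x + y)) (by simpa using hy)
  rw [hr'] at h4
  refine ⟨inf r', ?_⟩
  rw [inf_pow u hwu, h4, inf_node]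
  rfl

/-- the word starts with a light component, if it has a light part -/
def Low (r : BinaryTree Unit) : Prop :=
  (1 ≤ (cont r).count 1 → ∃ r', r = .nil △ r') ∧
  ((cont r).count 1 = 0 → 1 ≤ (cont r).count 2 → ∃ r', r = (.nil △ .nil) △ r')

theorem cont_pow (u : X j) (i : ℕ) : cont ((TT ^ i) u).1 = cont u.1 :=
  (cont_same ⟨(i : ℤ), by rw [zpow_natCast]⟩).symm

/-- **E-RULE**: every hop pair is realised over a word `r` with a light first component -/
theorem HopC.edata (h1 : Indep1) (h2 : Indep2) {p q : Cyc k} (h : HopC p q) :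
    ∃ (j : ℕ) (r : X j) (f : ZMod (2 * j + 1) → ℕ), EData p q j r f ∧ Low r.1 := by
  obtain ⟨j, u0, f, x, hp, hE⟩ := h.phases
  by_cases c1 : 1 ≤ (cont u0.1).count 1
  · obtain ⟨i, hi, r', hr'⟩ := exists_phase1 h1 u0 x c1
    refine ⟨j, (TT ^ i) u0, _, hE i hi, ?_, ?_⟩
    · intro _
      exact ⟨r', hr'⟩
    · intro h0
      rw [cont_pow] at h0
      omega
  · by_cases c2 : 1 ≤ (cont u0.1).count 2
    · obtain ⟨i, hi, r', hr'⟩ := exists_phase2 h2 u0 x (by omega) c2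
      refine ⟨j, (TT ^ i) u0, _, hE i hi, ?_, ?_⟩
      · intro h0
        rw [cont_pow] at h0
        omega
      · intro _ _
        exact ⟨r', hr'⟩
    · obtain ⟨j', u0', f', x', hj', hk', hp', hq', ⟨i, hi⟩, hw'⟩ := h.words
      have : ∃ i, sp u0 i = x := by
        have hj : 1 ≤ j := by
          rw [hp] at hp'
          have := congrArg Sigma.fst hp'
          simp only at this
          omega
        exact exists_sp hj u0 x
      obtain ⟨i, hi⟩ := this
      refine ⟨j, (TT ^ i) u0, _, hE i hi, ?_, ?_⟩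
      · intro h0
        rw [cont_pow] at h0
        omega
      · intro _ h0
        rw [cont_pow] at h0
        omega

/-- the E-gadget of a hop pair -/
theorem EData.gadget {p q : Cyc k} (hpq : p ≠ q) {j : ℕ} {r : X j} {f : ZMod (2 * j + 1) → ℕ}
    (h : EData p q j r f) : ∃ a b c : X k,
      a.1 = ins r.1 (lf f) △ .nil ∧ b.1 = app (ins r.1 (lf f)) (.nil △ .nil) ∧
      c.1 = .nil △ ins r.1 (lf f) ∧ ins r.1 (lf f) ≠ .nil ∧
      ((cyc b = p ∧ cyc c = q) ∨ (cyc b = q ∧ cyc c = p)) ∧ htc p + 1 = htc (cyc a) ∧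
      htc q + 1 = htc (cyc a) ∧ (pDG {a, b, c} p q ∅).Abs := by
  obtain ⟨R, hR⟩ : ∃ R, R = ins r.1 (lf f) := ⟨_, rfl⟩
  have hnum : R.numNodes + 1 = k := by
    have h1 := (ins_num r.1 (lf f) (by rw [lf_length, X_num])).1
    rw [← hR, lf_sum, X_num] at h1
    have := h.size
    omega
  have hRn : R ≠ .nil := by
    rintro h0
    rw [h0] at hnum
    have h1 := h.size
    have h2 := h.hj
    change 0 + 1 = k at hnum
    omega
  obtain ⟨a, b, c, ha, hb, hc⟩ := e_words hnum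
  have hw := h.words
  rw [← hR] at hw ⊢
  have hh := ht_pos hRn
  have e1 : htc (cyc a) = ht R + 1 := by rw [htc_cyc, ha, ht_node, ht]; omega
  have e2 : htc (cyc b) = ht R := by rw [htc_cyc, hb, ht_app, ht_node, ht]; omega
  have e3 : htc (cyc c) = ht R := by rw [htc_cyc, hc, ht_node, ht]; omega
  refine ⟨a, b, c, ha, hb, hc, hRn, ?_⟩
  rcases hw with hw | hw
  · obtain ⟨h1, h2⟩ := hw c b hc hb
    refine ⟨Or.inr ⟨h2, h1⟩, by rw [← h1, e3, e1], by rw [← h2, e2, e1], ?_⟩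
    rw [← h1, ← h2, pDG_swap]
    exact e_abs hRn ha hb hc (by rw [h1, h2]; exact hpq.symm)
  · obtain ⟨h1, h2⟩ := hw c b hc hb
    refine ⟨Or.inl ⟨h2, h1⟩, by rw [← h2, e2, e1], by rw [← h1, e3, e1], ?_⟩
    rw [← h1, ← h2]
    exact e_abs hRn ha hb hc (by rw [h1, h2]; exact hpq)

end Pool.OddHC
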