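import Pool.Agent.Work.MP_8f87b2_end.Inv2

/-!
# Involutions with several light levels

`glue_step`: one more level. `exists_iota3`: three levels (E-pairs; pairs of leftovers over E-pairs of the
reduced cycles; pairs of leftovers of leftovers over E-pairs two levels lower).
-/

set_option autoImplicit false

namespace Pool.OddHC

open Finset BinaryTree Multiset

variable {j k : ℕ}

/-- the data of the E-involution on all sizes -/
structure I1OK (lo i1 : ∀ k, Cyc k → Cyc k) : Prop where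
  ok : ∀ k, LoOK (lo k)
  inv : ∀ k (p : Cyc k), i1 k (i1 k p) = p
  rd : ∀ k (p : Cyc k), Rd (i1 k p) = Rd p
  hop : ∀ k (p : Cyc k), i1 k p = p ∨ HopC p (i1 k p)
  fix : ∀ k (p : Cyc k), i1 k p = p ↔ p = lo k p ∧ oddF (Rd p).1 ((contc p).count 1)

theorem exists_I1 {lo : ∀ k, Cyc k → Cyc k} (hlo : ∀ k, LoOK (lo k)) :
    ∃ i1 : ∀ k, Cyc k → Cyc k, I1OK lo i1 := by
  have h : ∀ j, ∃ i1 : Cyc j → Cyc j, (∀ p, i1 (i1 p) = p) ∧ (∀ p, Rd (i1 p) = Rd p) ∧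
      (∀ p, i1 p = p ∨ HopC p (i1 p)) ∧
      ∀ p, i1 p = p ↔ p = lo j p ∧ oddF (Rd p).1 ((contc p).count 1) := fun j => exists_i1 (hlo j)
  choose i1 h1 h2 h3 h4 using h
  exact ⟨i1, hlo, h1, h2, h3, h4⟩

theorem contc_eq (p : Cyc k) :
    contc p = (contc (Rd p).2).map (· + 1) + replicate ((contc p).count 1) 1 := by
  obtain ⟨j, u, e, w, hw, he, hwe, hR, h1, h2, h3, h4⟩ := exists_over p
  rw [hR, ← h3]
  exact h4

theorem Rd_size (p : Cyc k) : (Rd p).1 + pkc (Rd p).2 + (contc p).count 1 = k := by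
  obtain ⟨j, u, e, w, hw, he, hwe, hR, h1, h2, h3, h4⟩ := exists_over p
  rw [hR, ← h3]
  change j + pkc (cyc u) + e.sum = k
  rw [pkc_cyc]
  omega

/-- `contc` of a cycle from its reduction and the number of beads -/
theorem contc_of {p q : Cyc k} (h1 : contc (Rd p).2 = contc (Rd q).2)
    (h2 : (contc p).count 1 = (contc q).count 1) : contc p = contc q := by
  rw [contc_eq p, contc_eq q, h1, h2]

/-- ONE MORE LEVEL -/
theorem glue_step {lo i1 : ∀ k, Cyc k → Cyc k} (h : I1OK lo i1) (I2 : ∀ j, Cyc j → Cyc j)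
    (g1 : ∀ j (p : Cyc j), I2 j (I2 j p) = p) (g2 : ∀ j (p : Cyc j), contc (I2 j p) = contc p) :
    ∃ I3 : ∀ k, Cyc k → Cyc k, (∀ k (p : Cyc k), I3 k (I3 k p) = p) ∧
      (∀ k (p : Cyc k), contc (I3 k p) = contc p) ∧
      (∀ k (p : Cyc k), i1 k p ≠ p → I3 k p = i1 k p) ∧
      (∀ k (p : Cyc k), i1 k p = p → i1 k (I3 k p) = I3 k p ∧
        Rd (I3 k p) = ⟨(Rd p).1, I2 _ (Rd p).2⟩) ∧
      ∀ k (p : Cyc k), I3 k p = p ↔ i1 k p = p ∧ I2 _ (Rd p).2 = (Rd p).2 := by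
  have key : ∀ k, ∃ ι : Cyc k → Cyc k, (∀ p, ι (ι p) = p) ∧ (∀ p, i1 k p ≠ p → ι p = i1 k p) ∧
      (∀ p, i1 k p = p → i1 k (ι p) = ι p ∧ Rd (ι p) = ⟨(Rd p).1, I2 _ (Rd p).2⟩) ∧
      ∀ p, ι p = p ↔ i1 k p = p ∧ I2 _ (Rd p).2 = (Rd p).2 := by
    intro k
    obtain ⟨ι, e1, e2, e3, e4⟩ := glue_inv (C := Cyc k) (D := RD) Rd (i1 k) (h.inv k) (by
        intro x y hx hy hxy
        rw [((h.fix k x).1 hx).1, ((h.fix k y).1 hy).1, (h.ok k).fam _ _ hxy])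
      (fun d => ⟨d.1, I2 d.1 d.2⟩) (by
        rintro ⟨j, U⟩
        simp only [g1]) (by
        intro x hx
        obtain ⟨hx1, hx2⟩ := (h.fix k x).1 hx
        have hs := Rd_size x
        have hpk : pkc (I2 _ (Rd x).2) = pkc (Rd x).2 := by
          unfold pkc
          rw [g2]
        obtain ⟨p, hp1, hp2⟩ := exists_Rd (k := k) (I2 _ (Rd x).2) ((contc x).count 1)
          (by rw [hpk]; exact hs)
        refine ⟨lo k p, ?_, ?_⟩
        · rw [h.fix]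
          refine ⟨(h.ok k).fam _ _ ((h.ok k).rd p).symm, ?_⟩
          rw [(h.ok k).rd, Rd_count ((h.ok k).rd p), hp2, hp1]
          exact hx2
        · rw [(h.ok k).rd, hp1])
    refine ⟨ι, e1, e2, e3, fun p => ?_⟩
    rw [e4]
    constructor
    · rintro ⟨a1, a2⟩
      refine ⟨a1, ?_⟩
      have a3 : (⟨(Rd p).1, I2 (Rd p).1 (Rd p).2⟩ : RD) = ⟨(Rd p).1, (Rd p).2⟩ := a2
      exact eq_of_heq (Sigma.mk.inj_iff.1 a3).2
    · rintro ⟨a1, a2⟩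
      refine ⟨a1, ?_⟩
      change (⟨(Rd p).1, I2 (Rd p).1 (Rd p).2⟩ : RD) = Rd p
      rw [a2]
  choose I3 k1 k2 k3 k4 using key
  refine ⟨I3, k1, ?_, k2, k3, k4⟩
  intro k p
  by_cases hp : i1 k p = p
  · obtain ⟨a1, a2⟩ := k3 k p hp
    apply contc_of
    · rw [a2]
      exact g2 _ _
    · have s1 := Rd_size p
      have s2 := Rd_size (I3 k p)
      rw [a2] at s2
      have hpk : pkc (I2 (Rd p).1 (Rd p).2) = pkc (Rd p).2 := by
        unfold pkc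
        rw [g2]
      simp only [hpk] at s2
      omega
  · rw [k2 k p hp]
    exact Rd_contc (h.rd k p)

/-- THREE LIGHT LEVELS -/
theorem exists_iota3 {lo : ∀ k, Cyc k → Cyc k} (hlo : ∀ k, LoOK (lo k)) :
    ∃ (i1 i2 i3 : ∀ j, Cyc j → Cyc j), I1OK lo i1 ∧
      (∀ k (p : Cyc k), i2 k (i2 k p) = p) ∧ (∀ k (p : Cyc k), contc (i2 k p) = contc p) ∧
      (∀ k (p : Cyc k), i1 k p ≠ p → i2 k p = i1 k p) ∧
      (∀ k (p : Cyc k), i1 k p = p → i1 k (i2 k p) = i2 k p ∧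
        Rd (i2 k p) = ⟨(Rd p).1, i1 _ (Rd p).2⟩) ∧
      (∀ k (p : Cyc k), i2 k p = p ↔ i1 k p = p ∧ i1 _ (Rd p).2 = (Rd p).2) ∧
      (∀ k (p : Cyc k), i3 k (i3 k p) = p) ∧ (∀ k (p : Cyc k), contc (i3 k p) = contc p) ∧
      (∀ k (p : Cyc k), i1 k p ≠ p → i3 k p = i1 k p) ∧
      (∀ k (p : Cyc k), i1 k p = p → i1 k (i3 k p) = i3 k p ∧
        Rd (i3 k p) = ⟨(Rd p).1, i2 _ (Rd p).2⟩) ∧
      ∀ k (p : Cyc k), i3 k p = p ↔ i1 k p = p ∧ i2 _ (Rd p).2 = (Rd p).2 := by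
  obtain ⟨i1, h⟩ := exists_I1 hlo
  obtain ⟨i2, a1, a2, a3, a4, a5⟩ := glue_step h i1 h.inv (fun j p => Rd_contc (h.rd j p))
  obtain ⟨i3, b1, b2, b3, b4, b5⟩ := glue_step h i2 a1 a2
  exact ⟨i1, i2, i3, h, a1, a2, a3, a4, a5, b1, b2, b3, b4, b5⟩

end Pool.OddHC
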