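import Pool.Agent.Work.MP_8f87b2_end.PairL3
import Pool.Agent.Work.MP_8f87b2_h99.Ty9
import Pool.Agent.Work.MP_8f87b2_top.TopId

/-!
# Type L3 exists

`exists_is9`: the nine words from the two new words. `EData.l3_pair`: over a level-3 pair, at any phase `r`, any beads of the
middle: `Is9 (lp 1) (lp 1) S {p, q} g`, `S = C(inf C(r, f), e)`.
-/

set_option autoImplicit false

namespace Pool.OddHC

open Finset BinaryTree Multiset Pool.OddHop

variable {i j k l : ℕ}

/-- all nine words have the same size -/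
theorem w9L_num (P Q S : BinaryTree Unit) (hS : S ≠ .nil) {i : ℕ} (hi : i < 9) :
    (w9L P Q S (xT S) i).numNodes = P.numNodes + Q.numNodes + S.numNodes + 2 := by
  have hx := xT_num hS
  have n0 : (BinaryTree.nil : BinaryTree Unit).numNodes = 0 := rfl
  have n1 : ∀ A B : BinaryTree Unit, (A △ B).numNodes = A.numNodes + B.numNodes + 1 := fun _ _ => rfl
  interval_cases i <;> simp only [w9L, num_w1, num_app', hx, n0, n1] <;> omega

/-- the nine words from the two new ones -/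
theorem exists_is9 {P Q S : BinaryTree Unit} (hP : ht P + 2 ≤ ht S) (hQ : ht Q + 2 ≤ ht S)
    (two : ht S < S.numNodes) {w0 w1 : X k} (h0 : w0.1 = app S ((P △ Q) △ .nil))
    (h1 : w1.1 = app P (Q △ .nil) △ S) (hne : cyc w0 ≠ cyc w1) :
    ∃ g, Is9 P Q S {cyc w0, cyc w1} g := by
  classical
  have hS : S ≠ .nil := ne_of_ht (h := 0) (by omega)
  have e0 : w0.1 = w9L P Q S (xT S) 0 := h0
  have e1 : w1.1 = w9L P Q S (xT S) 1 := h1
  have hk : P.numNodes + Q.numNodes + S.numNodes + 2 = k := by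
    rw [← w9L_num P Q S hS (i := 0) (by norm_num), ← e0, X_num]
  have hw : ∃ w : ℕ → X k, ∀ i < 9, (w i).1 = w9L P Q S (xT S) i := by
    refine ⟨fun i => if h : i < 9 then ⟨w9L P Q S (xT S) i, mem_treesOfNumNodesEq.2
      ((w9L_num P Q S hS h).trans hk)⟩ else w0, fun i hi => ?_⟩
    simp only [dif_pos hi]
  obtain ⟨w, hw⟩ := hw
  have a0 : w 0 = w0 := Subtype.ext ((hw 0 (by norm_num)).trans e0.symm)
  have a1 : w 1 = w1 := Subtype.ext ((hw 1 (by norm_num)).trans e1.symm)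
  refine ⟨gad9 w, w, ⟨hP, hQ, two, hw, by rw [a0, a1]; exact hne⟩, by rw [a0, a1], rfl⟩

/-- the word of a hop pair has two solitons at least -/
theorem EData.two {W W₂ : Cyc l} (hne : W ≠ W₂) {r : X i} {f : ZMod (2 * i + 1) → ℕ}
    (hE : EData W W₂ i r f) : ht (ins r.1 (lf f)) < (ins r.1 (lf f)).numNodes := by
  obtain ⟨R, hR⟩ : ∃ R, R = ins r.1 (lf f) := ⟨_, rfl⟩
  have hw := hE.words
  rw [← hR] at hw ⊢
  by_contra hc
  have hh : ht R = R.numNodes := le_antisymm (ht_le R) (by omega)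
  have hnum : R.numNodes + 1 = l := by
    have h1 := (ins_num r.1 (lf f) (by rw [lf_length, X_num])).1
    rw [← hR, lf_sum, X_num] at h1
    have := hE.size
    omega
  have hR1 : 1 ≤ R.numNodes := by
    have := hE.hj
    have := hE.size
    omega
  obtain ⟨v, hv⟩ : ∃ v : X l, v.1 = .nil △ R := ⟨⟨_, mem_treesOfNumNodesEq.2 (by
    change 0 + R.numNodes + 1 = l
    omega)⟩, rfl⟩
  obtain ⟨v', hv'⟩ : ∃ v' : X l, v'.1 = app R (.nil △ .nil) := ⟨⟨_, mem_treesOfNumNodesEq.2 (by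
    rw [num_app]
    change R.numNodes + 1 = l
    omega)⟩, rfl⟩
  have hs : cyc v = cyc v' := by
    by_cases h3 : 3 ≤ l
    · apply cyc_eq.2
      apply same_sub h3
      · rw [hv, ht_node]
        have : ht (BinaryTree.nil : BinaryTree Unit) = 0 := rfl
        omega
      · rw [hv', ht_app]
        have : ht (BinaryTree.nil △ BinaryTree.nil : BinaryTree Unit) = 1 := rfl
        omega
    · have h1 : R.numNodes = 1 := by omega
      have h2 : R = .nil △ .nil := by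
        cases R with
        | nil => simp [BinaryTree.numNodes] at h1
        | node _ A B =>
          have h4 : A.numNodes + B.numNodes + 1 = 1 := h1
          rw [num_nil (t := A) (by omega), num_nil (t := B) (by omega)]
      rw [h2] at hv hv'
      have h5 : v = v' := Subtype.ext (hv.trans hv'.symm)
      rw [h5]
  rcases hw with hw | hw
  · obtain ⟨e1, e2⟩ := hw v v' hv hv'
    exact hne (by rw [← e1, ← e2, hs])
  · obtain ⟨e1, e2⟩ := hw v v' hv hv'
    exact hne (by rw [← e1, ← e2, hs])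

/-- **L3-PAIR** over a level-3 pair, at the phase `r` -/
theorem EData.l3_pair {W W₂ : Cyc l} {r : X i} {f : ZMod (2 * i + 1) → ℕ}
    (hE : EData W W₂ i r f) {V V₂ : Cyc j} (hne : V ≠ V₂) (hV : Rd V = ⟨l, W⟩) (hV₂ : Rd V₂ = ⟨l, W₂⟩)
    (h0 : (contc V).count 1 = 0) (h0' : (contc V₂).count 1 = 0) {m : ℕ} (hk : j + pkc V + m = k)
    {e : List ℕ} (he : e.length = 2 * (inf (ins r.1 (lf f))).numNodes + 1) (hs : e.sum + 1 = m)
    (h2 : m = 2 → e = midL (inf (ins r.1 (lf f))).numNodes 1) :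
    ∃ (p q : Cyc k) (g : DG k), Rd p = ⟨j, V⟩ ∧ Rd q = ⟨j, V₂⟩ ∧
      (m = 2 → oddF j 2 → IsTwo p ∧ IsTwo q) ∧
      Is9 (lp 1) (lp 1) (ins (inf (ins r.1 (lf f))) e) {p, q} g := by
  have hWne : W ≠ W₂ := by
    rintro rfl
    exact hne (Rd_unique (hV.trans hV₂.symm) h0)
  obtain ⟨w0, w1, hw0, hw1, hcne, hRn, hRd, htwo⟩ := hE.l3_words hne hV hV₂ h0 h0' hk he hs h2
  have htw := hE.two hWne
  obtain ⟨R, hR⟩ : ∃ R, R = ins r.1 (lf f) := ⟨_, rfl⟩
  rw [← hR] at hw0 hw1 hRn htw he ⊢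
  have hi1 := ht_inf hRn
  have hi2 := ht_ins (inf R) e he (inf_ne_nil hRn)
  have hlp : ht (lp 1) = 1 := rfl
  have hR1 : 1 ≤ ht R := by
    rw [ht_eq]
    by_contra hc
    have h3 : cont R = 0 := by
      rw [Multiset.eq_zero_iff_forall_notMem]
      intro x hx
      have h4 := Multiset.le_sup hx
      have h5 := cont_pos R x hx
      omega
    exact hRn (cont_eq_zero.1 h3)
  have n1 : (inf R).numNodes = R.numNodes + pkn R := by
    have := (ins_num R (List.replicate (2 * R.numNodes + 1) 0) (by simp)).1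
    change (inf R).numNodes = _ at this
    rw [this]
    simp
  have n2 := (ins_num (inf R) e he).1
  have p1 : pkn (inf R) = pkn R := by
    rw [← cont_card, cont_inf, Multiset.card_map, cont_card]
  have p2 : 1 ≤ pkn R := by
    rw [← cont_card]
    by_contra hc
    exact hRn (cont_eq_zero.1 (Multiset.card_eq_zero.1 (by omega)))
  obtain ⟨g, hg⟩ := exists_is9 (P := lp 1) (Q := lp 1) (S := ins (inf R) e) (by omega) (by omega)
    (by omega) hw0 hw1 hcne
  rcases hRd with ⟨e1, e2⟩ | ⟨e1, e2⟩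
  · exact ⟨cyc w0, cyc w1, g, e1, e2, htwo, hg⟩
  · exact ⟨cyc w1, cyc w0, g, e2, e1, fun a b => (htwo a b).symm, by rw [Set.pair_comm]; exact hg⟩

/-- TYPE L3: the nine words `S((())())`, `(()(()))S`, .., `S = C(inf C(r, f), ()^n in the middle)`, `r` low -/
def TyL3 (F : Set (Cyc k)) (g : DG k) : Prop :=
  ∃ (i : ℕ) (r : X i) (f : ZMod (2 * i + 1) → ℕ) (n : ℕ), 1 ≤ i ∧ Low r.1 ∧
    Is9 (lp 1) (lp 1) (ins (inf (ins r.1 (lf f))) (midL (inf (ins r.1 (lf f))).numNodes n)) F g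

/-- **TYPE L3 EXISTS** over every level-3 pair, `m ≥ 1` -/
theorem tyL3_of_hop {W W₂ : Cyc l} (h : HopC W W₂) {V V₂ : Cyc j} (hne : V ≠ V₂)
    (hV : Rd V = ⟨l, W⟩) (hV₂ : Rd V₂ = ⟨l, W₂⟩) (h0 : (contc V).count 1 = 0)
    (h0' : (contc V₂).count 1 = 0) {m : ℕ} (hm : 1 ≤ m) (hk : j + pkc V + m = k) :
    ∃ (p q : Cyc k) (g : DG k), Rd p = ⟨j, V⟩ ∧ Rd q = ⟨j, V₂⟩ ∧
      (m = 2 → oddF j 2 → IsTwo p ∧ IsTwo q) ∧ TyL3 {p, q} g := by
  obtain ⟨i, r, f, hE, hlow⟩ := h.edata'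
  obtain ⟨p, q, g, h1, h2, h3, h4⟩ := hE.l3_pair hne hV hV₂ h0 h0' hk
    (e := midL (inf (ins r.1 (lf f))).numNodes (m - 1)) (midL_length _ _)
    (by rw [midL_sum]; omega) (by rintro rfl; rfl)
  exact ⟨p, q, g, h1, h2, h3, i, r, f, m - 1, hE.hj, hlow, h4⟩

end Pool.OddHC
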