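import Pool.Agent.Work.MP_8f87b2_end.Gam
import Pool.Agent.Work.MP_8f87b2_h13.IndepAll
import Pool.Agent.Work.MP_8f87b2_mid.Types

/-!
# The pairs of the middle

`tyE_of_hop`: a hop pair is a group of type `TyE`. `exists_pairs`: symmetric choice of the leftovers of the moved families.
`mid_pairs`: the involution of `Cyc k` with E-pairs, pairs over the moved reduced cycles (any pair gadget `TyP`) and the
removal sets of the nodes as fixed points. `tyL_exists`: the L-pair over a hop of the reduced cycles.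
-/

set_option autoImplicit false

namespace Pool.OddHC

open Finset BinaryTree Multiset Pool.OddHop

variable {i j k : ℕ}

/-- **TYPE E EXISTS** for every hop pair -/
theorem tyE_of_hop {p q : Cyc k} (hpq : p ≠ q) (h : HopC p q) : ∃ g, TyE {p, q} g := by
  obtain ⟨j, r, f, hE, hlow⟩ := h.edata'
  obtain ⟨a, b, c, ha, hb, hc, hR, hbc, h1, h2, -⟩ := hE.gadget hpq
  refine ⟨pDG {a, b, c} (cyc b) (cyc c) ∅, j, r, f, hE.hj, hlow, a, b, c, ha, hb, hc, ?_⟩
  rcases hbc with ⟨e1, e2⟩ | ⟨e1, e2⟩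
  · exact ⟨by rw [e1, e2]; exact hpq, by rw [e1, e2]; omega, by rw [e1]; omega,
      by rw [e1, e2], rfl⟩
  · exact ⟨by rw [e1, e2]; exact hpq.symm, by rw [e1, e2]; omega, by rw [e1]; omega,
      by rw [e1, e2, Set.pair_comm], rfl⟩

/-- symmetric choice of a pair of members of the families `d`, `I d` -/
theorem exists_pairs {C D : Type*} [Nonempty C] (R : C → D) (I : D → D) (hI : ∀ d, I (I d) = d)
    (M : D → Prop) (hM : ∀ d, M d → M (I d)) (good : C → C → Prop)
    (hs : ∀ p q, good p q → good q p)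
    (h : ∀ d, M d → I d ≠ d → ∃ p q, R p = d ∧ R q = I d ∧ good p q) :
    ∃ P : D → C, ∀ d, M d → I d ≠ d → R (P d) = d ∧ good (P d) (P (I d)) := by
  classical
  obtain ⟨c0⟩ : Nonempty C := inferInstance
  obtain ⟨F, hF1, hF2⟩ := exists_sym (D := C × C) I hI
    (fun x d d' => M d → R x.1 = d ∧ R x.2 = d' ∧ good x.1 x.2) (by
      intro d hd
      by_cases hm : M d
      · obtain ⟨p, q, h1, h2, h3⟩ := h d hm hd
        exact ⟨(p, q), Or.inl fun _ => ⟨h1, h2, h3⟩⟩
      · exact ⟨(c0, c0), Or.inl fun h => absurd h hm⟩)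
  refine ⟨fun d => if R (F d).1 = d then (F d).1 else (F d).2, ?_⟩
  intro d hm hd
  have hd' : ¬ d = I d := fun h => hd h.symm
  rcases hF2 d hd with h1 | h1
  · obtain ⟨e1, e2, e3⟩ := h1 hm
    simp only [hF1, e1, if_true, if_neg hd']
    exact ⟨trivial, e3⟩
  · obtain ⟨e1, e2, e3⟩ := h1 (hM d hm)
    simp only [hF1, e1, if_true, if_neg hd]
    exact ⟨e2, hs _ _ e3⟩

/-- **THE PAIRS OF THE MIDDLE.** `I` : involution of the reduced cycles, `TyP` : the pair gadgets over the moved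
reduced cycles, `D` : the removal sets of the nodes. -/
theorem mid_pairs (I : ∀ j, Cyc j → Cyc j) (hI : ∀ j p, I j (I j p) = p)
    (hcI : ∀ j p, contc (I j p) = contc p) (TyP : Set (Cyc k) → DG k → Prop)
    (hP : ∀ (j : ℕ) (U : Cyc j) (m : ℕ), I j U ≠ U → j + pkc U + m = k → oddF j m →
      ∃ (p q : Cyc k) (g : DG k), Rd p = ⟨j, U⟩ ∧ Rd q = ⟨j, I j U⟩ ∧
        (m = 2 → oddF j 2 → IsTwo p ∧ IsTwo q) ∧ TyP {p, q} g)
    (D : RD → Set (Cyc k)) (hD : ∀ d : RD, I d.1 d.2 = d.2 → RemOK d (D d)) :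
    ∃ ι : Cyc k → Cyc k, (∀ p, ι (ι p) = p) ∧ (∀ p, contc (ι p) = contc p) ∧
      (∀ p, ι p ≠ p → ∃ g, TyE {p, ι p} g ∨ TyP {p, ι p} g) ∧
      ∀ p, ι p = p ↔ I _ (Rd p).2 = (Rd p).2 ∧ p ∈ D (Rd p) := by
  classical
  -- the families
  by_cases hne : Nonempty (Cyc k)
  swap
  · exact ⟨id, fun p => absurd ⟨p⟩ hne, fun p => absurd ⟨p⟩ hne, fun p => absurd ⟨p⟩ hne,
      fun p => absurd ⟨p⟩ hne⟩
  let ID : RD → RD := fun d => ⟨d.1, I d.1 d.2⟩
  have hID : ∀ d, ID (ID d) = d := by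
    rintro ⟨j, U⟩
    change (⟨j, I j (I j U)⟩ : RD) = _
    rw [hI]
  have hIDne : ∀ d : RD, ID d ≠ d ↔ I d.1 d.2 ≠ d.2 := by
    rintro ⟨j, U⟩
    constructor
    · intro h h'
      apply h
      change (⟨j, I j U⟩ : RD) = ⟨j, U⟩
      rw [h']
    · intro h h'
      exact h (eq_of_heq (Sigma.mk.inj_iff.1 h').2)
  let mm : RD → ℕ := fun d => k - (d.1 + pkc d.2)
  let M : RD → Prop := fun d => (∃ p : Cyc k, Rd p = d) ∧ oddF d.1 (mm d)
  have hmm : ∀ p : Cyc k, mm (Rd p) = (contc p).count 1 := by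
    intro p
    have := Rd_size p
    change k - _ = _
    omega
  have hpkI : ∀ d : RD, pkc (ID d).2 = pkc d.2 := by
    intro d
    unfold pkc
    rw [show contc (ID d).2 = contc d.2 from hcI _ _]
  have hmI : ∀ d, mm (ID d) = mm d := by
    intro d
    change k - ((ID d).1 + pkc (ID d).2) = k - (d.1 + pkc d.2)
    rw [hpkI]
  have hM : ∀ d, M d → M (ID d) := by
    rintro d ⟨⟨p, hp⟩, h2⟩
    refine ⟨?_, by rw [hmI]; exact h2⟩
    have h3 := Rd_size p
    rw [hp] at h3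
    obtain ⟨q, hq, _⟩ := exists_Rd (k := k) (I d.1 d.2) ((contc p).count 1) (by
      have := hpkI d
      change d.1 + pkc (ID d).2 + _ = k
      rw [this]
      exact h3)
    exact ⟨q, hq⟩
  let good : Cyc k → Cyc k → Prop := fun p q =>
    ((contc p).count 1 = 2 → oddF (Rd p).1 2 → IsTwo p) ∧
      ((contc q).count 1 = 2 → oddF (Rd q).1 2 → IsTwo q) ∧ ∃ g, TyP {p, q} g
  obtain ⟨P, hPP⟩ := exists_pairs (C := Cyc k) (D := RD) Rd ID hID M hM good (by
      rintro p q ⟨h1, h2, g, h3⟩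
      exact ⟨h2, h1, g, by rw [Set.pair_comm]; exact h3⟩) (by
      rintro d ⟨⟨p0, hp0⟩, hodd⟩ hne
      have h3 := Rd_size p0
      have h4 := hmm p0
      rw [hp0] at h3 h4
      have h4' : mm d = k - (d.1 + pkc d.2) := rfl
      obtain ⟨p, q, g, hp, hq, h5, h6⟩ := hP d.1 d.2 (mm d) ((hIDne d).1 hne) (by omega) hodd
      refine ⟨p, q, hp, hq, ?_, ?_, g, h6⟩
      · intro h7 h8
        rw [← hmm, hp] at h7
        rw [hp] at h8
        exact (h5 h7 h8).1
      · intro h7 h8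
        have h9 : Rd q = ID d := hq
        rw [← hmm, h9, hmI] at h7
        rw [h9] at h8
        exact (h5 h7 h8).2)
  -- the leftovers
  obtain ⟨lo, hlo, hlC⟩ := exists_lo (k := k)
    (fun d => {q | M d → ID d ≠ d → q = P d}) (by
      rintro d ⟨p, hp⟩
      by_cases hc : M d ∧ ID d ≠ d
      · obtain ⟨h1, h2, h3, g, h4⟩ := hPP d hc.1 hc.2
        refine ⟨P d, fun _ _ => rfl, h1, fun h5 h6 => ?_⟩
        exact h2 h5 (by rw [h1]; exact h6)
      · -- the pile
        obtain ⟨j, U⟩ := d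
        obtain ⟨u, rfl⟩ : ∃ u : X j, cyc u = U := Quotient.exists_rep U
        have h3 := Rd_size p
        rw [hp] at h3
        change j + pkc (cyc u) + (contc p).count 1 = k at h3
        rw [pkc_cyc] at h3
        have hs : ∑ z : ZMod (2 * j + 1), (if z = 0 then (contc p).count 1 else 0) =
            (contc p).count 1 := by
          rw [Finset.sum_ite_eq' univ 0 (fun _ => (contc p).count 1), if_pos (mem_univ _)]
        refine ⟨cyc (phi u (fun z => if z = 0 then (contc p).count 1 else 0) (by rw [hs]; exact h3)),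
          fun h1 h2 => absurd ⟨h1, h2⟩ hc, Rd_ins (lf_length _) rfl, fun h5 _ => ?_⟩
        exact IsPile.two ⟨j, u, 0, _, _, rfl, rfl⟩ h5)
  obtain ⟨i1, ι, g1, g2, g3, g4, g5, g6, g7, g8, g9, g10⟩ := exists_iotaD I hI hcI hlo D hD
  refine ⟨ι, g6, g7, ?_, ?_⟩
  · intro p hp
    by_cases h1 : i1 p = p
    · by_cases h2 : I _ (Rd p).2 = (Rd p).2
      · exact absurd ((g10 p).2 ⟨h1, h2⟩) hp
      · obtain ⟨e1, e2⟩ := (g4 p h2).1 h1
        obtain ⟨e3, e4⟩ := g9 p h1
        have h2' : I _ (Rd (ι p)).2 ≠ (Rd (ι p)).2 := by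
          rw [e4]
          change I _ (I _ (Rd p).2) ≠ I _ (Rd p).2
          rw [hI]
          exact fun h => h2 h.symm
        obtain ⟨e5, e6⟩ := (g4 (ι p) h2').1 e3
        have hMp : M (Rd p) := ⟨⟨p, rfl⟩, by rw [hmm]; exact e2⟩
        have hMq : M (Rd (ι p)) := ⟨⟨ι p, rfl⟩, by rw [hmm]; exact e6⟩
        have a1 := hlC p hMp ((hIDne _).2 h2)
        have a2 := hlC (ι p) hMq ((hIDne _).2 h2')
        rw [← e1] at a1
        rw [← e5, e4] at a2
        obtain ⟨_, _, _, g, h4⟩ := hPP (Rd p) hMp ((hIDne _).2 h2)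
        refine ⟨g, Or.inr ?_⟩
        rw [← a1] at h4
        have a3 : P (ID (Rd p)) = ι p := a2.symm
        rw [a3] at h4
        exact h4
    · have e := g8 p h1
      rw [e]
      rcases g3 p with h2 | h2
      · exact absurd h2 h1
      · obtain ⟨g, hg⟩ := tyE_of_hop (fun h => h1 h.symm) h2
        exact ⟨g, Or.inl hg⟩
  · intro p
    rw [g10]
    constructor
    · rintro ⟨h1, h2⟩
      exact ⟨h2, (g5 p h2).1 h1⟩
    · rintro ⟨h1, h2⟩
      exact ⟨(g5 p h1).2 h2, h1⟩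

end Pool.OddHC
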