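import Pool.Agent.Work.MP_8f87b2_end.Gam

/-!
# The involution of the middle with prescribed pairs

`RemA A d D`: the family `d` without `D` is perfectly matched by pairs with `A p q`. `mid_inv`: the involution of `Cyc k`
over an involution `I` of the reduced cycles: pairs `A` inside the families, pairs `Pr p q` of the leftovers over moved
reduced cycles, the sets `D d` of the nodes fixed.
-/

set_option autoImplicit false

namespace Pool.OddHC

open Finset BinaryTree Multiset Pool.OddHop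

variable {i j k : ℕ}

/-- the family `d` minus `D` is perfectly matched by pairs in the relation `A` -/
def RemA (A : Cyc k → Cyc k → Prop) (d : RD) (D : Set (Cyc k)) : Prop :=
  ∃ ι : Cyc k → Cyc k, ∀ p, Rd p = d → Rd (ι p) = d ∧ ι (ι p) = p ∧ (ι p = p ∨ A p (ι p)) ∧
    (ι p = p ↔ p ∈ D)

theorem RemA.mono {A A' : Cyc k → Cyc k → Prop} {d : RD} {D : Set (Cyc k)} (h : RemA A d D)
    (hA : ∀ p q, Rd p = d → Rd q = d → p ≠ q → A p q → A' p q) : RemA A' d D := by
  obtain ⟨ι, hι⟩ := h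
  refine ⟨ι, fun p hp => ?_⟩
  obtain ⟨h1, h2, h3, h4⟩ := hι p hp
  refine ⟨h1, h2, ?_, h4⟩
  by_cases h5 : ι p = p
  · exact Or.inl h5
  · rcases h3 with h3 | h3
    · exact absurd h3 h5
    · exact Or.inr (hA p (ι p) hp h1 (fun h => h5 h.symm) h3)

theorem RemA.congr {A : Cyc k → Cyc k → Prop} {d : RD} {D D' : Set (Cyc k)} (h : RemA A d D)
    (hD : ∀ p, Rd p = d → (p ∈ D ↔ p ∈ D')) : RemA A d D' := by
  obtain ⟨ι, hι⟩ := h
  refine ⟨ι, fun p hp => ?_⟩
  obtain ⟨h1, h2, h3, h4⟩ := hι p hp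
  exact ⟨h1, h2, h3, by rw [h4, hD p hp]⟩

theorem RemOK.remA {d : RD} {D : Set (Cyc k)} (h : RemOK d D) : RemA HopC d D := h

theorem remA_all (A : Cyc k → Cyc k → Prop) (d : RD) (D : Set (Cyc k)) (h : ∀ p, Rd p = d → p ∈ D) :
    RemA A d D :=
  ⟨id, fun p hp => ⟨hp, rfl, Or.inl rfl, ⟨fun _ => h p hp, fun _ => rfl⟩⟩⟩

/-- transport from the classes on the ring, any relation `Aq` of the classes -/
theorem RemA.of_classes (A : Cyc k → Cyc k → Prop) (hj : 1 ≤ j) (u0 : X j) (m : ℕ)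
    (h : j + pkn u0.1 + m = k) (D' : Ms (2 * j + 1) m → Prop)
    (Aq : Ms (2 * j + 1) m → Ms (2 * j + 1) m → Prop)
    (hA : ∀ a b : Ms (2 * j + 1) m, Aq a b →
      A (cyc (phi u0 a.1 (by rw [a.2]; exact h))) (cyc (phi u0 b.1 (by rw [b.2]; exact h))))
    (H : ∀ (g : ℕ) (hg : g ∣ 2 * j + 1), ∃ ι : Quotient (msSetoid m hg) → Quotient (msSetoid m hg),
      (∀ q, ι (ι q) = q) ∧
      (∀ q, ι q = q ∨ ∃ a b, Aq a b ∧ q = Quotient.mk (msSetoid m hg) a ∧
        ι q = Quotient.mk (msSetoid m hg) b) ∧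
      ∀ q, ι q = q ↔ ∃ a, D' a ∧ q = Quotient.mk (msSetoid m hg) a) :
    RemA A ⟨j, cyc u0⟩ {p : Cyc k | ∃ a, D' a ∧ p = cyc (phi u0 a.1 (by rw [a.2]; exact h))} := by
  classical
  obtain ⟨g, hg, F, hinj, hF, -, hsurj⟩ := family hj u0 m h
  obtain ⟨ι, hι1, hι2, hι3⟩ := H g hg
  have hRF : ∀ q, Rd (F q) = ⟨j, cyc u0⟩ := by
    intro q
    obtain ⟨a, rfl⟩ := Quotient.exists_rep q
    rw [hF]
    exact Rd_ins (e := lf a.1) (lf_length a.1) rfl
  have hFs : ∀ p : Cyc k, Rd p = ⟨j, cyc u0⟩ → ∃ q, F q = p := by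
    intro p hp
    obtain ⟨i, e, w, hw, he, hwe, h1, h2⟩ := Rd_fibre u0 hp
    obtain ⟨q, hq⟩ := hsurj i e he (by omega) w hwe
    exact ⟨q, hq.trans hw⟩
  choose G hG using hFs
  refine ⟨fun p => if h : Rd p = ⟨j, cyc u0⟩ then F (ι (G p h)) else p, fun p hp => ?_⟩
  have hGF : ∀ q (h : Rd (F q) = ⟨j, cyc u0⟩), G (F q) h = q := fun q h => hinj (hG _ h)
  simp only [dif_pos hp, hRF, dif_pos, hGF, hι1]
  refine ⟨trivial, hG p hp, ?_, ?_⟩
  · rcases hι2 (G p hp) with h | ⟨a, b, hab, h1, h2⟩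
    · left
      rw [h, hG]
    · right
      have h3 := hA a b hab
      rw [← hF, ← hF, ← h1, ← h2, hG] at h3
      exact h3
  · constructor
    · intro h5
      have h6 : ι (G p hp) = G p hp := hinj (h5.trans (hG p hp).symm)
      obtain ⟨a, ha, hq⟩ := (hι3 _).1 h6
      refine ⟨a, ha, ?_⟩
      rw [← hF, ← hq, hG]
    · rintro ⟨a, ha, hpa⟩
      have h6 : G p hp = Quotient.mk _ a := hinj (by rw [hG, hF, hpa])
      have h7 := (hι3 (G p hp)).2 ⟨a, ha, h6⟩
      rw [h7, hG]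

theorem exists_iA (A : Cyc k → Cyc k → Prop) (D : RD → Set (Cyc k)) (hD : ∀ d, RemA A d (D d)) :
    ∃ i1 : Cyc k → Cyc k, (∀ p, i1 (i1 p) = p) ∧ (∀ p, Rd (i1 p) = Rd p) ∧
      (∀ p, i1 p = p ∨ A p (i1 p)) ∧ ∀ p, i1 p = p ↔ p ∈ D (Rd p) := by
  choose I hI using hD
  refine ⟨fun p => I (Rd p) p, ?_, ?_, ?_, ?_⟩
  · intro p
    obtain ⟨h1, h2, _, _⟩ := hI (Rd p) p rfl
    simp only [h1]
    exact h2
  · intro p
    exact (hI (Rd p) p rfl).1
  · intro p
    exact (hI (Rd p) p rfl).2.2.1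
  · intro p
    exact (hI (Rd p) p rfl).2.2.2

/-- the content is determined by the content of the reduced cycle and the size -/
theorem contc_of_Rd {p q : Cyc k} (h : (Rd p).1 = (Rd q).1) (h' : contc (Rd p).2 = contc (Rd q).2) :
    contc p = contc q := by
  apply contc_of h'
  have s1 := Rd_size p
  have s2 := Rd_size q
  have h3 : pkc (Rd p).2 = pkc (Rd q).2 := by unfold pkc; rw [h']
  omega

open Classical in
/-- the leftover over `d` -/
noncomputable def pickL (x : Option (Cyc k × Cyc k)) (d : RD) : Option (Cyc k) :=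
  match x with
  | none => none
  | some (p, q) => if Rd p = d then some p else some q

theorem pickL_none (d : RD) : pickL (k := k) none d = none := rfl

theorem pickL_pos {p q : Cyc k} {d : RD} (h : Rd p = d) : pickL (some (p, q)) d = some p := if_pos h

theorem pickL_neg {p q : Cyc k} {d : RD} (h : ¬ Rd p = d) : pickL (some (p, q)) d = some q := if_neg h

/-- **THE INVOLUTION OF THE MIDDLE** -/
theorem mid_inv (A Pr : Cyc k → Cyc k → Prop) (hPr : ∀ p q, Pr p q → Pr q p)
    (I : ∀ j, Cyc j → Cyc j) (hI : ∀ j p, I j (I j p) = p) (hcI : ∀ j p, contc (I j p) = contc p)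
    (hmv : ∀ (j : ℕ) (U : Cyc j), I j U ≠ U →
      (RemA (k := k) A ⟨j, U⟩ ∅ ∧ RemA (k := k) A ⟨j, I j U⟩ ∅) ∨
      ∃ p q : Cyc k, Rd p = ⟨j, U⟩ ∧ Rd q = ⟨j, I j U⟩ ∧ RemA A ⟨j, U⟩ {p} ∧
        RemA A ⟨j, I j U⟩ {q} ∧ Pr p q)
    (D : RD → Set (Cyc k)) (hD : ∀ d : RD, I d.1 d.2 = d.2 → RemA A d (D d)) :
    ∃ ι : Cyc k → Cyc k, (∀ p, ι (ι p) = p) ∧ (∀ p, contc (ι p) = contc p) ∧
      (∀ p, ι p ≠ p → A p (ι p) ∨ Pr p (ι p)) ∧
      ∀ p, ι p = p ↔ I _ (Rd p).2 = (Rd p).2 ∧ p ∈ D (Rd p) := by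
  classical
  let ID : RD → RD := fun d => ⟨d.1, I d.1 d.2⟩
  have hID : ∀ d, ID (ID d) = d := by
    rintro ⟨j, U⟩
    change (⟨j, I j (I j U)⟩ : RD) = _
    rw [hI]
  have hIDne : ∀ d : RD, ID d ≠ d ↔ I d.1 d.2 ≠ d.2 := by
    rintro ⟨j, U⟩
    constructor
    · intro h h'
      apply h
      change (⟨j, I j U⟩ : RD) = ⟨j, U⟩
      rw [h']
    · intro h h'
      exact h (eq_of_heq (Sigma.mk.inj_iff.1 h').2)
  obtain ⟨F, hF1, hF2⟩ := exists_sym (D := Option (Cyc k × Cyc k)) ID hID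
    (fun x d d' => match x with
      | none => RemA (k := k) A d ∅ ∧ RemA (k := k) A d' ∅
      | some (p, q) => Rd p = d ∧ Rd q = d' ∧ RemA A d {p} ∧ RemA A d' {q} ∧ Pr p q) (by
      rintro ⟨j, U⟩ hd
      rcases hmv j U ((hIDne _).1 hd) with h | ⟨p, q, h1, h2, h3, h4, h5⟩
      · exact ⟨none, Or.inl h⟩
      · exact ⟨some (p, q), Or.inl ⟨h1, h2, h3, h4, h5⟩⟩)
  -- the leftover over `d`
  let L : RD → Option (Cyc k) := fun d => pickL (F d) d
  have hL : ∀ d, ID d ≠ d → (L d = none ∧ L (ID d) = none ∧ RemA (k := k) A d ∅) ∨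
      ∃ p q, L d = some p ∧ L (ID d) = some q ∧ Rd p = d ∧ Rd q = ID d ∧ RemA A d {p} ∧ Pr p q := by
    intro d hd
    have hd' : ¬ d = ID d := fun h => hd h.symm
    have e1 := hF1 d
    have e2 := hF2 d hd
    obtain ⟨x, hx⟩ : ∃ x, F d = x := ⟨_, rfl⟩
    rw [hx] at e1 e2
    have l1 : L d = pickL x d := by
      change pickL (F d) d = _
      rw [hx]
    have l2 : L (ID d) = pickL x (ID d) := by
      change pickL (F (ID d)) (ID d) = _
      rw [e1]
    rcases x with _ | ⟨p, q⟩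
    · left
      rcases e2 with e2 | e2
      · exact ⟨l1, l2, e2.1⟩
      · exact ⟨l1, l2, e2.2⟩
    · right
      rcases e2 with ⟨a1, a2, a3, a4, a5⟩ | ⟨a1, a2, a3, a4, a5⟩
      · refine ⟨p, q, ?_, ?_, a1, a2, a3, a5⟩
        · rw [l1, pickL_pos a1]
        · rw [l2, pickL_neg]
          rw [a1]; exact hd'
      · refine ⟨q, p, ?_, ?_, a2, a1, a4, hPr _ _ a5⟩
        · rw [l1, pickL_neg]
          rw [a1]; exact hd
        · rw [l2, pickL_pos a1]
  -- removal sets
  let D' : RD → Set (Cyc k) := fun d => if ID d = d then D d else {p | L d = some p}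
  have hD' : ∀ d, RemA A d (D' d) := by
    intro d
    by_cases h : ID d = d
    · change RemA A d (if ID d = d then D d else _)
      rw [if_pos h]
      exact hD d (by by_contra hc; exact (hIDne d).2 hc h)
    · change RemA A d (if ID d = d then D d else _)
      rw [if_neg h]
      rcases hL d h with ⟨h1, _, h2⟩ | ⟨p, q, h1, h2, h3, h4, h5, h6⟩
      · refine h2.congr fun p _ => ?_
        rw [Set.mem_setOf_eq, h1]
        simp
      · refine h5.congr fun r _ => ?_
        rw [Set.mem_setOf_eq, h1, Set.mem_singleton_iff]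
        constructor
        · rintro rfl; rfl
        · intro h; exact (Option.some.inj h).symm
  obtain ⟨i1, g1, g2, g3, g4⟩ := exists_iA A D' hD'
  have g5 : ∀ p, ID (Rd p) ≠ Rd p → (i1 p = p ↔ L (Rd p) = some p) := by
    intro p hp
    rw [g4]
    change p ∈ (if ID (Rd p) = Rd p then D (Rd p) else _) ↔ _
    rw [if_neg hp]
    rfl
  have g6 : ∀ p, ID (Rd p) = Rd p → (i1 p = p ↔ p ∈ D (Rd p)) := by
    intro p hp
    rw [g4]
    change p ∈ (if ID (Rd p) = Rd p then D (Rd p) else _) ↔ _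
    rw [if_pos hp]
  have hmvd : ∀ d, ID d ≠ d → ID (ID d) ≠ ID d := by
    intro d h h'
    rw [hID] at h'
    exact h h'.symm
  -- the partner
  have hpar : ∀ p, i1 p = p → ID (Rd p) ≠ Rd p → ∃ q, L (ID (Rd p)) = some q ∧ Rd q = ID (Rd p) ∧
      Pr p q := by
    intro p h1 h2
    have h3 := (g5 p h2).1 h1
    rcases hL (Rd p) h2 with ⟨e1, _, _⟩ | ⟨p', q, e1, e2, e3, e4, e5, e6⟩
    · rw [e1] at h3; simp at h3
    · rw [e1] at h3
      have := Option.some.inj h3
      subst this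
      exact ⟨q, e2, e4, e6⟩
  choose y hy1 hy2 hy3 using hpar
  let ι : Cyc k → Cyc k := fun p => if h : i1 p = p then (if h' : ID (Rd p) ≠ Rd p then y p h h' else p)
    else i1 p
  have e1 : ∀ p, i1 p ≠ p → ι p = i1 p := fun p h => dif_neg h
  have e2 : ∀ p (h : i1 p = p) (h' : ID (Rd p) ≠ Rd p), ι p = y p h h' := by
    intro p h h'
    change (if h : i1 p = p then _ else _) = _
    rw [dif_pos h, dif_pos h']
  have e3 : ∀ p (_ : i1 p = p) (_ : ¬ ID (Rd p) ≠ Rd p), ι p = p := by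
    intro p h h'
    change (if h : i1 p = p then _ else _) = _
    rw [dif_pos h, dif_neg h']
  have hyf : ∀ p h h', ID (Rd (y p h h')) ≠ Rd (y p h h') := by
    intro p h h'
    rw [hy2]
    exact hmvd _ h'
  have hyi : ∀ p h h', i1 (y p h h') = y p h h' := by
    intro p h h'
    rw [g5 _ (hyf p h h'), hy2]
    exact hy1 p h h'
  refine ⟨ι, ?_, ?_, ?_, ?_⟩
  · intro p
    by_cases h : i1 p = p
    · by_cases h' : ID (Rd p) ≠ Rd p
      · rw [e2 p h h', e2 _ (hyi p h h') (hyf p h h')]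
        have h3 := hy1 (y p h h') (hyi p h h') (hyf p h h')
        have h4 : ID (Rd (y p h h')) = Rd p := by rw [hy2, hID]
        rw [h4, (g5 p h').1 h] at h3
        exact (Option.some.inj h3).symm
      · rw [e3 p h h', e3 p h h']
    · have h3 : i1 (i1 p) ≠ i1 p := by
        rw [g1]
        exact fun h4 => h h4.symm
      rw [e1 p h, e1 _ h3, g1]
  · intro p
    by_cases h : i1 p = p
    · by_cases h' : ID (Rd p) ≠ Rd p
      · rw [e2 p h h']
        have h3 := hy2 p h h'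
        apply contc_of_Rd
        · rw [h3]
        · rw [h3]
          exact hcI _ _
      · rw [e3 p h h']
    · rw [e1 p h]
      exact Rd_contc (g2 p)
  · intro p hp
    by_cases h : i1 p = p
    · by_cases h' : ID (Rd p) ≠ Rd p
      · rw [e2 p h h']
        exact Or.inr (hy3 p h h')
      · exact absurd (e3 p h h') hp
    · rw [e1 p h]
      rcases g3 p with h2 | h2
      · exact absurd h2 h
      · exact Or.inl h2
  · intro p
    by_cases h : i1 p = p
    · by_cases h' : ID (Rd p) ≠ Rd p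
      · constructor
        · intro h3
          rw [e2 p h h'] at h3
          have h4 := hy2 p h h'
          rw [h3] at h4
          exact absurd h4.symm h'
        · rintro ⟨h3, _⟩
          exact absurd h3 ((hIDne _).1 h')
      · rw [e3 p h h']
        have h'' : ID (Rd p) = Rd p := not_not.1 h'
        constructor
        · intro _
          refine ⟨?_, (g6 p h'').1 h⟩
          by_contra hc
          exact (hIDne _).2 hc h''
        · intro _
          rfl
    · rw [e1 p h]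
      constructor
      · intro h3
        exact absurd h3 h
      · rintro ⟨h3, h4⟩
        have h5 : ID (Rd p) = Rd p := by
          by_contra hc
          exact (hIDne _).1 hc h3
        exact absurd ((g6 p h5).2 h4) h

end Pool.OddHC
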