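import Pool.Agent.Work.MP_8f87b2_h13.Fam
import Pool.Agent.Work.MP_8f87b2_und.Dir

/-!
# Assembly from an involution on the cycles of `T`

`ι` an involution on the cycles of `T` (partners), `root` a fixed point. For every `p ≠ root` a gadget with
the words `B p` whose new cycles are `p`, `ι p`. Gadgets of different pairs are disjoint, every other word
of `B p` has smaller rank, the arcs are `T`-paths with untouched inner words.
-/

set_option autoImplicit false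

namespace Pool.OddHC

open Finset Equiv Pool.Agent.Work.MP_8f87b2_co

variable {k : ℕ}

/-- the gadget of the cycle `p` with partner `q` -/
noncomputable def pairDG (B : Finset (X k)) (p q : Cyc k) (arcs : Set (X k × X k)) : DG k :=
  ⟨B, {w | cyc w = p ∨ cyc w = q}, arcs⟩

theorem pairDG_swap (B : Finset (X k)) (p q : Cyc k) (arcs : Set (X k × X k)) :
    pairDG B p q arcs = pairDG B q p arcs := by
  unfold pairDG
  congr 1
  ext w
  exact or_comm

/-- ASSEMBLY, pairs -/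
theorem pair_asm (hk : 1 ≤ k) (ι : Cyc k → Cyc k) (hι : ∀ p, ι (ι p) = p) (root : Cyc k)
    (hroot : ι root = root) (rk : Cyc k → ℕ) (hrk : ∀ p, rk (ι p) = rk p)
    (B : Cyc k → Finset (X k)) (arcs : Cyc k → Set (X k × X k))
    (hdis : ∀ p q, p ≠ root → q ≠ root → q ≠ p → q ≠ ι p → ∀ w ∈ B p, w ∉ B q)
    (hnew : ∀ p, p ≠ root → ∃ u ∈ B p, cyc u = p)
    (hnew' : ∀ p, p ≠ root → ∃ u ∈ B p, cyc u = ι p)
    (hold : ∀ p, p ≠ root → ∃ u ∈ B p, cyc u ≠ p ∧ cyc u ≠ ι p)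
    (hB : ∀ p, p ≠ root → ∀ w ∈ B p, cyc w = p ∨ cyc w = ι p ∨ cyc w = root ∨
      rk (cyc w) < rk p)
    (hpath : ∀ p, p ≠ root → ∀ a ∈ arcs p, ∃ n : ℕ, (TT ^ (n + 1)) a.1 = a.2 ∧ a.1 ∈ B p ∧
      ∀ i < n, (TT ^ (i + 1)) a.1 ∉ B p ∧
        ∀ q, q ≠ root → q ≠ p → q ≠ ι p → rk q ≤ rk p → (TT ^ (i + 1)) a.1 ∉ B q)
    (hAbs : ∀ p, p ≠ root → (pairDG (B p) p (ι p) (arcs p)).Abs) :
    2 * k + 1 ∈ compressionSet (oddGraph k) := by
  classical
  have : Fintype (Cyc k) := Fintype.ofFinite _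
  obtain ⟨o⟩ : Nonempty (Cyc k ≃ Fin (Fintype.card (Cyc k))) := ⟨Fintype.equivFin _⟩
  obtain ⟨r0, hr0⟩ := Quotient.exists_rep root
  change cyc r0 = root at hr0
  have hιroot : ∀ p, p ≠ root → ι p ≠ root := by
    intro p hp h
    apply hp
    rw [← hι p, h, hroot]
  -- the representatives
  let Γ := {p : Cyc k // p ≠ root ∧ o p ≤ o (ι p)}
  have hrep : ∀ p, p ≠ root → ∃ g : Γ, (p = g.1 ∨ p = ι g.1) ∧ rk g.1 = rk p := by
    intro p hp
    rcases le_total (o p) (o (ι p)) with h | h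
    · exact ⟨⟨p, hp, h⟩, Or.inl rfl, rfl⟩
    · refine ⟨⟨ι p, hιroot p hp, by rw [hι]; exact h⟩, Or.inr (hι p).symm, hrk p⟩
  have hdiff : ∀ g h : Γ, g ≠ h → h.1 ≠ g.1 ∧ h.1 ≠ ι g.1 := by
    rintro ⟨p, hp, hp'⟩ ⟨q, hq, hq'⟩ hne
    have h1 : q ≠ p := fun h => hne (Subtype.ext h.symm)
    refine ⟨h1, ?_⟩
    intro h
    change q = ι p at h
    subst h
    rw [hι] at hq'
    apply h1
    exact o.injective (le_antisymm hq' hp')
  apply dir_main hk (Γ := Γ) (fun g => pairDG (B g.1) g.1 (ι g.1) (arcs g.1))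
    (fun g => rk g.1) r0
  · intro g h hgh
    exact hdis g.1 h.1 g.2.1 h.2.1 (hdiff g h hgh).1 (hdiff g h hgh).2
  · intro g w w' hs hw
    have : cyc w = cyc w' := cyc_eq.2 hs
    change cyc w' = g.1 ∨ cyc w' = ι g.1
    rw [← this]
    exact hw
  · intro g w hw
    rcases hw with hw | hw
    · obtain ⟨u, hu, hu'⟩ := hnew g.1 g.2.1
      exact ⟨u, hu, cyc_eq.1 (hw.trans hu'.symm)⟩
    · obtain ⟨u, hu, hu'⟩ := hnew' g.1 g.2.1
      exact ⟨u, hu, cyc_eq.1 (hw.trans hu'.symm)⟩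
  · intro g
    obtain ⟨u, hu, h1, h2⟩ := hold g.1 g.2.1
    refine ⟨u, hu, ?_⟩
    rintro (h | h)
    · exact h1 h
    · exact h2 h
  · intro g h hgh w hw hw'
    obtain ⟨h1, h2⟩ := hdiff g h hgh
    rcases hw with hw | hw <;> rcases hw' with hw' | hw'
    · exact h1 (hw'.symm.trans hw)
    · apply h2
      rw [← hw, hw', hι]
    · exact h2 (hw'.symm.trans hw)
    · apply h1
      rw [← hι h.1, ← hw', hw, hι]
  · intro g hg
    rcases hg with h | h
    · exact g.2.1 (h.symm.trans hr0)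
    · exact hιroot _ g.2.1 (h.symm.trans hr0)
  · intro w
    by_cases h : cyc w = root
    · exact Or.inl (cyc_eq.1 (hr0.trans h.symm))
    · right
      obtain ⟨g, hg, _⟩ := hrep (cyc w) h
      exact ⟨g, hg⟩
  · intro g w hw
    rcases hB g.1 g.2.1 w hw with h | h | h | h
    · exact Or.inl (Or.inl h)
    · exact Or.inl (Or.inr h)
    · exact Or.inr (Or.inl (cyc_eq.1 (hr0.trans h.symm)))
    · by_cases h' : cyc w = root
      · exact Or.inr (Or.inl (cyc_eq.1 (hr0.trans h'.symm)))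
      · obtain ⟨g', hg', hr⟩ := hrep (cyc w) h'
        exact Or.inr (Or.inr ⟨g', by simp only [hr]; exact h, hg'⟩)
  · intro g s π hbu hg hs a ha
    obtain ⟨n, h1, h2, h3⟩ := hpath g.1 g.2.1 a ha
    have hd : ∀ g h : Γ, g ≠ h → ∀ w ∈ (pairDG (B g.1) g.1 (ι g.1) (arcs g.1)).B,
        w ∉ (pairDG (B h.1) h.1 (ι h.1) (arcs h.1)).B := by
      intro g h hgh
      exact hdis g.1 h.1 g.2.1 h.2.1 (hdiff g h hgh).1 (hdiff g h hgh).2
    refine fr_of_path (gad := fun g : Γ => pairDG (B g.1) g.1 (ι g.1) (arcs g.1)) hd hbu hg h2 n h1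
      (fun i hi => (h3 i hi).1) ?_
    intro i hi h hh
    have hgh : g ≠ h := by
      rintro rfl
      exact hg hh
    exact (h3 i hi).2 h.1 h.2.1 (hdiff g h hgh).1 (hdiff g h hgh).2 (hs h hh)
  · intro g
    exact hAbs g.1 g.2.1

end Pool.OddHC
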