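import Pool.Agent.Work.MP_8f87b2_end.Mid
import Pool.Agent.Work.MP_8f87b2_h71ae.ALT
import Pool.Agent.Work.MP_8f87b2_mid.Dis

/-!
# The pairs L and L3 exist

`EData.l_pair`: over a hop `U, U₂` of the reduced cycles (any phase `r`), `m ≥ 1` beads: the triple L with `p = q = 1` and
any list `e` of the other `m - 1` beads (`m = 2`: middle gap). `EData.l3_pair`: over a level-3 pair: the words
`S((())())`, `(()(()))S`.
-/

set_option autoImplicit false

namespace Pool.OddHC

open Finset BinaryTree Multiset Pool.OddHop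

variable {i j k : ℕ}

/-- **L-PAIR** over a hop of the reduced cycles, at the phase `r` -/
theorem EData.l_pair {U U₂ : Cyc j} (hne : U ≠ U₂) {r : X i} {f : ZMod (2 * i + 1) → ℕ}
    (hE : EData U U₂ i r f) {m : ℕ} (hk : j + pkc U + m = k) {e : List ℕ}
    (he : e.length = 2 * (ins r.1 (lf f)).numNodes + 1) (hs : e.sum + 1 = m)
    (h2 : m = 2 → e = midL (ins r.1 (lf f)).numNodes 1) :
    ∃ (p q : Cyc k) (g : DG k), Rd p = ⟨j, U⟩ ∧ Rd q = ⟨j, U₂⟩ ∧
      (m = 2 → oddF j 2 → IsTwo p ∧ IsTwo q) ∧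
      IsTri (lp 1) (ins (ins r.1 (lf f)) e) (lp 1) {p, q} g := by
  obtain ⟨R, hR⟩ : ∃ R, R = ins r.1 (lf f) := ⟨_, rfl⟩
  have hw := hE.words
  rw [← hR] at hw he h2 ⊢
  have hnum : R.numNodes + 1 = j := by
    have h1 := (ins_num r.1 (lf f) (by rw [lf_length, X_num])).1
    rw [← hR, lf_sum, X_num] at h1
    have := hE.size
    omega
  have hRn : R ≠ .nil := by
    rintro h0
    rw [h0] at hnum
    have h1 := hE.size
    have h2 := hE.hj
    change 0 + 1 = j at hnum
    omega
  obtain ⟨v, hv⟩ : ∃ v : X j, v.1 = .nil △ R := ⟨⟨_, mem_treesOfNumNodesEq.2 (by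
    change 0 + R.numNodes + 1 = j
    omega)⟩, rfl⟩
  obtain ⟨v', hv'⟩ : ∃ v' : X j, v'.1 = app R (.nil △ .nil) := ⟨⟨_, mem_treesOfNumNodesEq.2 (by
    rw [num_app]
    change R.numNodes + 1 = j
    omega)⟩, rfl⟩
  have hcvv : (cyc v = U ∧ cyc v' = U₂) ∨ (cyc v = U₂ ∧ cyc v' = U) := by
    rcases hw with hw | hw
    · exact Or.inl (hw v v' hv hv')
    · exact Or.inr (hw v v' hv hv')
  have hpk : pkn v.1 = pkc U := by
    have h4 : pkn v.1 = pkn v'.1 := by
      rw [← cont_card, ← cont_card, hv, hv', cont_app, cont_node]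
      rw [cont_node, cont_nil, add_zero, add_comm]
    rcases hcvv with ⟨h5, _⟩ | ⟨_, h5⟩
    · rw [← pkc_cyc, h5]
    · rw [h4, ← pkc_cyc, h5]
  obtain ⟨a, b, c, ha, hb, hc, hbe, hce, hb1, hc1, _, _⟩ := lw_words (k := k) hv hv' he
    (p := 1) (q := 1) le_rfl le_rfl (by rw [hpk]; omega)
  have hcb : cyc b ≠ cyc c := by
    intro h
    rw [h, hc1] at hb1
    have h5 := eq_of_heq (Sigma.mk.inj_iff.1 hb1).2
    rcases hcvv with ⟨h6, h7⟩ | ⟨h6, h7⟩
    · rw [h6, h7] at h5
      exact hne h5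
    · rw [h6, h7] at h5
      exact hne h5.symm
  have hhR := ht_ins_ge R e hRn
  have hlp : ht (lp 1) = 1 := rfl
  have hb2 : htc (cyc b) = ht (ins R e) := by
    rw [htc_cyc, hb, ht_w1, hlp]
    omega
  have hc2 : htc (cyc c) = ht (ins R e) := by
    rw [htc_cyc, hc, ht_w1, hlp]
    omega
  have ha2 : htc (cyc a) = ht (ins R e) + 1 := by
    rw [htc_cyc, ha, ht_w1, hlp]
    omega
  have htri : IsTri (lp 1) (ins R e) (lp 1) {cyc b, cyc c} (pDG {a, b, c} (cyc b) (cyc c) ∅) :=
    ⟨a, b, c, ha, hb, hc, hcb, by rw [hb2, hc2], by rw [hb2, ha2]; omega, rfl, rfl⟩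
  -- two beads
  have htwo : m = 2 → oddF j 2 → IsTwo (cyc b) ∧ IsTwo (cyc c) := by
    intro hm hod
    have hj2 := oddF_two_even hod
    have hem := h2 hm
    rw [hem] at hbe hce
    have hlen := midL_length R.numNodes 1
    constructor
    · refine isTwo_of_list (e := midL R.numNodes 1 ++ [1 - 1, 1]) ?_ hbe R.numNodes
        (2 * R.numNodes + 2) (by omega) (by omega) (Or.inr (by omega)) hj2 ?_
      · rw [List.length_append, hlen]
        simp
        omega
      · intro z hz
        by_cases h1 : z < 2 * R.numNodes + 1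
        · rw [List.getD_append _ _ _ _ (by rw [hlen]; exact h1), midL_getD,
            if_neg (show ¬ z = 2 * R.numNodes + 2 by omega), add_zero]
        · rw [List.getD_append_right _ _ _ _ (by rw [hlen]; omega), hlen,
            if_neg (show ¬ z = R.numNodes by omega)]
          have h3 : z = 2 * R.numNodes + 1 ∨ z = 2 * R.numNodes + 2 := by omega
          rcases h3 with rfl | rfl
          · simp
          · simp
    · refine isTwo_of_list (e := 1 :: (1 - 1) :: midL R.numNodes 1) ?_ hce 0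
        (R.numNodes + 2) (by omega) (by omega) (Or.inr (by omega)) hj2 ?_
      · rw [List.length_cons, List.length_cons, hlen]
        omega
      · intro z hz
        rcases z with _ | _ | z
        · simp
        · simp
        · rw [List.getD_cons_succ, List.getD_cons_succ, midL_getD,
            if_neg (show ¬ z + 1 + 1 = 0 by omega), zero_add]
          by_cases h3 : z = R.numNodes
          · rw [if_pos h3, if_pos (by omega)]
          · rw [if_neg h3, if_neg (by omega)]
  rcases hcvv with ⟨h6, h7⟩ | ⟨h6, h7⟩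
  · refine ⟨cyc c, cyc b, pDG {a, b, c} (cyc b) (cyc c) ∅, by rw [hc1, h6], by rw [hb1, h7],
      fun h8 h9 => (htwo h8 h9).symm, ?_⟩
    rw [Set.pair_comm]
    exact htri
  · exact ⟨cyc b, cyc c, _, by rw [hb1, h7], by rw [hc1, h6], htwo, htri⟩

/-- **TYPE L EXISTS** (Low phase, middle gap) -/
theorem tyL_of_hop {U U₂ : Cyc j} (hne : U ≠ U₂) (h : HopC U U₂) {m : ℕ} (hm : 1 ≤ m)
    (hk : j + pkc U + m = k) : ∃ (p q : Cyc k) (g : DG k), Rd p = ⟨j, U⟩ ∧ Rd q = ⟨j, U₂⟩ ∧
      (m = 2 → oddF j 2 → IsTwo p ∧ IsTwo q) ∧ TyL {p, q} g := by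
  obtain ⟨i, r, f, hE, -⟩ := h.edata'
  obtain ⟨p, q, g, h1, h2, h3, h4⟩ := hE.l_pair hne hk (e := midL (ins r.1 (lf f)).numNodes (m - 1))
    (midL_length _ _) (by rw [midL_sum]; omega) (by rintro rfl; rfl)
  have hnum : (ins r.1 (lf f)).numNodes + 1 = j := by
    have h1 := (ins_num r.1 (lf f) (by rw [lf_length, X_num])).1
    rw [lf_sum, X_num] at h1
    have := hE.size
    omega
  have hRn : ins r.1 (lf f) ≠ .nil := by
    rintro h0
    rw [h0] at hnum
    have h1 := hE.size
    have h2 := hE.hj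
    change 0 + 1 = j at hnum
    omega
  obtain ⟨n, hn⟩ : ∃ n, (ins r.1 (lf f)).numNodes = n + 1 := by
    have h1 := hE.size
    have h2 := hE.hj
    exact ⟨(ins r.1 (lf f)).numNodes - 1, by omega⟩
  refine ⟨p, q, g, h1, h2, h3, _, _, hRn, midL_length _ _, ?_, ?_, h4⟩
  · apply H1.fb_lv0 hRn (midL_length _ _)
    rw [hn]
    rfl
  · apply H1.lastB_ins hRn (midL_length _ _)
    rw [hn]
    unfold midL
    rw [List.replicate_succ' (n := n)]
    rw [← List.cons_append, ← List.append_assoc, List.getLastD_concat]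

end Pool.OddHC
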