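import Pool.Agent.Work.MP_8f87b2_end.PairL

/-!
# The words of the pair L3

Over a level-3 pair `V, V₂` (no part `1`, over a hop of `W, W₂`): the words `S((())())`, `(()(()))S` over `V, V₂`,
`S = C(R₁, e)`, `R₁ = inf C(r, f)`.
-/

set_option autoImplicit false

namespace Pool.OddHC

open Finset BinaryTree Multiset Pool.OddHop

variable {i j k l : ℕ}

/-- **L3-WORDS** over a level-3 pair, at the phase `r`, any beads `e` of the middle -/
theorem EData.l3_words {W W₂ : Cyc l} {r : X i} {f : ZMod (2 * i + 1) → ℕ}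
    (hE : EData W W₂ i r f) {V V₂ : Cyc j} (hne : V ≠ V₂) (hV : Rd V = ⟨l, W⟩) (hV₂ : Rd V₂ = ⟨l, W₂⟩)
    (h0 : (contc V).count 1 = 0) (h0' : (contc V₂).count 1 = 0) {m : ℕ} (hk : j + pkc V + m = k)
    {e : List ℕ} (he : e.length = 2 * (inf (ins r.1 (lf f))).numNodes + 1) (hs : e.sum + 1 = m)
    (h2 : m = 2 → e = midL (inf (ins r.1 (lf f))).numNodes 1) :
    ∃ w0 w1 : X k,
      w0.1 = app (ins (inf (ins r.1 (lf f))) e) ((lp 1 △ lp 1) △ .nil) ∧
      w1.1 = app (lp 1) (lp 1 △ .nil) △ ins (inf (ins r.1 (lf f))) e ∧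
      cyc w0 ≠ cyc w1 ∧ ins r.1 (lf f) ≠ .nil ∧
      ((Rd (cyc w0) = ⟨j, V⟩ ∧ Rd (cyc w1) = ⟨j, V₂⟩) ∨
        (Rd (cyc w0) = ⟨j, V₂⟩ ∧ Rd (cyc w1) = ⟨j, V⟩)) ∧
      (m = 2 → oddF j 2 → IsTwo (cyc w0) ∧ IsTwo (cyc w1)) := by
  obtain ⟨u, u', hu, hu', hRn, -, hcuu⟩ := hE.infU hV hV₂ h0 h0'
  obtain ⟨R, hR⟩ : ∃ R, R = inf (ins r.1 (lf f)) := ⟨_, rfl⟩
  rw [← hR] at hu hu' he h2 ⊢
  have hnj : R.numNodes + 2 = j := by
    have h1 := X_num u
    rw [hu] at h1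
    change (0 + 0 + 1) + R.numNodes + 1 = j at h1
    omega
  have hpu : pkn u.1 = pkn R + 1 := by
    rw [hu]
    change 0 + (1 + 0 + 0) + pkn R = _
    ring
  have hpu' : pkn u'.1 = pkn R + 1 := by
    rw [hu', ← cont_card, cont_app, Multiset.card_add, cont_card, cont_card]
    rfl
  have hpk : pkn R + 1 = pkc V := by
    rcases hcuu with ⟨h5, _⟩ | ⟨_, h5⟩
    · rw [← hpu, ← pkc_cyc, h5]
    · rw [← hpu', ← pkc_cyc, h5]
  have hc1 : (0 :: 1 :: 0 :: 0 :: e).length = 2 * u.1.numNodes + 1 := by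
    rw [X_num]
    simp only [List.length_cons]
    omega
  have hb1 : (e ++ [0, 0, 1, 0]).length = 2 * u'.1.numNodes + 1 := by
    rw [List.length_append, he, X_num]
    simp
    omega
  have hc3 : ins u.1 (0 :: 1 :: 0 :: 0 :: e) = app (lp 1) (lp 1 △ .nil) △ ins R e := by
    rw [hu, ins_front2]
    rfl
  have hb3 : ins u'.1 (e ++ [0, 0, 1, 0]) = app (ins R e) ((lp 1 △ lp 1) △ .nil) := by
    rw [hu', ins_back2 _ _ _ _ _ _ he]
    rfl
  have hcn := (ins_num u.1 _ hc1).1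
  have hbn := (ins_num u'.1 _ hb1).1
  rw [X_num, hpu, hc3] at hcn
  rw [X_num, hpu', hb3] at hbn
  have hcs : (0 :: 1 :: 0 :: 0 :: e).sum = m := by
    simp only [List.sum_cons]
    omega
  have hbs : (e ++ [0, 0, 1, 0]).sum = m := by
    rw [List.sum_append]
    simp
    omega
  rw [hcs, hpk, hk] at hcn
  rw [hbs, hpk, hk] at hbn
  obtain ⟨w1, hw1⟩ : ∃ w1 : X k, w1.1 = app (lp 1) (lp 1 △ .nil) △ ins R e :=
    ⟨⟨_, mem_treesOfNumNodesEq.2 hcn⟩, rfl⟩
  obtain ⟨w0, hw0⟩ : ∃ w0 : X k, w0.1 = app (ins R e) ((lp 1 △ lp 1) △ .nil) :=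
    ⟨⟨_, mem_treesOfNumNodesEq.2 hbn⟩, rfl⟩
  have hw1' : w1.1 = ins u.1 (0 :: 1 :: 0 :: 0 :: e) := hw1.trans hc3.symm
  have hw0' : w0.1 = ins u'.1 (e ++ [0, 0, 1, 0]) := hw0.trans hb3.symm
  have hR1 : Rd (cyc w1) = ⟨j, cyc u⟩ := Rd_ins (by rw [hc1, X_num]) hw1'
  have hR0 : Rd (cyc w0) = ⟨j, cyc u'⟩ := Rd_ins (by rw [hb1, X_num]) hw0'
  have hRd : (Rd (cyc w0) = ⟨j, V⟩ ∧ Rd (cyc w1) = ⟨j, V₂⟩) ∨
        (Rd (cyc w0) = ⟨j, V₂⟩ ∧ Rd (cyc w1) = ⟨j, V⟩) := by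
    rcases hcuu with ⟨h5, h6⟩ | ⟨h5, h6⟩
    · exact Or.inr ⟨by rw [hR0, h6], by rw [hR1, h5]⟩
    · exact Or.inl ⟨by rw [hR0, h6], by rw [hR1, h5]⟩
  refine ⟨w0, w1, hw0, hw1, ?_, hRn, hRd, ?_⟩
  · intro h
    rw [h] at hRd
    rcases hRd with ⟨h5, h6⟩ | ⟨h5, h6⟩
    · exact hne (eq_of_heq (Sigma.mk.inj_iff.1 (h5.symm.trans h6)).2)
    · exact hne (eq_of_heq (Sigma.mk.inj_iff.1 (h6.symm.trans h5)).2)
  · intro hm hod
    have hj2 := oddF_two_even hod
    have hem := h2 hm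
    rw [hem] at hw1' hw0'
    have hlen := midL_length R.numNodes 1
    constructor
    · refine isTwo_of_list (e := midL R.numNodes 1 ++ [0, 0, 1, 0]) ?_ hw0' R.numNodes
        (2 * R.numNodes + 3) (by omega) (by omega) (Or.inr (by omega)) hj2 ?_
      · rw [List.length_append, hlen]
        simp
        omega
      · intro z hz
        by_cases h1 : z < 2 * R.numNodes + 1
        · rw [List.getD_append _ _ _ _ (by rw [hlen]; exact h1), midL_getD,
            if_neg (show ¬ z = 2 * R.numNodes + 3 by omega), add_zero]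
        · rw [List.getD_append_right _ _ _ _ (by rw [hlen]; omega), hlen,
            if_neg (show ¬ z = R.numNodes by omega)]
          have h3 : z = 2 * R.numNodes + 1 ∨ z = 2 * R.numNodes + 1 + 1 ∨
            z = 2 * R.numNodes + 1 + 2 ∨ z = 2 * R.numNodes + 1 + 3 := by omega
          rcases h3 with rfl | rfl | rfl | rfl
          · simp
          · simp
          · simp
          · simp
    · refine isTwo_of_list (e := 0 :: 1 :: 0 :: 0 :: midL R.numNodes 1) ?_ hw1' 1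
        (R.numNodes + 4) (by omega) (by omega) (Or.inr (by omega)) hj2 ?_
      · simp only [List.length_cons, hlen]
        omega
      · intro z hz
        rcases z with _ | _ | _ | _ | z
        · simp
        · simp
        · simp
        · simp
        · simp only [List.getD_cons_succ]
          rw [midL_getD, if_neg (show ¬ z + 1 + 1 + 1 + 1 = 1 by omega), zero_add]
          by_cases h3 : z = R.numNodes
          · rw [if_pos h3, if_pos (by omega)]
          · rw [if_neg h3, if_neg (by omega)]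

end Pool.OddHC
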