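import Pool.Agent.Work.MP_8f87b2_h13.Fam
import Pool.Agent.Work.MP_8f87b2_cont.Cont

/-!
# The reduction map on the cycles of `T`, and the glue of two involutions

`Rd : Cyc k → Σ j, Cyc j`. `contc`, `pkc`: content and number of peaks of a cycle.
`glue_inv`: `R : C → D`, `i1` an involution of `C` over `R` with at most one fixed point in each fibre,
`i2` an involution of `D` compatible with the existence of a fixed point in the fibre.
-/

set_option autoImplicit false

namespace Pool.OddHC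

open Finset BinaryTree Multiset

/-! ### The glue -/

theorem glue_inv {C D : Type*} (R : C → D) (i1 : C → C) (h1 : ∀ x, i1 (i1 x) = x)
    (hu : ∀ x y, i1 x = x → i1 y = y → R x = R y → x = y)
    (i2 : D → D) (h2 : ∀ d, i2 (i2 d) = d)
    (hex : ∀ x, i1 x = x → ∃ y, i1 y = y ∧ R y = i2 (R x)) :
    ∃ i : C → C, (∀ x, i (i x) = x) ∧ (∀ x, i1 x ≠ x → i x = i1 x) ∧
      (∀ x, i1 x = x → i1 (i x) = i x ∧ R (i x) = i2 (R x)) ∧
      ∀ x, i x = x ↔ i1 x = x ∧ i2 (R x) = R x := by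
  classical
  choose y hy1 hy2 using hex
  let i : C → C := fun x => if h : i1 x = x then y x h else i1 x
  have e1 : ∀ x, i1 x ≠ x → i x = i1 x := fun x h => dif_neg h
  have e2 : ∀ x (h : i1 x = x), i x = y x h := fun x h => dif_pos h
  refine ⟨i, ?_, e1, ?_, ?_⟩
  · intro x
    by_cases h : i1 x = x
    · rw [e2 x h, e2 _ (hy1 x h)]
      apply hu _ _ (hy1 _ _) h
      rw [hy2, hy2, h2]
    · have h3 : i1 (i1 x) ≠ i1 x := by
        rw [h1]
        exact fun h4 => h h4.symm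
      rw [e1 x h, e1 _ h3, h1]
  · intro x h
    rw [e2 x h]
    exact ⟨hy1 x h, hy2 x h⟩
  · intro x
    by_cases h : i1 x = x
    · rw [e2 x h]
      constructor
      · intro h3
        exact ⟨h, by rw [← hy2 x h, h3]⟩
      · rintro ⟨_, h3⟩
        exact hu _ _ (hy1 x h) h (by rw [hy2, h3])
    · rw [e1 x h]
      constructor
      · intro h3
        exact absurd h3 h
      · rintro ⟨h3, _⟩
        exact absurd h3 h

/-! ### The cycles of all sizes -/

/-- a cycle of some size -/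
abbrev RD : Type := Σ j : ℕ, Cyc j

/-- the cycle of a tree -/
noncomputable def mkRD (t : BinaryTree Unit) : RD := ⟨t.numNodes, cyc ⟨t, mem_treesOfNumNodesEq.2 rfl⟩⟩

theorem mkRD_eq {j : ℕ} (u : X j) : mkRD u.1 = ⟨j, cyc u⟩ := by
  obtain ⟨t, ht⟩ := u
  have h := mem_treesOfNumNodesEq.1 ht
  subst h
  rfl

theorem mkRD_inj {t t' : BinaryTree Unit} (h : mkRD t = mkRD t') :
    ∃ (j : ℕ) (u u' : X j), u.1 = t ∧ u'.1 = t' ∧ (TT : Equiv.Perm (X j)).SameCycle u u' := by
  have h1 : t.numNodes = t'.numNodes := congrArg Sigma.fst h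
  obtain ⟨j, hj⟩ : ∃ j, j = t'.numNodes := ⟨_, rfl⟩
  obtain ⟨u, hu⟩ : ∃ u : X j, u.1 = t := ⟨⟨t, mem_treesOfNumNodesEq.2 (h1.trans hj.symm)⟩, rfl⟩
  obtain ⟨u', hu'⟩ : ∃ u' : X j, u'.1 = t' := ⟨⟨t', mem_treesOfNumNodesEq.2 hj.symm⟩, rfl⟩
  refine ⟨j, u, u', hu, hu', ?_⟩
  rw [← hu, ← hu', mkRD_eq, mkRD_eq] at h
  have h2 := eq_of_heq (Sigma.mk.inj_iff.1 h).2
  exact cyc_eq.1 h2

variable {j k : ℕ}

/-- the reduced cycle of a word -/
noncomputable def rdw (w : X k) : RD := mkRD (red w.1).1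

theorem rdw_ins {u : X j} {e : List ℕ} (he : e.length = 2 * j + 1) {w : X k}
    (hw : w.1 = ins u.1 e) : rdw w = ⟨j, cyc u⟩ := by
  unfold rdw
  rw [hw, red_ins u.1 e (by rw [X_num]; exact he), mkRD_eq]

theorem rdw_TT (w : X k) : rdw (TT w) = rdw w := by
  obtain ⟨j, u, e, he, hw, _, _⟩ := red_ex w
  rw [rdw_ins he hw]
  have h3 := (TF_ins u e he w hw).1
  rw [← TT_apply, ← TT_apply] at h3
  rw [rdw_ins (u := TT u) (by rw [List.length_rotate, he]) h3]
  congr 1
  exact (cyc_eq.2 ⟨1, by rw [zpow_one]⟩).symm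

theorem rdw_same {w w' : X k} (h : (TT : Equiv.Perm (X k)).SameCycle w w') : rdw w = rdw w' := by
  obtain ⟨i, hi⟩ := sameCycle_nat h
  rw [← hi]
  clear hi h
  induction i with
  | zero => rfl
  | succ i ih => rw [pow_succ', Equiv.Perm.mul_apply, rdw_TT, ih]

/-- THE REDUCTION of a cycle -/
noncomputable def Rd : Cyc k → RD := Quotient.lift rdw fun _ _ h => rdw_same h

theorem Rd_cyc (w : X k) : Rd (cyc w) = rdw w := rfl

theorem Rd_ins {u : X j} {e : List ℕ} (he : e.length = 2 * j + 1) {w : X k}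
    (hw : w.1 = ins u.1 e) : Rd (cyc w) = ⟨j, cyc u⟩ := rdw_ins he hw

/-- the content of a cycle -/
noncomputable def contc : Cyc k → Multiset ℕ := Quotient.lift (fun w => cont w.1) fun _ _ h => cont_same h

theorem contc_cyc (w : X k) : contc (cyc w) = cont w.1 := rfl

/-- the number of the peaks -/
noncomputable def pkc (p : Cyc k) : ℕ := Multiset.card (contc p)

theorem pkc_cyc (w : X k) : pkc (cyc w) = pkn w.1 := by
  unfold pkc
  rw [contc_cyc, cont_card]

/-- the height -/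
noncomputable def htc (p : Cyc k) : ℕ := (contc p).sup

theorem htc_cyc (w : X k) : htc (cyc w) = ht w.1 := by
  unfold htc
  rw [contc_cyc, ht_eq]

theorem contc_sum (p : Cyc k) : (contc p).sum = k := by
  obtain ⟨w, rfl⟩ := Quotient.exists_rep p
  change (cont w.1).sum = k
  rw [cont_sum, X_num]

/-- the words over a reduced cycle -/
theorem exists_over (p : Cyc k) : ∃ (j : ℕ) (u : X j) (e : List ℕ) (w : X k), cyc w = p ∧
    e.length = 2 * j + 1 ∧ w.1 = ins u.1 e ∧ Rd p = ⟨j, cyc u⟩ ∧ j + pkc p = k ∧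
    pkc p = pkn u.1 + e.sum ∧ e.sum = (contc p).count 1 ∧
    contc p = (cont u.1).map (· + 1) + replicate e.sum 1 := by
  obtain ⟨w, rfl⟩ := Quotient.exists_rep p
  obtain ⟨j, u, e, he, hw, h1, h2⟩ := red_ex w
  refine ⟨j, u, e, w, rfl, he, hw, Rd_ins he hw, ?_, ?_, ?_, ?_⟩
  · change j + pkc (cyc w) = k
    rw [pkc_cyc]
    exact h1
  · change pkc (cyc w) = _
    rw [pkc_cyc]
    exact h2
  · change _ = (contc (cyc w)).count 1
    rw [contc_cyc, hw, count_one_ins u.1 e (by rw [X_num]; exact he)]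
  · change contc (cyc w) = _
    rw [contc_cyc, hw, cont_ins u.1 e (by rw [X_num]; exact he)]

/-- the fibre of `Rd` over the cycle of `u₀` is the family of `u₀` -/
theorem Rd_fibre (u0 : X j) {p : Cyc k} (hp : Rd p = ⟨j, cyc u0⟩) :
    ∃ (i : ℕ) (e : List ℕ) (w : X k), cyc w = p ∧ e.length = 2 * j + 1 ∧
      w.1 = ins ((TT ^ i) u0).1 e ∧ j + pkn u0.1 + e.sum = k ∧ e.sum = (contc p).count 1 := by
  obtain ⟨j', u, e, w, hw, he, hwe, hR, h1, h2, h3, _⟩ := exists_over p
  rw [hR] at hp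
  obtain ⟨rfl, hc⟩ := Sigma.mk.inj_iff.1 hp
  have hs := cyc_eq.1 (eq_of_heq hc).symm
  obtain ⟨i, hi⟩ := sameCycle_nat hs
  refine ⟨i, e, w, hw, he, by rw [hi]; exact hwe, ?_, h3⟩
  have h4 : pkn u0.1 = pkn u.1 := by rw [← cont_card, ← cont_card, cont_same hs]
  omega

/-- two cycles over the same reduced cycle: the same number of beads -/
theorem Rd_count {p q : Cyc k} (h : Rd p = Rd q) : (contc p).count 1 = (contc q).count 1 := by
  obtain ⟨j, u, e, w, hw, he, hwe, hR, h1, h2, h3, _⟩ := exists_over p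
  rw [hR] at h
  obtain ⟨i, e', w', _, _, _, h4, h5⟩ := Rd_fibre u h.symm
  omega

theorem Rd_contc {p q : Cyc k} (h : Rd p = Rd q) : contc p = contc q := by
  obtain ⟨j, u, e, w, hw, he, hwe, hR, h1, h2, h3, h4⟩ := exists_over p
  obtain ⟨j', u', e', w', hw', he', hwe', hR', h1', h2', h3', h4'⟩ := exists_over q
  rw [hR, hR'] at h
  obtain ⟨rfl, hc⟩ := Sigma.mk.inj_iff.1 h
  have hs := cyc_eq.1 (eq_of_heq hc)
  have h5 := Rd_count (p := p) (q := q) (by rw [hR, hR', eq_of_heq hc])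
  rw [h4, h4', cont_same hs, h3, h3', h5]

end Pool.OddHC
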