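import Pool.Agent.Work.MP_8f87b2_h26.Two

/-!
# Two beads: all matchings row by row

`P x d` = class of `{x, x + d}`. Rows `2i`, `2i+1` are matched by `P x 2i - P x (2i+1)` (plus) and `P x 2i - P (x-1) (2i+1)`
(minus), as prescribed by `e i`, `o i` : `ZMod g → Option Bool` (`none` = left out); the top row of `n = 1 mod 4` without one
element `c`. `rows_matching`. `rowE`, `rowO`: one element of each row is left out.
-/

set_option autoImplicit false

namespace Pool.OddHop

open Finset

variable {n g : ℕ} [NeZero n]

theorem hopQ_P' (hg : g ∣ n) (x : ZMod n) (d : ℕ) : HopQ hg (P hg x d) (P hg (x - 1) (d + 1)) := by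
  have h := hop_two (x + (d : ZMod n)) (x - 1)
  refine HopQ.symm' ⟨two (x + (d : ZMod n)) (x - 1), two (x + (d : ZMod n)) (x - 1 + 1), ?_, ?_, h⟩
  · unfold P
    rw [two_comm]
    congr 2
    push_cast
    ring
  · unfold P
    rw [two_comm]
    congr 2
    ring

/-- the partner of `P x d` -/
def RowF (hg : g ∣ n) (e o : ℕ → ZMod g → Option Bool) (c : ZMod n) (x : ZMod n) (d : ℕ) :
    Quotient (msSetoid 2 hg) :=
  if 2 * d + 1 = n ∧ d % 2 = 0 then
    if cm hg (x - c) = 0 then P hg x d
    else if (2 * cm hg (x - c)).val % 2 = 1 then P hg (x + (d + 1 : ℕ)) d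
    else P hg (x - (d + 1 : ℕ)) d
  else if d % 2 = 0 then
    match e (d / 2) (cm hg x) with
    | none => P hg x d
    | some true => P hg x (d + 1)
    | some false => P hg (x - 1) (d + 1)
  else
    match o (d / 2) (cm hg x) with
    | none => P hg x d
    | some true => P hg x (d - 1)
    | some false => P hg (x + 1) (d - 1)

theorem RowF_tr (hg : g ∣ n) (e o : ℕ → ZMod g → Option Bool) (c : ZMod n) (x : ZMod n) {t : ZMod n}
    (ht : cm hg t = 0) (d : ℕ) : RowF hg e o c (x + t) d = RowF hg e o c x d := by
  unfold RowF
  have h0 : cm hg (x + t - c) = cm hg (x - c) := by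
    rw [map_sub, map_add, ht, add_zero, map_sub]
  have h00 : cm hg (x + t) = cm hg x := by rw [map_add, ht, add_zero]
  rw [h0, h00]
  have h1 : x + t + ((d + 1 : ℕ) : ZMod n) = x + ((d + 1 : ℕ) : ZMod n) + t := by ring
  have h2 : x + t - ((d + 1 : ℕ) : ZMod n) = x - ((d + 1 : ℕ) : ZMod n) + t := by ring
  have h3 : x + t - 1 = x - 1 + t := by ring
  have h4 : x + t + 1 = x + 1 + t := by ring
  simp only [h1, h2, h3, h4, P_tr hg _ ht]

/-- the value of `RowF` depends on the class only -/
theorem RowF_eq (hg : g ∣ n) (e o : ℕ → ZMod g → Option Bool) (c : ZMod n) {x x' : ZMod n} {d d' : ℕ}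
    (hd : 2 * d + 1 ≤ n) (hd' : 2 * d' + 1 ≤ n) (h : P hg x d = P hg x' d') :
    RowF hg e o c x d = RowF hg e o c x' d' := by
  obtain ⟨h1, h2⟩ := P_eq hd hd' h
  subst h1
  have h3 : x' = x + (x' - x) := by ring
  rw [h3, RowF_tr hg e o c x h2]

/-- **ALL MATCHINGS ROW BY ROW** -/
theorem rows_matching (hn : Odd n) (hg : g ∣ n) (e o : ℕ → ZMod g → Option Bool)
    (hp : ∀ i y, e i y = some true ↔ o i y = some true)
    (hm : ∀ i y, e i y = some false ↔ o i (y - 1) = some false) (c : ZMod n) :
    ∃ ι : Quotient (msSetoid 2 hg) → Quotient (msSetoid 2 hg), (∀ q, ι (ι q) = q) ∧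
      (∀ q, ι q = q ∨ HopQ hg q (ι q)) ∧
      ∀ x d, 2 * d + 1 ≤ n → ι (P hg x d) = RowF hg e o c x d := by
  have hn0 : n ≠ 0 := NeZero.ne n
  have hg0 : g ≠ 0 := by
    rintro rfl
    exact hn0 (Nat.eq_zero_of_zero_dvd hg)
  have : NeZero g := ⟨hg0⟩
  have hgo : Odd g := Odd.of_dvd_nat hn hg
  have hP := P_surj hn hg
  choose x d hd hq using hP
  have key : ∀ (y : ZMod n) (a : ℕ), 2 * a + 1 ≤ n →
      RowF hg e o c (x (P hg y a)) (d (P hg y a)) = RowF hg e o c y a :=
    fun y a ha => RowF_eq hg e o c (hd _) ha (hq (P hg y a)).symm
  -- the last layer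
  have hodd1 : ∀ a : ZMod g, a.val % 2 = 1 → (a + 1).val = a.val + 1 := by
    intro a ha
    have h1 := ZMod.val_lt a
    obtain ⟨k, hk⟩ := hgo
    have h3 : a + 1 = ((a.val + 1 : ℕ) : ZMod g) := by
      push_cast
      rw [ZMod.natCast_zmod_val]
    rw [h3, ZMod.val_natCast_of_lt (by omega)]
  have heven1 : ∀ a : ZMod g, a.val ≠ 0 → (a - 1).val = a.val - 1 := by
    intro a ha
    have h1 := ZMod.val_lt a
    have h3 : a - 1 = ((a.val - 1 : ℕ) : ZMod g) := by
      rw [Nat.cast_sub (by omega), ZMod.natCast_zmod_val, Nat.cast_one]
    rw [h3, ZMod.val_natCast_of_lt (by omega)]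
  have hu : ∀ a : ℕ, 2 * a + 1 = n → 2 * cm hg ((a + 1 : ℕ) : ZMod n) = 1 := by
    intro a ha
    rw [map_natCast]
    have h1 : ((2 * a + 1 : ℕ) : ZMod g) = 0 := by
      rw [ha]
      exact (ZMod.natCast_eq_zero_iff n g).2 hg
    push_cast at h1 ⊢
    linear_combination h1
  have hz : ∀ a : ℕ, 2 * a + 1 = n → ∀ b : ZMod g, 2 * b = 0 → b = 0 := by
    intro a ha b hb
    have h2u := hu a ha
    have : b = (2 * b) * cm hg ((a + 1 : ℕ) : ZMod n) := by
      linear_combination (- b) * h2u
    rw [this, hb, zero_mul]
  obtain ⟨ι, hι⟩ : ∃ ι : Quotient (msSetoid 2 hg) → Quotient (msSetoid 2 hg),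
      ∀ x d, 2 * d + 1 ≤ n → ι (P hg x d) = RowF hg e o c x d :=
    ⟨fun q => RowF hg e o c (x q) (d q), fun y a ha => key y a ha⟩
  -- one element
  have main : ∀ (y : ZMod n) (a : ℕ), 2 * a + 1 ≤ n →
      ι (RowF hg e o c y a) = P hg y a ∧
        (RowF hg e o c y a = P hg y a ∨ HopQ hg (P hg y a) (RowF hg e o c y a)) := by
    intro y a ha
    by_cases ht : 2 * a + 1 = n ∧ a % 2 = 0
    · -- the top row
      obtain ⟨h0, h1⟩ := ht
      by_cases hc : cm hg (y - c) = 0
      · have hF : RowF hg e o c y a = P hg y a := by
          unfold RowF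
          rw [if_pos ⟨h0, h1⟩, if_pos hc]
        refine ⟨?_, Or.inl hF⟩
        rw [hF, hι y a ha, hF]
      · have h3 : (2 * cm hg (y - c)).val ≠ 0 := by
          intro hh
          rw [ZMod.val_eq_zero] at hh
          exact hc (hz a h0 _ hh)
        by_cases h4 : (2 * cm hg (y - c)).val % 2 = 1
        · have hF : RowF hg e o c y a = P hg (y + (a + 1 : ℕ)) a := by
            unfold RowF
            rw [if_pos ⟨h0, h1⟩, if_neg hc, if_pos h4]
          have h5 : 2 * cm hg (y + ((a + 1 : ℕ) : ZMod n) - c) = 2 * cm hg (y - c) + 1 := by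
            rw [← hu a h0, ← mul_add, ← map_add]
            congr 2
            ring
          have h6 := hodd1 _ h4
          have hc' : ¬ cm hg (y + ((a + 1 : ℕ) : ZMod n) - c) = 0 := by
            intro h7
            rw [h7, mul_zero] at h5
            rw [← h5, ZMod.val_zero] at h6
            omega
          constructor
          · rw [hF, hι _ a ha]
            unfold RowF
            rw [if_pos ⟨h0, h1⟩, if_neg hc', h5, h6, if_neg (by omega), add_sub_cancel_right]
          · right
            rw [hF, ← P_turn hg h0 y]
            exact hopQ_P hg y a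
        · have hF : RowF hg e o c y a = P hg (y - (a + 1 : ℕ)) a := by
            unfold RowF
            rw [if_pos ⟨h0, h1⟩, if_neg hc, if_neg h4]
          have h5 : 2 * cm hg (y - ((a + 1 : ℕ) : ZMod n) - c) = 2 * cm hg (y - c) - 1 := by
            rw [← hu a h0, ← mul_sub, ← map_sub]
            congr 2
            ring
          have h6 := heven1 _ h3
          have hc' : ¬ cm hg (y - ((a + 1 : ℕ) : ZMod n) - c) = 0 := by
            intro h7
            rw [h7, mul_zero] at h5
            rw [← h5, ZMod.val_zero] at h6
            omega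
          constructor
          · rw [hF, hι _ a ha]
            unfold RowF
            rw [if_pos ⟨h0, h1⟩, if_neg hc', h5, h6, if_pos (by omega), sub_add_cancel]
          · right
            have h7 := P_turn hg h0 (y - ((a + 1 : ℕ) : ZMod n))
            rw [sub_add_cancel] at h7
            rw [hF, ← h7]
            exact (hopQ_P hg _ a).symm'
    · by_cases h1 : a % 2 = 0
      · -- even row
        have ha3 : 2 * (a + 1) + 1 ≤ n := by
          obtain ⟨r, hr⟩ := hn
          have : ¬ 2 * a + 1 = n := fun h => ht ⟨h, h1⟩
          omega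
        rcases he : e (a / 2) (cm hg y) with _ | _ | _
        · have hF : RowF hg e o c y a = P hg y a := by
            unfold RowF
            rw [if_neg ht, if_pos h1, he]
          refine ⟨?_, Or.inl hF⟩
          rw [hF, hι y a ha, hF]
        · have hF : RowF hg e o c y a = P hg (y - 1) (a + 1) := by
            unfold RowF
            rw [if_neg ht, if_pos h1, he]
          have ho := (hm _ _).1 he
          constructor
          · rw [hF, hι _ _ ha3]
            unfold RowF
            rw [if_neg (by omega), if_neg (by omega), show (a + 1) / 2 = a / 2 by omega, map_sub,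
              map_one, ho]
            simp
          · right
            rw [hF]
            exact hopQ_P' hg y a
        · have hF : RowF hg e o c y a = P hg y (a + 1) := by
            unfold RowF
            rw [if_neg ht, if_pos h1, he]
          have ho := (hp _ _).1 he
          constructor
          · rw [hF, hι _ _ ha3]
            unfold RowF
            rw [if_neg (by omega), if_neg (by omega), show (a + 1) / 2 = a / 2 by omega, ho]
            simp
          · right
            rw [hF]
            exact hopQ_P hg y a
      · -- odd row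
        obtain ⟨b, rfl⟩ : ∃ b, a = b + 1 := ⟨a - 1, by omega⟩
        have hb : ¬ (2 * b + 1 = n ∧ b % 2 = 0) := by omega
        rcases ho : o ((b + 1) / 2) (cm hg y) with _ | _ | _
        · have hF : RowF hg e o c y (b + 1) = P hg y (b + 1) := by
            unfold RowF
            rw [if_neg ht, if_neg h1, ho]
          refine ⟨?_, Or.inl hF⟩
          rw [hF, hι y _ ha, hF]
        · have hF : RowF hg e o c y (b + 1) = P hg (y + 1) b := by
            unfold RowF
            rw [if_neg ht, if_neg h1, ho]
            simp
          have he : e (b / 2) (cm hg (y + 1)) = some false := by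
            rw [hm, map_add, map_one, add_sub_cancel_right, show b / 2 = (b + 1) / 2 by omega]
            exact ho
          constructor
          · rw [hF, hι _ _ (by omega)]
            unfold RowF
            rw [if_neg hb, if_pos (by omega), he]
            simp
          · right
            rw [hF]
            have h7 := hopQ_P' hg (y + 1) b
            rw [add_sub_cancel_right] at h7
            exact h7.symm'
        · have hF : RowF hg e o c y (b + 1) = P hg y b := by
            unfold RowF
            rw [if_neg ht, if_neg h1, ho]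
            simp
          have he : e (b / 2) (cm hg y) = some true := by
            rw [hp, show b / 2 = (b + 1) / 2 by omega]
            exact ho
          constructor
          · rw [hF, hι _ _ (by omega)]
            unfold RowF
            rw [if_neg hb, if_pos (by omega), he]
          · right
            rw [hF]
            exact (hopQ_P hg y b).symm'
  refine ⟨ι, fun q => ?_, fun q => ?_, hι⟩
  · obtain ⟨y, a, ha, rfl⟩ := P_surj hn hg q
    rw [hι y a ha]
    exact (main y a ha).1
  · obtain ⟨y, a, ha, rfl⟩ := P_surj hn hg q
    rw [hι y a ha]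
    exact (main y a ha).2

/-- leave out `a` in the even row and `b` in the odd row: even row -/
def rowE [NeZero g] (a b : ZMod g) (y : ZMod g) : Option Bool :=
  if (y - a).val = 0 then none else if (y - a).val ≤ (b - a).val then some false else some true

/-- leave out `a` in the even row and `b` in the odd row: odd row -/
def rowO [NeZero g] (a b : ZMod g) (y : ZMod g) : Option Bool :=
  if (y - a).val = (b - a).val then none else if (y - a).val < (b - a).val then some false
    else some true

theorem rowE_none [NeZero g] {a b y : ZMod g} : rowE a b y = none ↔ y = a := by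
  unfold rowE
  constructor
  · intro h
    split_ifs at h with h1
    exact sub_eq_zero.1 ((ZMod.val_eq_zero _).1 h1)
  · rintro rfl
    rw [if_pos (by rw [sub_self, ZMod.val_zero])]

theorem rowO_none [NeZero g] {a b y : ZMod g} : rowO a b y = none ↔ y = b := by
  unfold rowO
  constructor
  · intro h
    split_ifs at h with h1
    have h2 := ZMod.val_injective g h1
    linear_combination h2
  · rintro rfl
    rw [if_pos rfl]

theorem row_plus [NeZero g] (a b y : ZMod g) : rowE a b y = some true ↔ rowO a b y = some true := by
  unfold rowE rowO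
  have h0 := ZMod.val_lt (b - a)
  rcases lt_trichotomy (y - a).val (b - a).val with h | h | h
  · by_cases h1 : (y - a).val = 0
    · rw [if_pos h1, if_neg (by omega), if_pos h]
      simp
    · rw [if_neg h1, if_pos (by omega), if_neg (by omega), if_pos h]
  · by_cases h1 : (y - a).val = 0
    · rw [if_pos h1, if_pos h]
    · rw [if_neg h1, if_pos (by omega), if_pos h]
      simp
  · rw [if_neg (by omega), if_neg (by omega), if_neg (by omega), if_neg (by omega)]

theorem row_minus [NeZero g] (a b y : ZMod g) :
    rowE a b y = some false ↔ rowO a b (y - 1) = some false := by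
  unfold rowE rowO
  have h0 := ZMod.val_lt (b - a)
  have h1 : y - 1 - a = (y - a) - 1 := by ring
  rw [h1]
  have h2 := ZMod.val_lt (y - a)
  by_cases hz : (y - a).val = 0
  · rw [if_pos hz]
    have hz' : y - a = 0 := (ZMod.val_eq_zero _).1 hz
    rw [hz', zero_sub]
    have h5 : (-1 : ZMod g).val + 1 = g := by
      obtain ⟨r, hr⟩ : ∃ r, g = r + 1 := ⟨g - 1, by omega⟩
      subst hr
      rw [ZMod.val_neg_one]
    by_cases h3 : (-1 : ZMod g).val = (b - a).val
    · rw [if_pos h3]
    · rw [if_neg h3, if_neg (by omega)]
      simp
  · have h3 : (y - a - 1).val = (y - a).val - 1 := by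
      have h4 : y - a - 1 = (((y - a).val - 1 : ℕ) : ZMod g) := by
        rw [Nat.cast_sub (by omega), ZMod.natCast_zmod_val, Nat.cast_one]
      rw [h4, ZMod.val_natCast_of_lt (by omega)]
    rw [h3, if_neg hz]
    rcases lt_trichotomy ((y - a).val - 1) (b - a).val with h | h | h
    · rw [if_pos (by omega), if_neg (by omega), if_pos h]
    · rw [if_neg (by omega), if_pos h]
      simp
    · rw [if_neg (by omega), if_neg (by omega), if_neg (by omega)]

/-- leave out whole edges -/
theorem leave_edges {Q : Type*} {A : Q → Q → Prop} {ι : Q → Q} (h1 : ∀ q, ι (ι q) = q)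
    (h2 : ∀ q, ι q = q ∨ A q (ι q)) (S : Q → Prop) (hS : ∀ q, S q → S (ι q)) :
    ∃ ι' : Q → Q, (∀ q, ι' (ι' q) = q) ∧ (∀ q, ι' q = q ∨ A q (ι' q)) ∧
      ∀ q, ι' q = q ↔ ι q = q ∨ S q := by
  classical
  have hS' : ∀ q, S (ι q) → S q := by
    intro q h
    have := hS _ h
    rwa [h1] at this
  refine ⟨fun q => if S q then q else ι q, fun q => ?_, fun q => ?_, fun q => ?_⟩
  · by_cases h : S q
    · simp only [if_pos h]
    · have h' : ¬ S (ι q) := fun h3 => h (hS' q h3)
      simp only [if_neg h, if_neg h', h1]
  · change (if S q then q else ι q) = q ∨ A q (if S q then q else ι q)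
    by_cases h : S q
    · rw [if_pos h]
      exact Or.inl rfl
    · rw [if_neg h]
      exact h2 q
  · change (if S q then q else ι q) = q ↔ _
    by_cases h : S q
    · rw [if_pos h]
      exact ⟨fun _ => Or.inr h, fun _ => rfl⟩
    · rw [if_neg h]
      exact ⟨Or.inl, fun h' => h'.resolve_right h⟩

/-- the second member of the edge at `P x (2 i)` -/
def mate (s : Bool) (x : ZMod n) : ZMod n := if s = true then x else x - 1

/-- **THE ROW LEMMA** (two beads): `rem i = some (a, b)`: `P a (2i)` and `P b (2i+1)` are left out; `rem i = none`: the rows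
`2i`, `2i+1` are matched with the sign `sg i`, and the edges at `x`, `S i x`, may be left out too; `n = 1 mod 4`: `P c (n/2)` is
left out in the top row. -/
theorem two_rows (hn : Odd n) (hg : g ∣ n) (rem : ℕ → Option (ZMod n × ZMod n)) (sg : ℕ → Bool)
    (c : ZMod n) (S : ℕ → ZMod n → Prop) :
    ∃ ι : Quotient (msSetoid 2 hg) → Quotient (msSetoid 2 hg), (∀ q, ι (ι q) = q) ∧
      (∀ q, ι q = q ∨ HopQ hg q (ι q)) ∧
      ∀ q, ι q = q ↔ (n % 4 = 1 ∧ q = P hg c (n / 2)) ∨
        (∃ i a b, 4 * i + 3 ≤ n ∧ rem i = some (a, b) ∧ (q = P hg a (2 * i) ∨ q = P hg b (2 * i + 1))) ∨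
        (∃ i x, 4 * i + 3 ≤ n ∧ rem i = none ∧ S i x ∧
          (q = P hg x (2 * i) ∨ q = P hg (mate (sg i) x) (2 * i + 1))) := by
  have hg0 : g ≠ 0 := by
    rintro rfl
    exact NeZero.ne n (Nat.eq_zero_of_zero_dvd hg)
  have : NeZero g := ⟨hg0⟩
  obtain ⟨e, he⟩ : ∃ e : ℕ → ZMod g → Option Bool, e = fun i y => match rem i with
    | some (a, b) => rowE (cm hg a) (cm hg b) y
    | none => some (sg i) := ⟨_, rfl⟩
  obtain ⟨o, ho⟩ : ∃ o : ℕ → ZMod g → Option Bool, o = fun i y => match rem i with
    | some (a, b) => rowO (cm hg a) (cm hg b) y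
    | none => some (sg i) := ⟨_, rfl⟩
  have he1 : ∀ i a b y, rem i = some (a, b) → e i y = rowE (cm hg a) (cm hg b) y := by
    intro i a b y h
    rw [he]
    simp only [h]
  have he2 : ∀ i y, rem i = none → e i y = some (sg i) := by
    intro i y h
    rw [he]
    simp only [h]
  have ho1 : ∀ i a b y, rem i = some (a, b) → o i y = rowO (cm hg a) (cm hg b) y := by
    intro i a b y h
    rw [ho]
    simp only [h]
  have ho2 : ∀ i y, rem i = none → o i y = some (sg i) := by
    intro i y h
    rw [ho]
    simp only [h]
  have hp : ∀ i y, e i y = some true ↔ o i y = some true := by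
    intro i y
    rcases h : rem i with _ | ⟨a, b⟩
    · rw [he2 i y h, ho2 i y h]
    · rw [he1 i a b y h, ho1 i a b y h]
      exact row_plus _ _ _
  have hm : ∀ i y, e i y = some false ↔ o i (y - 1) = some false := by
    intro i y
    rcases h : rem i with _ | ⟨a, b⟩
    · rw [he2 i y h, ho2 i _ h]
    · rw [he1 i a b y h, ho1 i a b _ h]
      exact row_minus _ _ _
  obtain ⟨ι, h1, h2, h3⟩ := rows_matching hn hg e o hp hm c
  -- equal classes
  have hcm : ∀ {x x' : ZMod n} (d : ℕ), cm hg x = cm hg x' → P hg x d = P hg x' d := by
    intro x x' d h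
    have h4 : x' = x + (x' - x) := by ring
    rw [h4, P_tr hg x (by rw [map_sub, h, sub_self])]
  -- the fixed classes
  have hfix : ∀ y d, 2 * d + 1 ≤ n → (ι (P hg y d) = P hg y d ↔
      (n % 4 = 1 ∧ P hg y d = P hg c (n / 2)) ∨
      ∃ i a b, 4 * i + 3 ≤ n ∧ rem i = some (a, b) ∧
        (P hg y d = P hg a (2 * i) ∨ P hg y d = P hg b (2 * i + 1))) := by
    intro y d hd
    rw [h3 y d hd]
    by_cases ht : 2 * d + 1 = n ∧ d % 2 = 0
    · have hn4 : n % 4 = 1 := by omega
      have hd2 : n / 2 = d := by omega
      have hL : RowF hg e o c y d = P hg y d ↔ cm hg (y - c) = 0 := by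
        unfold RowF
        rw [if_pos ht]
        constructor
        · intro h
          by_contra hc
          rw [if_neg hc] at h
          have hh : 2 * cm hg ((d + 1 : ℕ) : ZMod n) = 1 := by
            rw [map_natCast]
            have h1 : ((2 * d + 1 : ℕ) : ZMod g) = 0 := by
              rw [ht.1]
              exact (ZMod.natCast_eq_zero_iff n g).2 hg
            push_cast at h1 ⊢
            linear_combination h1
          have h5 : cm hg ((d + 1 : ℕ) : ZMod n) = 0 := by
            split_ifs at h with h4
            · obtain ⟨-, hs⟩ := P_eq hd hd h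
              rw [map_sub, map_add] at hs
              linear_combination - hs
            · obtain ⟨-, hs⟩ := P_eq hd hd h
              rw [map_sub, map_sub] at hs
              linear_combination hs
          rw [h5, mul_zero] at hh
          apply hc
          have : cm hg (y - c) = cm hg (y - c) * 1 := by ring
          rw [this, ← hh, mul_zero]
        · intro h
          rw [if_pos h]
      rw [hL]
      constructor
      · intro h
        left
        refine ⟨hn4, ?_⟩
        rw [hd2]
        exact hcm d (by rw [map_sub] at h; exact sub_eq_zero.1 h)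
      · rintro (⟨-, h⟩ | ⟨i, a, b, h4, h5, h6⟩)
        · rw [hd2] at h
          obtain ⟨-, h7⟩ := P_eq hd hd h
          rw [map_sub] at h7 ⊢
          linear_combination - h7
        · exfalso
          rcases h6 with h6 | h6
          · have := (P_eq hd (by omega) h6).1
            omega
          · have := (P_eq hd (by omega) h6).1
            omega
    · have hnt : ¬ (n % 4 = 1 ∧ P hg y d = P hg c (n / 2)) := by
        rintro ⟨h4, h5⟩
        have h6 := (P_eq hd (by omega) h5).1
        exact ht ⟨by omega, by omega⟩
      by_cases hev : d % 2 = 0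
      · obtain ⟨i, hi⟩ : ∃ i, d = 2 * i := ⟨d / 2, by omega⟩
        subst hi
        have hn3 : 4 * i + 3 ≤ n := by
          obtain ⟨r, hr⟩ := hn
          have : ¬ 2 * (2 * i) + 1 = n := fun h => ht ⟨h, hev⟩
          omega
        have hL : RowF hg e o c y (2 * i) = P hg y (2 * i) ↔ e i (cm hg y) = none := by
          unfold RowF
          rw [if_neg ht, if_pos hev, show 2 * i / 2 = i by omega]
          rcases hh : e i (cm hg y) with _ | _ | _
          · simp
          · simp only [reduceCtorEq, iff_false]
            intro h
            have := (P_eq (by omega) hd h).1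
            omega
          · simp only [reduceCtorEq, iff_false]
            intro h
            have := (P_eq (by omega) hd h).1
            omega
        rw [hL]
        constructor
        · intro h
          right
          rcases hr : rem i with _ | ⟨a, b⟩
          · rw [he2 i _ hr] at h
            simp at h
          · rw [he1 i a b _ hr, rowE_none] at h
            exact ⟨i, a, b, hn3, hr, Or.inl (hcm _ h)⟩
        · rintro (h | ⟨i', a, b, h4, h5, h6⟩)
          · exact absurd h hnt
          · rcases h6 with h6 | h6
            · obtain ⟨h7, h8⟩ := P_eq hd (by omega) h6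
              have : i' = i := by omega
              subst this
              rw [he1 i' a b _ h5, rowE_none]
              rw [map_sub] at h8
              linear_combination - h8
            · have := (P_eq hd (by omega) h6).1
              omega
      · obtain ⟨i, hi⟩ : ∃ i, d = 2 * i + 1 := ⟨d / 2, by omega⟩
        subst hi
        have hL : RowF hg e o c y (2 * i + 1) = P hg y (2 * i + 1) ↔ o i (cm hg y) = none := by
          unfold RowF
          rw [if_neg ht, if_neg hev, show (2 * i + 1) / 2 = i by omega]
          rcases hh : o i (cm hg y) with _ | _ | _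
          · simp
          · simp only [reduceCtorEq, iff_false]
            intro h
            have := (P_eq (by omega) hd h).1
            omega
          · simp only [reduceCtorEq, iff_false]
            intro h
            have := (P_eq (by omega) hd h).1
            omega
        rw [hL]
        constructor
        · intro h
          right
          rcases hr : rem i with _ | ⟨a, b⟩
          · rw [ho2 i _ hr] at h
            simp at h
          · rw [ho1 i a b _ hr, rowO_none] at h
            exact ⟨i, a, b, by omega, hr, Or.inr (hcm _ h)⟩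
        · rintro (h | ⟨i', a, b, h4, h5, h6⟩)
          · exact absurd h hnt
          · rcases h6 with h6 | h6
            · have := (P_eq hd (by omega) h6).1
              omega
            · obtain ⟨h7, h8⟩ := P_eq hd (by omega) h6
              have : i' = i := by omega
              subst this
              rw [ho1 i' a b _ h5, rowO_none]
              rw [map_sub] at h8
              linear_combination - h8
  -- the edges
  have hedge : ∀ i x, 4 * i + 3 ≤ n → rem i = none →
      ι (P hg x (2 * i)) = P hg (mate (sg i) x) (2 * i + 1) := by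
    intro i x h4 h5
    rw [h3 _ _ (by omega)]
    unfold RowF mate
    rw [if_neg (by omega), if_pos (by omega), show 2 * i / 2 = i by omega, he2 i _ h5]
    cases sg i
    · simp
    · simp
  obtain ⟨ι', k1, k2, k3⟩ := leave_edges h1 h2 (fun q => ∃ i x, 4 * i + 3 ≤ n ∧ rem i = none ∧ S i x ∧
      (q = P hg x (2 * i) ∨ q = P hg (mate (sg i) x) (2 * i + 1))) (by
    rintro q ⟨i, x, h4, h5, h6, h7⟩
    refine ⟨i, x, h4, h5, h6, ?_⟩
    rcases h7 with rfl | rfl
    · exact Or.inr (hedge i x h4 h5)
    · left
      rw [← hedge i x h4 h5, h1])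
  refine ⟨ι', k1, k2, fun q => ?_⟩
  rw [k3]
  obtain ⟨y, d, hd, rfl⟩ := P_surj hn hg q
  rw [hfix y d hd, or_assoc]

end Pool.OddHop
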