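import Pool.Agent.Work.MP_8f87b2_end.Fam2
import Pool.Agent.Work.MP_8f87b2_end.Rows

/-!
# Two beads over a T-cycle: the row lemma for T-cycles

`tc u hk x d` : the T-cycle of the words over `u` with the beads `{x, x + d}`, `d ≤ j` = the level. `remOK_rows`: removal sets.
-/

set_option autoImplicit false

namespace Pool.OddHC

open Finset BinaryTree Multiset Pool.OddHop

variable {j k : ℕ}

/-- the T-cycle over `u` with the beads `x`, `x + d` -/
noncomputable def tc (u : X j) (hk : j + pkn u.1 + 2 = k) (x : ZMod (2 * j + 1)) (d : ℕ) : Cyc k :=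
  cyc (phi u (two x (x + d)).1 (by rw [(two x (x + d)).2]; exact hk))

theorem two_apply {n : ℕ} [NeZero n] (x y z : ZMod n) :
    (two x y).1 z = (if z = x then 1 else 0) + if z = y then 1 else 0 := by
  change (Pi.single x 1 + Pi.single y 1 : ZMod n → ℕ) z = _
  rw [Pi.add_apply]
  congr 1
  · by_cases h : z = x
    · subst h; simp
    · simp [h]
  · by_cases h : z = y
    · subst h; simp
    · simp [h]

theorem tc_word (u : X j) (hk : j + pkn u.1 + 2 = k) (x : ZMod (2 * j + 1)) (d : ℕ) {w : X k}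
    (hw : w.1 = ins u.1 (lf (fun z => (if z = x then 1 else 0) +
      if z = x + (d : ZMod (2 * j + 1)) then 1 else 0))) : cyc w = tc u hk x d := by
  unfold tc
  congr 1
  apply Subtype.ext
  rw [hw]
  change _ = ins u.1 (lf _)
  congr 2
  funext z
  rw [two_apply]

theorem tc_exists (u : X j) (hk : j + pkn u.1 + 2 = k) (x : ZMod (2 * j + 1)) (d : ℕ) : ∃ w : X k,
    cyc w = tc u hk x d ∧ w.1 = ins u.1 (lf (fun z => (if z = x then 1 else 0) +
      if z = x + (d : ZMod (2 * j + 1)) then 1 else 0)) := by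
  refine ⟨phi u (two x (x + d)).1 (by rw [(two x (x + d)).2]; exact hk), rfl, ?_⟩
  change ins u.1 (lf _) = _
  congr 2
  funext z
  rw [two_apply]

theorem Rd_tc (u : X j) (hk : j + pkn u.1 + 2 = k) (x : ZMod (2 * j + 1)) (d : ℕ) :
    Rd (tc u hk x d) = ⟨j, cyc u⟩ := Rd_ins (e := lf _) (lf_length _) rfl

/-- the family of two beads: levels, every member, hops, removal sets -/
theorem two_family (hj : 1 ≤ j) (u : X j) (hk : j + pkn u.1 + 2 = k) :
    (∀ p : Cyc k, Rd p = ⟨j, cyc u⟩ → ∃ x d, d ≤ j ∧ p = tc u hk x d) ∧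
    (∀ x x' d d', d ≤ j → d' ≤ j → tc u hk x d = tc u hk x' d' → d = d') ∧
    (∀ x, tc u hk x (j + 1) = tc u hk (x + ((j + 1 : ℕ) : ZMod (2 * j + 1))) j) ∧
    ∀ (rem : ℕ → Option (ZMod (2 * j + 1) × ZMod (2 * j + 1))) (sg : ℕ → Bool)
      (c : ZMod (2 * j + 1)) (S : ℕ → ZMod (2 * j + 1) → Prop),
      RemOK ⟨j, cyc u⟩ {p | (j % 2 = 0 ∧ p = tc u hk c j) ∨
        (∃ i a b, 2 * i + 1 ≤ j ∧ rem i = some (a, b) ∧
          (p = tc u hk a (2 * i) ∨ p = tc u hk b (2 * i + 1))) ∨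
        ∃ i x, 2 * i + 1 ≤ j ∧ rem i = none ∧ S i x ∧
          (p = tc u hk x (2 * i) ∨ p = tc u hk (mate (sg i) x) (2 * i + 1))} := by
  have hodd : Odd (2 * j + 1) := ⟨j, rfl⟩
  obtain ⟨g, hg, F, hinj, hF, hR, hs, hH, hA⟩ := family_rem hj u 2 hk
  have hFP : ∀ x d, F (P hg x d) = tc u hk x d := by
    intro x d
    exact hF _ _ rfl
  refine ⟨?_, ?_, ?_, ?_⟩
  · intro p hp
    obtain ⟨q, rfl⟩ := hs p hp
    obtain ⟨x, d, hd, rfl⟩ := P_surj hodd hg q
    exact ⟨x, d, by omega, hFP x d⟩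
  · intro x x' d d' hd hd' h
    rw [← hFP, ← hFP] at h
    exact (P_eq (by omega) (by omega) (hinj h)).1
  · intro x
    rw [← hFP, ← hFP, P_turn hg rfl]
  · intro rem sg c S
    obtain ⟨ι, h1, h2, h3⟩ := two_rows hodd hg rem sg c S
    refine RemOK.congr (hA HopC ι h1 fun q => (h2 q).imp id (hH q (ι q))) fun p _ => ?_
    constructor
    · rintro ⟨q, rfl, hq⟩
      rcases (h3 q).1 hq with ⟨h4, rfl⟩ | ⟨i, a, b, h4, h5, h6⟩ | ⟨i, x, h4, h5, h6, h7⟩
      · left
        refine ⟨by omega, ?_⟩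
        rw [hFP]
        congr 1
        omega
      · right; left
        refine ⟨i, a, b, by omega, h5, ?_⟩
        rcases h6 with rfl | rfl
        · exact Or.inl (hFP _ _)
        · exact Or.inr (hFP _ _)
      · right; right
        refine ⟨i, x, by omega, h5, h6, ?_⟩
        rcases h7 with rfl | rfl
        · exact Or.inl (hFP _ _)
        · exact Or.inr (hFP _ _)
    · rintro (⟨h4, rfl⟩ | ⟨i, a, b, h4, h5, h6⟩ | ⟨i, x, h4, h5, h6, h7⟩)
      · refine ⟨P hg c j, hFP _ _, (h3 _).2 (Or.inl ⟨by omega, ?_⟩)⟩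
        congr 1
        omega
      · rcases h6 with rfl | rfl
        · exact ⟨_, hFP _ _, (h3 _).2 (Or.inr (Or.inl ⟨i, a, b, by omega, h5, Or.inl rfl⟩))⟩
        · exact ⟨_, hFP _ _, (h3 _).2 (Or.inr (Or.inl ⟨i, a, b, by omega, h5, Or.inr rfl⟩))⟩
      · rcases h7 with rfl | rfl
        · exact ⟨_, hFP _ _, (h3 _).2 (Or.inr (Or.inr ⟨i, x, by omega, h5, h6, Or.inl rfl⟩))⟩
        · exact ⟨_, hFP _ _, (h3 _).2 (Or.inr (Or.inr ⟨i, x, by omega, h5, h6, Or.inr rfl⟩))⟩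

/-! ### One bead: the ring -/

end Pool.OddHC
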