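import Pool.Agent.Work.MP_8f87b2_end.Trip
import Pool.Agent.Work.MP_8f87b2_top.TopSys2

/-!
# The top (heights `≥ k - 2`) as a system
-/

set_option autoImplicit false

namespace Pool.OddHC

open Finset BinaryTree

/-- the words of the top -/
def topW (d : ℕ) (ph : ℕ → Bool) : Set (X (d + 5)) :=
  {w | (∃ i < 9, w = xW d i) ∨ ∃ i < tN d,
      w = eP d (th d (ph i) i) ∨ w = eB d (th d (ph i) i) ∨ w = eF d (th d (ph i) i)}

/-- **THE TOP**: with `1^k 0^k` old, everything of height `≥ k - 2` is absorbed -/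
theorem top_sys (d : ℕ) (ph : ℕ → Bool) :
    HasSys {cyc (pwX (d + 5))} {c : Cyc (d + 5) | d + 3 ≤ htc c ∧ c ≠ cyc (pwX (d + 5))}
      (topW d ph) ∅ := by
  refine sys_of_dir _ _ _ _ (topGad d ph) (fun g => if g = none then 0 else 1) ?_ ?_ ?_ ?_ ?_ ?_
    ?_ ?_ ?_ ?_
  · intro g h hne w hw
    exact top_hdis d ph g h hne w hw
  · intro g w w' hs hw
    exact top_hF d ph g w w' hs hw
  · intro g w hw
    exact top_hFne d ph g w hw
  · intro g
    exact top_hold d ph g
  · intro g h hne w hw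
    exact top_hFdis d ph g h hne w hw
  · intro w
    constructor
    · rintro ⟨h1, h2⟩
      rw [htc_cyc] at h1
      rcases top_hall d ph w h1 with h | h
      · exact absurd (by rw [h]) h2
      · exact h
    · rintro ⟨g, hg⟩
      refine ⟨?_, ?_⟩
      · rw [htc_cyc]
        exact top_ht d ph g w hg
      · intro h
        exact top_hroot d ph g (top_hF d ph g w _ (cyc_eq.1 h) hg)
  · intro g w hw
    rcases top_hB d ph g w hw with h | h | ⟨h1, h2⟩
    · exact Or.inl h
    · exact Or.inr (Or.inl (by rw [h]; rfl))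
    · exact Or.inr (Or.inr ⟨none, by simp [h1], h2⟩)
  · intro g w hw
    exact top_words d ph g w hw
  · intro g a ha
    rw [top_arcs] at ha
    exact absurd ha (Set.notMem_empty a)
  · intro g
    exact top_Abs d ph g

/-- the frame of the whole proof: top, middle, bottom -/
theorem ham_of_parts (d : ℕ) (ph : ℕ → Bool) {W I : Set (X (d + 5))}
    (h : HasSys {c : Cyc (d + 5) | d + 3 ≤ htc c} {c | htc c < d + 3} W I)
    (hW : ∀ w ∈ topW d ph, w ∉ W) (hI : ∀ w ∈ topW d ph, w ∉ I) :
    2 * (d + 5) + 1 ∈ Pool.Agent.Work.MP_8f87b2_co.compressionSet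
      (Pool.Agent.Work.MP_8f87b2_co.oddGraph (d + 5)) := by
  have e0 : d + 3 ≤ htc (cyc (pwX (d + 5))) := by
    rw [htc_cyc]
    have e1 : ht (pwX (d + 5)).1 = d + 5 := ht_pw (d + 5)
    omega
  have e1 : ({cyc (pwX (d + 5))} : Set (Cyc (d + 5))) ∪
      {c : Cyc (d + 5) | d + 3 ≤ htc c ∧ c ≠ cyc (pwX (d + 5))} = {c | d + 3 ≤ htc c} := by
    ext c
    constructor
    · rintro (hc | hc)
      · have hc' : c = cyc (pwX (d + 5)) := hc
        rw [hc']
        exact e0
      · exact hc.1
    · intro hc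
      by_cases h1 : c = cyc (pwX (d + 5))
      · exact Or.inl h1
      · exact Or.inr ⟨hc, h1⟩
  have h1 := sys_union (top_sys d ph) (by rw [e1]; exact h) (by
      rintro c ⟨hc, _⟩ hc'
      change htc c < d + 3 at hc'
      omega) hW hI
  have e2 : {c : Cyc (d + 5) | d + 3 ≤ htc c ∧ c ≠ cyc (pwX (d + 5))} ∪ {c | htc c < d + 3} =
      {cyc (pwX (d + 5))}ᶜ := by
    ext c
    constructor
    · rintro (hc | hc)
      · exact hc.2
      · intro h2
        have h2' : c = cyc (pwX (d + 5)) := h2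
        rw [h2'] at hc
        change htc _ < d + 3 at hc
        omega
    · intro hc
      by_cases h2 : d + 3 ≤ htc c
      · exact Or.inl ⟨h2, hc⟩
      · exact Or.inr (not_le.1 h2)
  rw [e2] at h1
  exact sys_main (by omega) _ h1

end Pool.OddHC
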